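import Mathlib
import Pool.Agent.Lib.Osgood

/-!
# Complements of analytic sets are connected; extension across codimension two
-/

set_option autoImplicit false

open scoped Topology
open Set Filter Metric

namespace Pool.Agent.Lib.MP_55bc5f_an

variable {V : Type} [NormedAddCommGroup V] [NormedSpace ℂ V]
variable {W : Type} [NormedAddCommGroup W] [NormedSpace ℂ W]

lemma countable_zeros {C : Set ℂ} (hCo : IsOpen C) (hCc : IsPreconnected C) {f : ℂ → ℂ}
    (hf : DifferentiableOn ℂ f C) {s₀ : ℂ} (hs₀ : s₀ ∈ C) (h0 : f s₀ ≠ 0) :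
    {s ∈ C | f s = 0}.Countable := by
  have ha : AnalyticOnNhd ℂ f C := hf.analyticOnNhd hCo
  rcases ha.eqOn_zero_or_eventually_ne_zero_of_preconnected hCc with h | h
  · exact absurd (h hs₀) h0
  · have hd : DiscreteTopology {s ∈ C | f s = 0} := by
      rw [discreteTopology_subtype_iff]
      intro x hx
      rw [Filter.inf_principal_eq_bot]
      have h1 := (mem_codiscreteWithin_iff_forall_mem_nhdsNE.1 h) x hx.1
      filter_upwards [h1] with z hz hzz
      rcases hz with hz | hz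
      · exact hz hzz.2
      · exact hz hzz.1
    have : Countable {s ∈ C | f s = 0} := countable_of_Lindelof_of_discrete
    exact this

lemma isPreconnected_diff_zeros [NormedSpace ℝ V] [IsScalarTower ℝ ℂ V]
    {B : Set V} (hB : IsOpen B) (hBc : Convex ℝ B) {k : ℕ}
    {h : Fin k → V → ℂ} (hh : ∀ i, DifferentiableOn ℂ (h i) B) :
    IsPreconnected {z ∈ B | ¬ ∀ i, h i z = 0} := by
  apply isPreconnected_of_forall_pair
  rintro x ⟨hxB, hx⟩ y ⟨hyB, hy⟩
  push Not at hx
  obtain ⟨i, hi⟩ := hx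
  let l : ℂ → V := fun s => x + s • (y - x)
  have hl : Continuous l := by fun_prop
  have hl0 : l 0 = x := by simp [l]
  have hl1 : l 1 = y := by simp [l]
  let C : Set ℂ := l ⁻¹' B
  have hCo : IsOpen C := hB.preimage hl
  have hCc : Convex ℝ C := by
    intro s hs r hr a b ha hb hab
    have h1 : l (a • s + b • r) = a • l s + b • l r := by
      simp only [l]
      rw [add_smul, smul_assoc, smul_assoc, smul_add, smul_add]
      have : x = a • x + b • x := by rw [← add_smul, hab, one_smul]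
      nth_rewrite 1 [this]
      abel
    change l (a • s + b • r) ∈ B
    rw [h1]
    exact hBc hs hr ha hb hab
  have hCp : IsPreconnected C := hCc.isPreconnected
  have hf : DifferentiableOn ℂ (fun s => h i (l s)) C :=
    Osgood.line_differentiableOn (hh i) hB x (y - x) (fun s hs => hs)
  have h0C : (0 : ℂ) ∈ C := by change l 0 ∈ B; rwa [hl0]
  have h1C : (1 : ℂ) ∈ C := by change l 1 ∈ B; rwa [hl1]
  have hZ := countable_zeros hCo hCp hf h0C (by rw [hl0]; exact hi)
  set Z := {s ∈ C | h i (l s) = 0} with hZdef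
  let c : ℝ → ℝ → ℂ := fun τ σ => σ + Complex.I * (τ * (σ * (1 - σ)))
  have hc : Continuous (fun z : ℝ × ℝ => c z.1 z.2) := by fun_prop
  let T : Set ℝ := (fun s : ℂ => s.im / (s.re * (1 - s.re))) '' Z
  have hT : T.Countable := hZ.image _
  have hev : ∀ᶠ τ in 𝓝 (0:ℝ), ∀ σ ∈ Icc (0:ℝ) 1, c τ σ ∈ C := by
    apply isCompact_Icc.eventually_forall_of_forall_eventually
    intro σ hσ
    have h2 : ContinuousAt (fun z : ℝ × ℝ => c z.1 z.2) (0, σ) := hc.continuousAt
    apply h2.eventually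
    apply hCo.mem_nhds
    have h3 : c 0 σ = (σ : ℂ) := by simp [c]
    change c 0 σ ∈ C
    rw [h3]
    have := hCc h0C h1C (by linarith [hσ.2] : (0:ℝ) ≤ 1 - σ) hσ.1 (by ring)
    simpa using this
  obtain ⟨τ, hτT, hτ⟩ : ∃ τ, τ ∈ Tᶜ ∧ ∀ σ ∈ Icc (0:ℝ) 1, c τ σ ∈ C := by
    obtain ⟨τ, h1, h2⟩ := (hT.dense_compl ℝ).inter_nhds_nonempty hev
    exact ⟨τ, h1, h2⟩
  refine ⟨(fun σ => l (c τ σ)) '' Icc (0:ℝ) 1, ?_, ⟨0, by simp, by simp [c, hl0]⟩,
    ⟨1, by simp, by simp [c, hl1]⟩, ?_⟩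
  · rintro _ ⟨σ, hσ, rfl⟩
    refine ⟨hτ σ hσ, ?_⟩
    rcases eq_or_lt_of_le hσ.1 with h0 | h0
    · have : c τ σ = 0 := by simp [c, ← h0]
      simp only [this, hl0]
      exact fun hall => hi (hall i)
    rcases eq_or_lt_of_le hσ.2 with h1 | h1
    · have : c τ σ = 1 := by simp [c, h1]
      simp only [this, hl1]
      exact hy
    intro hall
    apply hτT
    refine ⟨c τ σ, ⟨hτ σ hσ, hall i⟩, ?_⟩
    have hre : (c τ σ).re = σ := by simp [c]
    have him : (c τ σ).im = τ * (σ * (1 - σ)) := by simp [c]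
    simp only [hre, him]
    have : σ * (1 - σ) ≠ 0 := by
      have : 0 < 1 - σ := by linarith
      positivity
    field_simp
  · apply isPreconnected_Icc.image
    apply Continuous.continuousOn
    exact hl.comp (hc.comp (continuous_const.prodMk continuous_id))

lemma isOpen_diff_zeros {B : Set V} (hB : IsOpen B) {k : ℕ}
    {h : Fin k → V → ℂ} (hh : ∀ i, DifferentiableOn ℂ (h i) B) :
    IsOpen {z ∈ B | ¬ ∀ i, h i z = 0} := by
  rw [isOpen_iff_mem_nhds]
  rintro z ⟨hz, hz2⟩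
  push Not at hz2
  obtain ⟨i, hi⟩ := hz2
  have h1 : ContinuousAt (h i) z := (hh i z hz).continuousWithinAt.continuousAt (hB.mem_nhds hz)
  filter_upwards [hB.mem_nhds hz, h1.eventually_ne hi] with w hw1 hw2
  exact ⟨hw1, fun hall => hw2 (hall i)⟩

/-- Extension of holomorphic functions across an analytic set of codimension at least two (local
version). -/
theorem local_ext [FiniteDimensional ℂ V] [CompleteSpace W] {c : V} {ρ : ℝ} (hρ : 0 < ρ) {k : ℕ}
    {h : Fin k → V → ℂ} (hh : ∀ i, DifferentiableOn ℂ (h i) (ball c ρ)) {u v : V}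
    (huv : LinearIndependent ℂ ![u, v])
    (hiso : ∀ᶠ z in 𝓝 c, (∀ i, h i z = 0) → (∃ s t : ℂ, z = c + s • u + t • v) → z = c)
    {H : V → W} (hH : DifferentiableOn ℂ H {z ∈ ball c ρ | ¬ ∀ i, h i z = 0}) :
    ∃ ρ' > 0, ρ' ≤ ρ ∧ ∃ F : V → W, DifferentiableOn ℂ F (ball c ρ') ∧
      ∀ z ∈ ball c ρ', (¬ ∀ i, h i z = 0) → F z = H z := by
  have hU := isOpen_diff_zeros isOpen_ball hh
  set U : Set V := {z ∈ ball c ρ | ¬ ∀ i, h i z = 0} with hUdef
  have huv2 : ∀ s t : ℂ, s • u + t • v = 0 → s = 0 ∧ t = 0 := by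
    intro s t hst
    exact LinearIndependent.pair_iff.1 huv s t hst
  -- the radius
  obtain ⟨r, hr, hrU⟩ : ∃ r > 0, ∀ s t : ℂ, ‖s‖ ≤ r → ‖t‖ ≤ r → (s ≠ 0 ∨ t ≠ 0) →
      c + s • u + t • v ∈ U := by
    have hcont : ContinuousAt (fun z : ℂ × ℂ => c + z.1 • u + z.2 • v) 0 := by fun_prop
    have h0 : (fun z : ℂ × ℂ => c + z.1 • u + z.2 • v) 0 = c := by simp
    have h1 : ∀ᶠ z in 𝓝 ((fun z : ℂ × ℂ => c + z.1 • u + z.2 • v) 0),
        ((∀ i, h i z = 0) → (∃ s t : ℂ, z = c + s • u + t • v) → z = c) ∧ z ∈ ball c ρ := by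
      rw [h0]
      exact hiso.and (ball_mem_nhds c hρ)
    obtain ⟨r, hr, hb⟩ := Metric.eventually_nhds_iff_ball.1 (hcont.eventually h1)
    refine ⟨r / 2, by linarith, fun s t hs ht hst => ?_⟩
    have hmem : ((s, t) : ℂ × ℂ) ∈ ball (0 : ℂ × ℂ) r := by
      rw [mem_ball_zero_iff, Prod.norm_def, max_lt_iff]
      constructor <;> simp only <;> linarith
    obtain ⟨h2, h3⟩ := hb _ hmem
    refine ⟨h3, fun hall => ?_⟩
    have h4 := h2 hall ⟨s, t, rfl⟩
    have h5 : s • u + t • v = 0 := by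
      have : c + (s • u + t • v) = c + 0 := by rw [← add_assoc, add_zero]; exact h4
      exact add_left_cancel this
    obtain ⟨h6, h7⟩ := huv2 s t h5
    rcases hst with h | h
    · exact h h6
    · exact h h7
  have hcirc : ∀ᶠ z in 𝓝 c, ∀ s ∈ sphere (0:ℂ) r, z + s • u ∈ U := by
    apply (isCompact_sphere (0:ℂ) r).eventually_forall_of_forall_eventually
    intro s hs
    have h2 : ContinuousAt (fun z : V × ℂ => z.1 + z.2 • u) (c, s) := by fun_prop
    apply h2.eventually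
    apply hU.mem_nhds
    rw [mem_sphere_zero_iff_norm] at hs
    have h3 := hrU s 0 hs.le (by simpa using hr.le) (Or.inl (by
      intro h0; rw [h0, norm_zero] at hs; linarith))
    simpa using h3
  obtain ⟨ρ₁, hρ₁, hb₁⟩ := Metric.eventually_nhds_iff_ball.1 hcirc
  set ρ' := min ρ₁ ρ with hρ'
  have hρ'0 : 0 < ρ' := lt_min hρ₁ hρ
  have hb : ∀ z ∈ ball c ρ', ∀ s ∈ sphere (0:ℂ) r, z + s • u ∈ U := fun z hz =>
    hb₁ z (ball_subset_ball (min_le_left _ _) hz)
  let F : V → W := fun z => (2 * Real.pi * Complex.I : ℂ)⁻¹ • ∮ s in C(0, r), s⁻¹ • H (z + s • u)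
  have hF : DifferentiableOn ℂ F (ball c ρ') := by
    intro z hz
    apply DifferentiableAt.differentiableWithinAt
    refine DifferentiableAt.const_smul (f := fun z => ∮ s in C(0, r), s⁻¹ • H (z + s • u)) ?_
      (2 * Real.pi * Complex.I : ℂ)⁻¹
    apply Osgood.differentiableAt_circleIntegral hU hH hr.le (k := fun s => s⁻¹)
      (c := fun s => s • u)
    · apply ContinuousOn.inv₀ continuousOn_id
      intro s hs h0
      rw [mem_sphere_zero_iff_norm] at hs
      simp only [id] at h0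
      rw [h0] at hs; simp at hs; linarith
    · fun_prop
    · exact hb z hz
  refine ⟨ρ', hρ'0, min_le_right _ _, F, hF, ?_⟩
  -- the identity theorem
  let _ : NormedSpace ℝ V := NormedSpace.restrictScalars ℝ ℂ V
  have hh' : ∀ i, DifferentiableOn ℂ (h i) (ball c ρ') := fun i =>
    (hh i).mono (ball_subset_ball (min_le_right _ _))
  have hpre := isPreconnected_diff_zeros isOpen_ball (convex_ball c ρ') hh'
  have hopen := isOpen_diff_zeros isOpen_ball hh'
  set U' : Set V := {z ∈ ball c ρ' | ¬ ∀ i, h i z = 0} with hU'def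
  have hU'U : U' ⊆ U := fun z hz => ⟨ball_subset_ball (min_le_right _ _) hz.1, hz.2⟩
  have ha1 := Osgood.analyticOnNhd hopen (hF.mono (fun z hz => hz.1))
  have ha2 := Osgood.analyticOnNhd hopen (hH.mono hU'U)
  -- the special point
  obtain ⟨t₁, ht₁0, ht₁r, ht₁b⟩ : ∃ t₁ : ℂ, t₁ ≠ 0 ∧ ‖t₁‖ ≤ r ∧ c + t₁ • v ∈ ball c ρ' := by
    have hcont : ContinuousAt (fun t : ℂ => c + t • v) 0 := by fun_prop
    have h1 : ∀ᶠ t in 𝓝 (0:ℂ), c + t • v ∈ ball c ρ' := by
      apply hcont.eventually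
      have h00 : (fun t : ℂ => c + t • v) 0 = c := by simp
      rw [h00]
      exact ball_mem_nhds c hρ'0
    have h2 : ∀ᶠ t in 𝓝 (0:ℂ), ‖t‖ ≤ r := by
      filter_upwards [ball_mem_nhds (0:ℂ) hr] with t ht
      rw [mem_ball_zero_iff] at ht
      exact ht.le
    obtain ⟨t, ⟨h3, h4⟩, h5⟩ := (((h1.and h2).filter_mono nhdsWithin_le_nhds).and
      (self_mem_nhdsWithin (a := (0:ℂ)) (s := {0}ᶜ))).exists
    exact ⟨t, h5, h4, h3⟩
  set z₁ := c + t₁ • v with hz₁
  have hdisc : ∀ s ∈ closedBall (0:ℂ) r, z₁ + s • u ∈ U := by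
    intro s hs
    rw [mem_closedBall_zero_iff] at hs
    have := hrU s t₁ hs ht₁r (Or.inr ht₁0)
    have h2 : z₁ + s • u = c + s • u + t₁ • v := by rw [hz₁]; abel
    rw [h2]; exact this
  have hz₁U : z₁ ∈ U' := by
    refine ⟨ht₁b, ?_⟩
    have := hdisc 0 (by simpa using hr.le)
    rw [zero_smul, add_zero] at this
    exact this.2
  have heqEv : F =ᶠ[𝓝 z₁] H := by
    have hev : ∀ᶠ z in 𝓝 z₁, ∀ s ∈ closedBall (0:ℂ) r, z + s • u ∈ U := by
      apply (isCompact_closedBall (0:ℂ) r).eventually_forall_of_forall_eventually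
      intro s hs
      have h2 : ContinuousAt (fun z : V × ℂ => z.1 + z.2 • u) (z₁, s) := by fun_prop
      exact h2.eventually (hU.mem_nhds (hdisc s hs))
    filter_upwards [hev] with z hz
    have hdc : DiffContOnCl ℂ (fun s : ℂ => H (z + s • u)) (ball 0 r) := by
      apply DifferentiableOn.diffContOnCl
      rw [closure_ball _ hr.ne']
      exact Osgood.line_differentiableOn hH hU z u hz
    have h3 := hdc.circleIntegral_sub_inv_smul (mem_ball_self hr)
    simp only [sub_zero] at h3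
    simp only [F]
    rw [h3, zero_smul, add_zero, smul_smul, inv_mul_cancel₀, one_smul]
    simp [Real.pi_ne_zero]
  have heq := ha1.eqOn_of_preconnected_of_eventuallyEq ha2 hpre hz₁U heqEv
  intro z hz hz2
  exact heq ⟨hz, hz2⟩

end Pool.Agent.Lib.MP_55bc5f_an
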