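import Mathlib

/-!
# Definitions: complex manifolds, deformations, meromorphic maps (Remmert), envelopes of holomorphy,
the meromorphic extension property (for Riemann domains over `ℂⁿ` and for Hartogs figures)
-/

set_option autoImplicit false

open scoped Manifold ContDiff Topology
open Set Filter

namespace Pool.Agent.Lib.MP_55bc5f_an

/-- A complex manifold (Hausdorff, second countable) modelled on the complex vector space `E`. -/
structure CMan (E : Type) [NormedAddCommGroup E] [NormedSpace ℂ E] where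
  carrier : Type
  [top : TopologicalSpace carrier]
  [charts : ChartedSpace E carrier]
  [mfd : IsManifold 𝓘(ℂ, E) ω carrier]
  [t2 : T2Space carrier]
  [sc : SecondCountableTopology carrier]

attribute [instance] CMan.top CMan.charts CMan.mfd CMan.t2 CMan.sc

instance {E : Type} [NormedAddCommGroup E] [NormedSpace ℂ E] : CoeSort (CMan E) Type :=
  ⟨CMan.carrier⟩

/-- A complex deformation: a complex manifold `total` (modelled on `F`) and a proper holomorphic
submersion `π` of `total` onto the unit disc, with connected fibres.  For each `t` in the disc,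
`fibre t` is a complex manifold (modelled on `E`) and `ι t` is a holomorphic embedding of `fibre t`
onto `π⁻¹(t)`, so that `fibre t` is the fibre `X_t`. -/
structure Deformation (E F : Type) [NormedAddCommGroup E] [NormedSpace ℂ E]
    [NormedAddCommGroup F] [NormedSpace ℂ F] where
  total : CMan F
  π : total → ℂ
  π_hol : MDifferentiable 𝓘(ℂ, F) 𝓘(ℂ, ℂ) π
  π_submersion : ∀ x, Function.Surjective (mfderiv 𝓘(ℂ, F) 𝓘(ℂ, ℂ) π x)
  π_range : range π = Metric.ball 0 1
  π_proper : ∀ K ⊆ Metric.ball (0 : ℂ) 1, IsCompact K → IsCompact (π ⁻¹' K)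
  fibre : Metric.ball (0 : ℂ) 1 → CMan E
  ι : ∀ t, fibre t → total
  ι_hol : ∀ t, MDifferentiable 𝓘(ℂ, E) 𝓘(ℂ, F) (ι t)
  ι_immersion : ∀ t x, Function.Injective (mfderiv 𝓘(ℂ, E) 𝓘(ℂ, F) (ι t) x)
  ι_embedding : ∀ t, Topology.IsEmbedding (ι t)
  ι_range : ∀ t, range (ι t) = π ⁻¹' {(t : ℂ)}
  fibre_compact : ∀ t, CompactSpace (fibre t)
  fibre_connected : ∀ t, ConnectedSpace (fibre t)

section

variable {V : Type} [NormedAddCommGroup V] [NormedSpace ℂ V]
variable {E : Type} [NormedAddCommGroup E] [NormedSpace ℂ E]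
variable {R : Type} [TopologicalSpace R]

/-- `(R, p)` is a (connected, Hausdorff) Riemann domain over the complex vector space `V`:
`p : R → V` is a local homeomorphism.  Its complex structure is the one for which `p` is locally
biholomorphic. -/
structure IsRiemannDomain (p : R → V) : Prop where
  connected : ConnectedSpace R
  t2 : T2Space R
  localHomeo : IsLocalHomeomorph p

/-- The function `h` on the Riemann domain `(R, p)` is holomorphic at `x`. -/
def HolFunAt (p : R → V) (h : R → ℂ) (x : R) : Prop :=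
  ∃ g : V → ℂ, (∀ᶠ z in 𝓝 (p x), DifferentiableAt ℂ g z) ∧ h =ᶠ[𝓝 x] g ∘ p

/-- The map `F` from the Riemann domain `(R, p)` to the complex manifold `Y` is holomorphic at
`x`. -/
def HolMapAt (p : R → V) (Y : CMan E) (F : R → Y) (x : R) : Prop :=
  ∃ g : V → Y, (∀ᶠ z in 𝓝 (p x), MDifferentiableAt 𝓘(ℂ, V) 𝓘(ℂ, E) g z) ∧ F =ᶠ[𝓝 x] g ∘ p

/-- `A` is an analytic subset of the Riemann domain `(R, p)`: near every point of `R` it is the
common zero set of finitely many holomorphic functions. -/
def IsAnalyticSet (p : R → V) (A : Set R) : Prop :=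
  ∀ x : R, ∃ (k : ℕ) (h : Fin k → R → ℂ), (∀ i, HolFunAt p (h i) x) ∧
    ∀ᶠ y in 𝓝 x, (y ∈ A ↔ ∀ i, h i y = 0)

/-- The analytic subset `A` has codimension at least two: for every `a ∈ A` there is a complex affine
plane through `p a` such that `a` is, near `a`, the only point of `A` over this plane. -/
def CodimGeTwo (p : R → V) (A : Set R) : Prop :=
  ∀ a ∈ A, ∃ u v : V, LinearIndependent ℂ ![u, v] ∧
    ∀ᶠ x in 𝓝 a, x ∈ A → (∃ s t : ℂ, p x = p a + s • u + t • v) → x = a

/-- `G` is an analytic subset of the product of the Riemann domain `(R, p)` with the complex manifold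
`Y`: near every point of `R × Y` it is the common zero set of finitely many holomorphic
functions. -/
def IsAnalyticRel (p : R → V) (Y : CMan E) (G : Set (R × Y)) : Prop :=
  ∀ q : R × Y, ∃ (k : ℕ) (h : Fin k → V × Y → ℂ),
    (∀ i, ∀ᶠ w in 𝓝 (p q.1, q.2),
      MDifferentiableAt (𝓘(ℂ, V).prod 𝓘(ℂ, E)) 𝓘(ℂ, ℂ) (h i) w) ∧
    ∀ᶠ w in 𝓝 q, (w ∈ G ↔ ∀ i, h i (p w.1, w.2) = 0)

/-- `G` is (the graph of) a meromorphic map, in the sense of Remmert, from the Riemann domain
`(R, p)` to the complex manifold `Y`: `G` is an analytic subset of `R × Y`, proper over `R`, which is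
the closure of the graph of a holomorphic map defined on the complement of an analytic subset of `R`
of codimension at least two. -/
structure IsMeromorphic (p : R → V) (Y : CMan E) (G : Set (R × Y)) : Prop where
  analytic : IsAnalyticRel p Y G
  proper : ∀ K : Set R, IsCompact K → IsCompact {w ∈ G | w.1 ∈ K}
  generic : ∃ (A : Set R) (g : R → Y), IsAnalyticSet p A ∧ CodimGeTwo p A ∧
    (∀ x ∉ A, HolMapAt p Y g x) ∧ G = closure {w : R × Y | w.1 ∉ A ∧ w.2 = g w.1}

variable {D : Type} [TopologicalSpace D]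

/-- `(R, p)` with `j : D → R` is an extension domain of the Riemann domain `(D, q)`: `j` is a
continuous map over `V` and every holomorphic function on `D` extends to `R`. -/
structure IsExtension (q : D → V) (p : R → V) (j : D → R) : Prop where
  domain : IsRiemannDomain p
  cont : Continuous j
  comp : ∀ x, p (j x) = q x
  extend : ∀ h : D → ℂ, (∀ x, HolFunAt q h x) →
    ∃ H : R → ℂ, (∀ y, HolFunAt p H y) ∧ ∀ x, H (j x) = h x

/-- `(R, p)` with `j : D → R` is the envelope of holomorphy of the Riemann domain `(D, q)`: it is the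
largest extension domain. -/
structure IsEnvelope (q : D → V) (p : R → V) (j : D → R) : Prop where
  ext : IsExtension q p j
  maximal : ∀ (R' : Type) [TopologicalSpace R'] (p' : R' → V) (j' : D → R'),
    IsExtension q p' j' →
      ∃ f : R' → R, Continuous f ∧ (∀ x, f (j' x) = j x) ∧ ∀ y, p (f y) = p' y

/-- `j` is onto on fundamental groups. -/
def PiOneOnto (j : D → R) : Prop :=
  ∃ hj : Continuous j, ∀ (x : D) (γ : Path (j x) (j x)),
    ∃ γ' : Path x x, (γ'.map hj).Homotopic γ

end

/-- The meromorphic extension property of `Y` for Riemann domains over `ℂⁿ` (in particular, for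
domains in `ℂⁿ`): for every Riemann domain `(D, q)` with envelope of holomorphy `(R, p)` such that
`π₁(D) → π₁(R)` is onto, every meromorphic map from `D` to `Y` extends to a meromorphic map from `R`
to `Y`. -/
def EnvelopeMEP {E : Type} [NormedAddCommGroup E] [NormedSpace ℂ E] (Y : CMan E) : Prop :=
  ∀ (V : Type) [NormedAddCommGroup V] [NormedSpace ℂ V] [FiniteDimensional ℂ V]
    (D : Type) [TopologicalSpace D] (q : D → V) (R : Type) [TopologicalSpace R] (p : R → V)
    (j : D → R), IsRiemannDomain q → IsEnvelope q p j → PiOneOnto j →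
    ∀ G : Set (D × Y), IsMeromorphic q Y G →
      ∃ G' : Set (R × Y), IsMeromorphic p Y G' ∧ ∀ (x : D) (y : Y), (j x, y) ∈ G' ↔ (x, y) ∈ G

/-- The unit polydisc `Δⁿ × Δ` of `ℂⁿ × ℂ` (all norms are maximum norms). -/
def Polydisc (n : ℕ) : Set ((Fin n → ℂ) × ℂ) := Metric.ball 0 1

/-- The Hartogs figure `{(z, w) ∈ Δⁿ × Δ : ‖z‖ < r or 1 - r < |w|}`. -/
def Hartogs (n : ℕ) (r : ℝ) : Set ((Fin n → ℂ) × ℂ) :=
  {x | x ∈ Polydisc n ∧ (‖x.1‖ < r ∨ 1 - r < ‖x.2‖)}

/-- The meromorphic extension property of `Y` for Hartogs figures: for all `n` and `0 < r < 1`, every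
meromorphic map from the Hartogs figure in `Δⁿ × Δ` to `Y` extends to a meromorphic map from the
polydisc `Δⁿ × Δ` to `Y`. -/
def HartogsMEP {E : Type} [NormedAddCommGroup E] [NormedSpace ℂ E] (Y : CMan E) : Prop :=
  ∀ (n : ℕ) (r : ℝ), 0 < r → r < 1 → ∀ G : Set (Hartogs n r × Y),
    IsMeromorphic (Subtype.val : Hartogs n r → (Fin n → ℂ) × ℂ) Y G →
      ∃ G' : Set (Polydisc n × Y),
        IsMeromorphic (Subtype.val : Polydisc n → (Fin n → ℂ) × ℂ) Y G' ∧
        ∀ (x : Hartogs n r) (y : Y), (⟨x.1, x.2.1⟩, y) ∈ G' ↔ (x, y) ∈ G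

end Pool.Agent.Lib.MP_55bc5f_an
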