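import Mathlib
import Pool.Agent.Lib.MP_55bc5f_an.Defs

/-!
# The graph of a holomorphic map is meromorphic
-/

set_option autoImplicit false

open scoped Manifold ContDiff Topology
open Set Filter

namespace Pool.Agent.Lib.MP_55bc5f_an

variable {V : Type} [NormedAddCommGroup V] [NormedSpace ℂ V]
variable {E : Type} [NormedAddCommGroup E] [NormedSpace ℂ E]
variable {R : Type} [TopologicalSpace R]

lemma HolMapAt.continuousAt {p : R → V} {Y : CMan E} {F : R → Y} {x : R}
    (hp : ContinuousAt p x) (hF : HolMapAt p Y F x) : ContinuousAt F x := by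
  obtain ⟨g, hg1, hg2⟩ := hF
  have h1 : ContinuousAt (g ∘ p) x := hg1.self_of_nhds.continuousAt.comp hp
  exact h1.congr hg2.symm

lemma HolFunAt.continuousAt {p : R → V} {F : R → ℂ} {x : R}
    (hp : ContinuousAt p x) (hF : HolFunAt p F x) : ContinuousAt F x := by
  obtain ⟨g, hg1, hg2⟩ := hF
  have h1 : ContinuousAt (g ∘ p) x := hg1.self_of_nhds.continuousAt.comp hp
  exact h1.congr hg2.symm

lemma holFunAt_const (p : R → V) (c : ℂ) (x : R) : HolFunAt p (fun _ => c) x :=
  ⟨fun _ => c, Eventually.of_forall (fun _ => differentiableAt_const c), EventuallyEq.refl _ _⟩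

lemma isAnalyticSet_empty (p : R → V) : IsAnalyticSet p (∅ : Set R) := by
  intro x
  refine ⟨1, fun _ _ => 1, fun _ => holFunAt_const p 1 x, Eventually.of_forall fun y => ?_⟩
  simp

lemma IsAnalyticSet.isClosed {p : R → V} (hp : Continuous p) {A : Set R}
    (hA : IsAnalyticSet p A) : IsClosed A := by
  rw [← isOpen_compl_iff, isOpen_iff_mem_nhds]
  intro x hx
  obtain ⟨k, h, hh, hev⟩ := hA x
  have h1 : ¬ ∀ i, h i x = 0 := fun h0 => hx (hev.self_of_nhds.2 h0)
  push Not at h1
  obtain ⟨i, hi⟩ := h1
  have h2 := ((hh i).continuousAt hp.continuousAt).eventually_ne hi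
  filter_upwards [h2, hev] with y hy1 hy2 hy3
  exact hy1 (hy2.1 hy3 i)

/-- The graph of a holomorphic map is a meromorphic map. -/
theorem isMeromorphic_graph [FiniteDimensional ℂ E] {p : R → V} (hp : Continuous p) {Y : CMan E}
    {g : R → Y} (hg : ∀ x, HolMapAt p Y g x) : IsMeromorphic p Y {w | w.2 = g w.1} := by
  have hgc : Continuous g := continuous_iff_continuousAt.2 fun x =>
    (hg x).continuousAt hp.continuousAt
  have hclosed : IsClosed {w : R × Y | w.2 = g w.1} :=
    isClosed_eq continuous_snd (hgc.comp continuous_fst)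
  refine ⟨?_, ?_, ∅, g, isAnalyticSet_empty p, by rintro a ⟨⟩, fun x _ => hg x, ?_⟩
  · rintro ⟨x, y⟩
    by_cases hy : y = g x
    · obtain ⟨g₀, hg1, hg2⟩ := hg x
      let b := Module.finBasis ℂ E
      let c := chartAt E y
      let L : Fin (Module.finrank ℂ E) → (E →L[ℂ] ℂ) := fun i =>
        LinearMap.toContinuousLinearMap (b.coord i)
      have hgx : g₀ (p x) = y := by
        rw [hy]; exact hg2.self_of_nhds.symm
      have hcont : ContinuousAt g₀ (p x) := hg1.self_of_nhds.continuousAt
      refine ⟨Module.finrank ℂ E, fun i w => L i (c w.2 - c (g₀ w.1)), ?_, ?_⟩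
      · intro i
        have e1 : ∀ᶠ w in 𝓝 ((p x, y) : V × Y), MDifferentiableAt 𝓘(ℂ, V) 𝓘(ℂ, E) g₀ w.1 :=
          continuousAt_fst.eventually hg1
        have e2 : ∀ᶠ w in 𝓝 ((p x, y) : V × Y), w.2 ∈ c.source :=
          continuousAt_snd.eventually (c.open_source.mem_nhds (mem_chart_source E y))
        have e3 : ∀ᶠ w in 𝓝 ((p x, y) : V × Y), g₀ w.1 ∈ c.source := by
          have : ContinuousAt (fun w : V × Y => g₀ w.1) (p x, y) :=
            ContinuousAt.comp (f := Prod.fst) (x := (p x, y)) hcont continuousAt_fst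
          apply this.eventually
          change ∀ᶠ z in 𝓝 (g₀ (p x)), z ∈ c.source
          rw [hgx]
          exact c.open_source.mem_nhds (mem_chart_source E y)
        filter_upwards [e1, e2, e3] with w hw1 hw2 hw3
        have d1 : MDifferentiableAt 𝓘(ℂ, E) 𝓘(ℂ, E) c w.2 :=
          mdifferentiableAt_atlas (chart_mem_atlas E y) hw2
        have d2 : MDifferentiableAt 𝓘(ℂ, E) 𝓘(ℂ, E) c (g₀ w.1) :=
          mdifferentiableAt_atlas (chart_mem_atlas E y) hw3
        have d3 : MDifferentiableAt (𝓘(ℂ, V).prod 𝓘(ℂ, E)) 𝓘(ℂ, E) (fun w : V × Y => c w.2) w :=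
          MDifferentiableAt.comp w d1 mdifferentiableAt_snd
        have d4 : MDifferentiableAt (𝓘(ℂ, V).prod 𝓘(ℂ, E)) 𝓘(ℂ, E)
            (fun w : V × Y => c (g₀ w.1)) w :=
          MDifferentiableAt.comp w d2 (MDifferentiableAt.comp w hw1 mdifferentiableAt_fst)
        have d5 : MDifferentiableAt 𝓘(ℂ, E) 𝓘(ℂ, ℂ) (L i) (c w.2 - c (g₀ w.1)) :=
          (L i).differentiableAt.mdifferentiableAt
        exact MDifferentiableAt.comp w d5 (d3.sub d4)
      · have e2 : ∀ᶠ w in 𝓝 ((x, y) : R × Y), w.2 ∈ c.source :=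
          continuousAt_snd.eventually (c.open_source.mem_nhds (mem_chart_source E y))
        have e3 : ∀ᶠ w in 𝓝 ((x, y) : R × Y), g w.1 ∈ c.source := by
          have : ContinuousAt (fun w : R × Y => g w.1) (x, y) :=
            (hgc.comp continuous_fst).continuousAt
          apply this.eventually
          change ∀ᶠ z in 𝓝 (g x), z ∈ c.source
          rw [← hy]
          exact c.open_source.mem_nhds (mem_chart_source E y)
        have e4 : ∀ᶠ w in 𝓝 ((x, y) : R × Y), g w.1 = g₀ (p w.1) := by
          have hg3 : ∀ᶠ z in 𝓝 x, g z = g₀ (p z) := hg2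
          have : ContinuousAt (fun w : R × Y => w.1) (x, y) := continuousAt_fst
          exact this.eventually hg3
        filter_upwards [e2, e3, e4] with w hw2 hw3 hw4
        constructor
        · intro hw i
          have : w.2 = g w.1 := hw
          change L i (c w.2 - c (g₀ (p w.1))) = 0
          rw [this, hw4, sub_self, map_zero]
        · intro hw
          change w.2 = g w.1
          apply c.injOn hw2 hw3
          rw [← sub_eq_zero]
          apply b.ext_elem
          intro i
          rw [map_zero, Finsupp.zero_apply]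
          have := hw i
          rw [← hw4] at this
          exact this
    · refine ⟨1, fun _ _ => 1, fun _ => Eventually.of_forall fun _ => mdifferentiableAt_const, ?_⟩
      have : ∀ᶠ w in 𝓝 ((x, y) : R × Y), w ∉ {w : R × Y | w.2 = g w.1} :=
        hclosed.isOpen_compl.mem_nhds hy
      filter_upwards [this] with w hw
      simp only [one_ne_zero, forall_const, iff_false]
      exact hw
  · intro K hK
    have : {w ∈ {w : R × Y | w.2 = g w.1} | w.1 ∈ K} = (fun x => (x, g x)) '' K := by
      ext ⟨a, b⟩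
      constructor
      · rintro ⟨h1, h2⟩
        exact ⟨a, h2, Prod.ext rfl (Eq.symm h1)⟩
      · rintro ⟨x, hx, h⟩
        obtain ⟨rfl, rfl⟩ := Prod.mk.inj h
        exact ⟨rfl, hx⟩
    rw [this]
    exact hK.image (continuous_id.prodMk hgc)
  · have : {w : R × Y | w.1 ∉ (∅ : Set R) ∧ w.2 = g w.1} = {w : R × Y | w.2 = g w.1} := by
      ext w; simp
    rw [this, hclosed.closure_eq]

end Pool.Agent.Lib.MP_55bc5f_an
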