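import Mathlib
import Pool.Agent.Lib.Osgood
import Pool.Agent.Lib.MP_55bc5f_an.Graph

/-!
# Calculus on Riemann domains
-/

set_option autoImplicit false
set_option linter.unusedSectionVars false

open scoped Manifold ContDiff Topology
open Set Filter Metric

namespace Pool.Agent.Lib.MP_55bc5f_an

variable {V : Type} [NormedAddCommGroup V] [NormedSpace ℂ V]
variable {W : Type} [NormedAddCommGroup W] [NormedSpace ℂ W]
variable {R : Type} [TopologicalSpace R]

/-- `F` has derivative `L` at `y`. -/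
def HasRD (p : R → V) (F : R → W) (L : V →L[ℂ] W) (y : R) : Prop :=
  ∃ g : V → W, HasFDerivAt g L (p y) ∧ F =ᶠ[𝓝 y] g ∘ p

/-- Vector valued holomorphic maps. -/
def HolAt (p : R → V) (F : R → W) (y : R) : Prop :=
  ∃ g : V → W, (∀ᶠ z in 𝓝 (p y), DifferentiableAt ℂ g z) ∧ F =ᶠ[𝓝 y] g ∘ p

lemma holAt_iff_holFunAt {p : R → V} {F : R → ℂ} {y : R} : HolAt p F y ↔ HolFunAt p F y := Iff.rfl

lemma HolAt.eventually {p : R → V} (hp : Continuous p) {F : R → W} {y : R} (h : HolAt p F y) :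
    ∀ᶠ y' in 𝓝 y, HolAt p F y' := by
  obtain ⟨g, h1, h2⟩ := h
  have h3 := hp.continuousAt.eventually h1.eventually_nhds
  filter_upwards [h3, h2.eventually_nhds] with y' h4 h5
  exact ⟨g, h4, h5⟩

lemma HolAt.continuousAt {p : R → V} {F : R → W} {x : R}
    (hp : ContinuousAt p x) (hF : HolAt p F x) : ContinuousAt F x := by
  obtain ⟨g, hg1, hg2⟩ := hF
  have h1 : ContinuousAt (g ∘ p) x := hg1.self_of_nhds.continuousAt.comp hp
  exact h1.congr hg2.symm

lemma HolAt.congr {p : R → V} {F G : R → W} {x : R}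
    (hF : HolAt p F x) (h : F =ᶠ[𝓝 x] G) : HolAt p G x := by
  obtain ⟨g, hg1, hg2⟩ := hF
  exact ⟨g, hg1, h.symm.trans hg2⟩

lemma HolAt.comp_clm {W' : Type} [NormedAddCommGroup W'] [NormedSpace ℂ W'] {p : R → V} {F : R → W}
    {x : R} (hF : HolAt p F x) (L : W →L[ℂ] W') : HolAt p (fun y => L (F y)) x := by
  obtain ⟨g, hg1, hg2⟩ := hF
  refine ⟨fun z => L (g z), ?_, ?_⟩
  · filter_upwards [hg1] with z hz
    exact L.differentiableAt.comp z hz
  · filter_upwards [hg2] with z hz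
    simp [hz]

lemma HasRD.congr {p : R → V} {F G : R → W} {L : V →L[ℂ] W} {x : R}
    (hF : HasRD p F L x) (h : F =ᶠ[𝓝 x] G) : HasRD p G L x := by
  obtain ⟨g, hg1, hg2⟩ := hF
  exact ⟨g, hg1, h.symm.trans hg2⟩

lemma HasRD.unique {p : R → V} (hp : IsLocalHomeomorph p) {F : R → W} {L L' : V →L[ℂ] W} {x : R}
    (h : HasRD p F L x) (h' : HasRD p F L' x) : L = L' := by
  obtain ⟨g, hg1, hg2⟩ := h
  obtain ⟨g', hg1', hg2'⟩ := h'
  have h1 : g ∘ p =ᶠ[𝓝 x] g' ∘ p := hg2.symm.trans hg2'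
  have h2 : g =ᶠ[𝓝 (p x)] g' := by
    rw [← hp.map_nhds_eq x]
    exact h1
  exact hg1.unique (hg1'.congr_of_eventuallyEq h2)

lemma HasRD.const (p : R → V) (c : W) (x : R) : HasRD p (fun _ => c) 0 x :=
  ⟨fun _ => c, hasFDerivAt_const c _, EventuallyEq.refl _ _⟩

lemma HasRD.add {p : R → V} {F G : R → W} {L M : V →L[ℂ] W} {x : R}
    (hF : HasRD p F L x) (hG : HasRD p G M x) : HasRD p (fun y => F y + G y) (L + M) x := by
  obtain ⟨f, hf1, hf2⟩ := hF
  obtain ⟨g, hg1, hg2⟩ := hG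
  exact ⟨fun z => f z + g z, hf1.add hg1, by
    filter_upwards [hf2, hg2] with y h1 h2
    simp [h1, h2]⟩

lemma HasRD.sub {p : R → V} {F G : R → W} {L M : V →L[ℂ] W} {x : R}
    (hF : HasRD p F L x) (hG : HasRD p G M x) : HasRD p (fun y => F y - G y) (L - M) x := by
  obtain ⟨f, hf1, hf2⟩ := hF
  obtain ⟨g, hg1, hg2⟩ := hG
  exact ⟨fun z => f z - g z, hf1.sub hg1, by
    filter_upwards [hf2, hg2] with y h1 h2
    simp [h1, h2]⟩

lemma HasRD.mul {p : R → V} {F G : R → ℂ} {L M : V →L[ℂ] ℂ} {x : R}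
    (hF : HasRD p F L x) (hG : HasRD p G M x) :
    HasRD p (fun y => F y * G y) (F x • M + G x • L) x := by
  obtain ⟨f, hf1, hf2⟩ := hF
  obtain ⟨g, hg1, hg2⟩ := hG
  refine ⟨fun z => f z * g z, ?_, by
    filter_upwards [hf2, hg2] with y h1 h2
    simp [h1, h2]⟩
  rw [hf2.self_of_nhds, hg2.self_of_nhds]
  exact hf1.mul hg1

lemma HasRD.inv {p : R → V} {F : R → ℂ} {L : V →L[ℂ] ℂ} {x : R}
    (hF : HasRD p F L x) (h0 : F x ≠ 0) :
    HasRD p (fun y => (F y)⁻¹) ((-(F x ^ 2)⁻¹) • L) x := by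
  obtain ⟨f, hf1, hf2⟩ := hF
  have hx : F x = f (p x) := hf2.self_of_nhds
  refine ⟨fun z => (f z)⁻¹, ?_, by
    filter_upwards [hf2] with y h1
    simp [h1]⟩
  rw [hx] at h0 ⊢
  exact (hasDerivAt_inv h0).comp_hasFDerivAt _ hf1

lemma HasRD.comp {V' : Type} [NormedAddCommGroup V'] [NormedSpace ℂ V'] {p : R → V} {F : R → W}
    {L : V →L[ℂ] W} {D : Type} [TopologicalSpace D] {q : D → V} {j : D → R} (hj : Continuous j)
    (hpj : ∀ x, p (j x) = q x) {x : D} (hF : HasRD p F L (j x)) : HasRD q (F ∘ j) L x := by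
  obtain ⟨f, hf1, hf2⟩ := hF
  rw [hpj] at hf1
  refine ⟨f, hf1, ?_⟩
  filter_upwards [hj.continuousAt.eventually hf2] with y hy
  simp only [Function.comp_apply] at hy ⊢
  rw [hy, hpj]

lemma HolAt.comp {p : R → V} {F : R → W}
    {D : Type} [TopologicalSpace D] {q : D → V} {j : D → R} (hj : Continuous j)
    (hpj : ∀ x, p (j x) = q x) {x : D} (hF : HolAt p F (j x)) : HolAt q (F ∘ j) x := by
  obtain ⟨f, hf1, hf2⟩ := hF
  rw [hpj] at hf1
  refine ⟨f, hf1, ?_⟩
  filter_upwards [hj.continuousAt.eventually hf2] with y hy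
  simp only [Function.comp_apply] at hy ⊢
  rw [hy, hpj]

section chart

variable {p : R → V} (hp : IsLocalHomeomorph p)

/-- The local inverse of `p` at `y`. -/
noncomputable def ch (y : R) : OpenPartialHomeomorph V R := hp.localInverseAt y

lemma ch_symm (y : R) : ((ch hp y).symm : R → V) = p := hp.localInverseAt_symm y

lemma ch_mem (y : R) : p y ∈ (ch hp y).source := hp.apply_self_mem_localInverseAt_source

lemma ch_mem' (y : R) : y ∈ (ch hp y).target := hp.self_mem_localInverseAt_target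

lemma ch_self (y : R) : ch hp y (p y) = y := hp.localInverseAt_apply_self

lemma p_ch {y : R} {z : V} (hz : z ∈ (ch hp y).source) : p (ch hp y z) = z :=
  hp.apply_localInverseAt_of_mem hz

lemma ch_p {y y' : R} (hy : y' ∈ (ch hp y).target) : ch hp y (p y') = y' := by
  have := (ch hp y).right_inv hy
  rwa [ch_symm] at this

lemma ch_tendsto (y : R) : Tendsto (ch hp y) (𝓝 (p y)) (𝓝 y) := by
  have := (ch hp y).continuousAt (ch_mem hp y)
  rwa [ContinuousAt, ch_self] at this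

lemma ch_continuousAt {y : R} {z : V} (hz : z ∈ (ch hp y).source) :
    ContinuousAt (ch hp y) z := (ch hp y).continuousAt hz

lemma p_ch_eventually (y : R) : ∀ᶠ z in 𝓝 (p y), p (ch hp y z) = z := by
  filter_upwards [(ch hp y).open_source.mem_nhds (ch_mem hp y)] with z hz
  exact p_ch hp hz

lemma ch_p_eventually (y : R) : ∀ᶠ y' in 𝓝 y, ch hp y (p y') = y' := by
  filter_upwards [(ch hp y).open_target.mem_nhds (ch_mem' hp y)] with z hz
  exact ch_p hp hz

/-- Representation of a germ in the chart at a nearby point. -/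
lemma comp_ch_eq {α : Type*} {F : R → α} {g : V → α} {y : R} {z : V} (hz : z ∈ (ch hp y).source)
    (h : F =ᶠ[𝓝 (ch hp y z)] g ∘ p) : F ∘ ch hp y =ᶠ[𝓝 z] g := by
  have h1 := (ch_continuousAt hp hz).eventually h
  filter_upwards [h1, (ch hp y).open_source.mem_nhds hz] with w h2 h3
  simp only [Function.comp_apply] at h2 ⊢
  rw [h2, p_ch hp h3]

lemma HasRD.ch {F : R → W} {L : V →L[ℂ] W} {y : R} {z : V} (hz : z ∈ (ch hp y).source)
    (h : HasRD p F L (ch hp y z)) : HasFDerivAt (F ∘ ch hp y) L z := by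
  obtain ⟨g, hg1, hg2⟩ := h
  rw [p_ch hp hz] at hg1
  exact hg1.congr_of_eventuallyEq (comp_ch_eq hp hz hg2)

lemma HolAt.ch {F : R → W} {y : R} {z : V} (hz : z ∈ (ch hp y).source)
    (h : HolAt p F (ch hp y z)) : ∀ᶠ z' in 𝓝 z, DifferentiableAt ℂ (F ∘ ch hp y) z' := by
  obtain ⟨g, hg1, hg2⟩ := h
  rw [p_ch hp hz] at hg1
  filter_upwards [hg1, (comp_ch_eq hp hz hg2).eventually_nhds] with z' h1 h2
  exact h1.congr_of_eventuallyEq h2

lemma HolAt.ch_self {F : R → W} {y : R} (h : HolAt p F y) :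
    ∀ᶠ z' in 𝓝 (p y), DifferentiableAt ℂ (F ∘ MP_55bc5f_an.ch hp y) z' := by
  apply HolAt.ch hp (ch_mem hp y)
  rwa [MP_55bc5f_an.ch_self]

lemma eventually_ch {P : R → Prop} {y : R} (h : ∀ᶠ y' in 𝓝 y, P y') :
    ∀ᶠ z in 𝓝 (p y), P (ch hp y z) := (ch_tendsto hp y).eventually h

lemma eventually_of_ch {P : R → Prop} {y : R} (h : ∀ᶠ z in 𝓝 (p y), P (ch hp y z)) :
    ∀ᶠ y' in 𝓝 y, P y' := by
  have h1 := hp.continuous.continuousAt.eventually h
  filter_upwards [h1, ch_p_eventually hp y] with y' h2 h3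
  rwa [h3] at h2

lemma eq_comp_ch {α : Type*} (F : R → α) (y : R) : F =ᶠ[𝓝 y] (F ∘ ch hp y) ∘ p := by
  filter_upwards [ch_p_eventually hp y] with y' h3
  simp [h3]

/-- The derivative. -/
noncomputable def rd (F : R → W) (y : R) : V →L[ℂ] W := fderiv ℂ (F ∘ ch hp y) (p y)

lemma HolAt.hasRD {F : R → W} {y : R} (h : HolAt p F y) : HasRD p F (rd hp F y) y :=
  ⟨F ∘ MP_55bc5f_an.ch hp y, (h.ch_self hp).self_of_nhds.hasFDerivAt, eq_comp_ch hp F y⟩

lemma HasRD.rd_eq {F : R → W} {L : V →L[ℂ] W} {y : R} (h : HasRD p F L y) : rd hp F y = L := by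
  have h1 : HasFDerivAt (F ∘ MP_55bc5f_an.ch hp y) L (p y) := by
    apply HasRD.ch hp (ch_mem hp y)
    rwa [MP_55bc5f_an.ch_self]
  exact h1.fderiv

lemma HolAt.rd [FiniteDimensional ℂ V] [CompleteSpace W] {F : R → W} {y : R}
    (h : HolAt p F y) : HolAt p (rd hp F) y := by
  obtain ⟨g, hg1, hg2⟩ := h
  refine ⟨fderiv ℂ g, ?_, ?_⟩
  · obtain ⟨ρ, hρ, hb⟩ := Metric.eventually_nhds_iff_ball.1 hg1
    have h1 := Osgood.differentiableOn_fderiv isOpen_ball
      (fun z hz => (hb z hz).differentiableWithinAt)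
    filter_upwards [ball_mem_nhds (p y) hρ] with z hz
    exact (h1 z hz).differentiableAt (isOpen_ball.mem_nhds hz)
  · filter_upwards [hp.continuous.continuousAt.eventually hg1, hg2.eventually_nhds] with y' h1 h2
    exact HasRD.rd_eq hp ⟨g, h1.hasFDerivAt, h2⟩

include hp in
/-- A function with zero derivative is locally constant. -/
lemma eventually_eq_of_hasRD_zero {F : R → W} {y : R} (h : ∀ᶠ y' in 𝓝 y, HasRD p F 0 y') :
    ∀ᶠ y' in 𝓝 y, F y' = F y := by
  have h1 := eventually_ch hp h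
  obtain ⟨ρ, hρ, hb⟩ := Metric.eventually_nhds_iff_ball.1
    (h1.and ((ch hp y).open_source.mem_nhds (ch_mem hp y)))
  apply eventually_of_ch hp
  filter_upwards [ball_mem_nhds (p y) hρ] with z hz
  let _ : NormedSpace ℝ V := NormedSpace.restrictScalars ℝ ℂ V
  have h2 : ∀ z ∈ ball (p y) ρ, HasFDerivAt (F ∘ ch hp y) (0 : V →L[ℂ] W) z := fun z hz =>
    HasRD.ch hp (hb z hz).2 (hb z hz).1
  have h3 : (F ∘ ch hp y) z = (F ∘ ch hp y) (p y) := by
    apply (convex_ball (p y) ρ).is_const_of_fderivWithin_eq_zero (𝕜 := ℂ) (E := V) (G := W)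
      (f := F ∘ ch hp y)
    · intro w hw
      exact (h2 w hw).differentiableAt.differentiableWithinAt
    · intro w hw
      rw [fderivWithin_of_isOpen isOpen_ball hw, (h2 w hw).fderiv]
    · exact hz
    · exact mem_ball_self hρ
  simp only [Function.comp_apply] at h3
  rw [h3, ch_self]

include hp in
/-- Identity theorem. -/
theorem identity [FiniteDimensional ℂ V] [CompleteSpace W] [PreconnectedSpace R] {F G : R → W}
    (hF : ∀ y, HolAt p F y) (hG : ∀ y, HolAt p G y) {y₀ : R} (h : F =ᶠ[𝓝 y₀] G) : F = G := by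
  let S : Set R := {y | F =ᶠ[𝓝 y] G}
  have hSo : IsOpen S := isOpen_setOfPred_eventually_nhds
  have hSc : IsClosed S := by
    rw [← closure_subset_iff_isClosed]
    intro y hy
    obtain ⟨ρ, hρ, hb⟩ := Metric.eventually_nhds_iff_ball.1
      ((((hF y).ch_self hp).and ((hG y).ch_self hp)).and
        ((ch hp y).open_source.mem_nhds (ch_mem hp y)))
    have hN : (ch hp y) '' ball (p y) ρ ∈ 𝓝 y := by
      apply ((ch hp y).isOpen_image_of_subset_source isOpen_ball (fun z hz => (hb z hz).2)).mem_nhds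
      exact ⟨p y, mem_ball_self hρ, ch_self hp y⟩
    obtain ⟨_, ⟨z₁, hz₁, rfl⟩, hy₁S⟩ := mem_closure_iff_nhds.1 hy _ hN
    have ha1 := Osgood.analyticOnNhd (f := F ∘ ch hp y) (isOpen_ball (x := p y) (ε := ρ))
      (fun z hz => (hb z hz).1.1.differentiableWithinAt)
    have ha2 := Osgood.analyticOnNhd (f := G ∘ ch hp y) (isOpen_ball (x := p y) (ε := ρ))
      (fun z hz => (hb z hz).1.2.differentiableWithinAt)
    have hev : F ∘ ch hp y =ᶠ[𝓝 z₁] G ∘ ch hp y :=
      (ch_continuousAt hp (hb z₁ hz₁).2).eventually hy₁S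
    let _ : NormedSpace ℝ V := NormedSpace.restrictScalars ℝ ℂ V
    have heq := ha1.eqOn_of_preconnected_of_eventuallyEq ha2 (convex_ball (p y) ρ).isPreconnected
      hz₁ hev
    change ∀ᶠ y' in 𝓝 y, F y' = G y'
    filter_upwards [hN]
    rintro _ ⟨z, hz, rfl⟩
    exact heq hz
  have huniv : S = univ := IsClopen.eq_univ ⟨hSc, hSo⟩ ⟨y₀, h⟩
  funext y
  have : y ∈ S := by rw [huniv]; trivial
  exact (show F =ᶠ[𝓝 y] G from this).self_of_nhds

end chart

end Pool.Agent.Lib.MP_55bc5f_an
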