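import Mathlib
import Pool.Agent.Lib.MP_55bc5f_an.RDeriv
import Pool.Agent.Lib.MP_55bc5f_an.Codim

/-!
# Extension across analytic subsets of codimension at least two of a Riemann domain
-/

set_option autoImplicit false

open scoped Topology
open Set Filter Metric

namespace Pool.Agent.Lib.MP_55bc5f_an

variable {V : Type} [NormedAddCommGroup V] [NormedSpace ℂ V]
variable {W : Type} [NormedAddCommGroup W] [NormedSpace ℂ W]
variable {D : Type} [TopologicalSpace D]

lemma local_data {q : D → V} (hq : IsLocalHomeomorph q) {A : Set D} (hA : IsAnalyticSet q A)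
    (a : D) : ∃ (k : ℕ) (h : Fin k → V → ℂ) (ρ : ℝ), 0 < ρ ∧
      (∀ i, DifferentiableOn ℂ (h i) (ball (q a) ρ)) ∧
      ball (q a) ρ ⊆ (ch hq a).source ∧ ∀ z ∈ ball (q a) ρ, (ch hq a z ∈ A ↔ ∀ i, h i z = 0) := by
  obtain ⟨k, h, hh, hev⟩ := hA a
  have h1 : ∀ᶠ z in 𝓝 (q a), ∀ i, DifferentiableAt ℂ (h i ∘ ch hq a) z := by
    rw [eventually_all]
    intro i
    exact HolAt.ch_self hq (holAt_iff_holFunAt.2 (hh i))
  have h2 := eventually_ch hq hev
  have h3 : ∀ᶠ z in 𝓝 (q a), z ∈ (ch hq a).source := (ch hq a).open_source.mem_nhds (ch_mem hq a)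
  obtain ⟨ρ, hρ, hb⟩ := Metric.eventually_nhds_iff_ball.1 ((h1.and h2).and h3)
  exact ⟨k, fun i => h i ∘ ch hq a, ρ, hρ, fun i z hz => ((hb z hz).1.1 i).differentiableWithinAt,
    fun z hz => (hb z hz).2, fun z hz => (hb z hz).1.2⟩

lemma isOpen_ch_image {q : D → V} (hq : IsLocalHomeomorph q) {a : D} {B : Set V} (hB : IsOpen B)
    (hBs : B ⊆ (ch hq a).source) : IsOpen (ch hq a '' B) :=
  (ch hq a).isOpen_image_of_subset_source hB hBs

/-- Small neighbourhoods with connected complement of `A`. -/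
lemma exists_nhd_preconnected {q : D → V} (hq : IsLocalHomeomorph q) {A : Set D}
    (hA : IsAnalyticSet q A) (a : D) {S : Set D} (hS : S ∈ 𝓝 a) :
    ∃ N ⊆ S, IsOpen N ∧ a ∈ N ∧ IsPreconnected (N \ A) := by
  obtain ⟨k, h, ρ, hρ, hh, hsrc, hiff⟩ := local_data hq hA a
  obtain ⟨ρ', hρ', hb⟩ := Metric.eventually_nhds_iff_ball.1 (eventually_ch hq hS)
  set r := min ρ ρ' with hr
  have hr0 : 0 < r := lt_min hρ hρ'
  have hsub : ball (q a) r ⊆ ball (q a) ρ := ball_subset_ball (min_le_left _ _)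
  let _ : NormedSpace ℝ V := NormedSpace.restrictScalars ℝ ℂ V
  have hpre := isPreconnected_diff_zeros isOpen_ball (convex_ball (q a) r)
    (fun i => (hh i).mono hsub)
  refine ⟨ch hq a '' ball (q a) r, ?_, isOpen_ch_image hq isOpen_ball (hsub.trans hsrc),
    ⟨q a, mem_ball_self hr0, ch_self hq a⟩, ?_⟩
  · rintro _ ⟨z, hz, rfl⟩
    exact hb z (ball_subset_ball (min_le_right _ _) hz)
  · have : (ch hq a '' ball (q a) r) \ A =
        ch hq a '' {z ∈ ball (q a) r | ¬ ∀ i, h i z = 0} := by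
      ext x
      constructor
      · rintro ⟨⟨z, hz, rfl⟩, hzA⟩
        exact ⟨z, ⟨hz, fun hall => hzA ((hiff z (hsub hz)).2 hall)⟩, rfl⟩
      · rintro ⟨z, ⟨hz, hz2⟩, rfl⟩
        exact ⟨⟨z, hz, rfl⟩, fun hzA => hz2 ((hiff z (hsub hz)).1 hzA)⟩
    rw [this]
    apply hpre.image
    intro z hz
    exact ((ch hq a).continuousAt (hsrc (hsub hz.1))).continuousWithinAt

lemma mem_closure_compl {q : D → V} (hq : IsLocalHomeomorph q) {A : Set D}
    (hcodim : CodimGeTwo q A) (a : D) : a ∈ closure Aᶜ := by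
  by_cases ha : a ∈ A
  · by_contra hcon
    have h1 : ∀ᶠ x in 𝓝 a, x ∈ A := by
      rw [mem_closure_iff_frequently, not_frequently] at hcon
      filter_upwards [hcon] with x hx
      simpa using hx
    obtain ⟨u, v, huv, hev⟩ := hcodim a ha
    have h2 : ∀ᶠ z in 𝓝 (q a), (∃ s t : ℂ, z = q a + s • u + t • v) → z = q a := by
      filter_upwards [eventually_ch hq (h1.and hev), p_ch_eventually hq a] with z hz1 hz2
      rintro ⟨s, t, hst⟩
      have := hz1.2 hz1.1 ⟨s, t, by rw [hz2]; exact hst⟩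
      rw [← hz2, this]
    have hcont : ContinuousAt (fun s : ℂ => q a + s • u) 0 := by fun_prop
    have h3 : ∀ᶠ s in 𝓝 (0:ℂ), q a + s • u = q a := by
      have h4 : ∀ᶠ z in 𝓝 ((fun s : ℂ => q a + s • u) 0),
          (∃ s t : ℂ, z = q a + s • u + t • v) → z = q a := by
        simpa using h2
      filter_upwards [hcont.eventually h4] with s hs
      exact hs ⟨s, 0, by simp⟩
    have hu : u ≠ 0 := huv.ne_zero (0 : Fin 2)
    have h5 : ∀ᶠ s in 𝓝[≠] (0:ℂ), q a + s • u = q a := h3.filter_mono nhdsWithin_le_nhds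
    obtain ⟨s, hs1, hs2⟩ := (h5.and self_mem_nhdsWithin).exists
    have h6 : s • u = 0 := by simpa using hs1
    rcases smul_eq_zero.1 h6 with h | h
    · exact hs2 h
    · exact hu h
  · exact subset_closure ha

/-- Extension of holomorphic maps across an analytic subset of codimension at least two. -/
theorem ext_across [FiniteDimensional ℂ V] [CompleteSpace W] {q : D → V}
    (hq : IsLocalHomeomorph q) {A : Set D} (hA : IsAnalyticSet q A) (hcodim : CodimGeTwo q A)
    {H : D → W} (hH : ∀ x ∉ A, HolAt q H x) :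
    ∃ H' : D → W, (∀ x, HolAt q H' x) ∧ ∀ x ∉ A, H' x = H x := by
  have hAc : IsClosed A := hA.isClosed hq.continuous
  have hout : ∀ x ∉ A, extendFrom Aᶜ H x = H x := by
    intro x hx
    apply extendFrom_eq (mem_closure_compl hq hcodim x)
    exact ((hH x hx).continuousAt hq.continuous.continuousAt).tendsto.mono_left nhdsWithin_le_nhds
  refine ⟨extendFrom Aᶜ H, ?_, hout⟩
  intro a
  by_cases ha : a ∈ A
  · obtain ⟨k, h, ρ, hρ, hh, hsrc, hiff⟩ := local_data hq hA a
    obtain ⟨u, v, huv, hev⟩ := hcodim a ha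
    have hiso : ∀ᶠ z in 𝓝 (q a), (∀ i, h i z = 0) → (∃ s t : ℂ, z = q a + s • u + t • v) →
        z = q a := by
      filter_upwards [eventually_ch hq hev, p_ch_eventually hq a, ball_mem_nhds (q a) hρ]
        with z hz1 hz2 hz3 hz4
      rintro ⟨s, t, hst⟩
      have := hz1 ((hiff z hz3).2 hz4) ⟨s, t, by rw [hz2]; exact hst⟩
      rw [← hz2, this]
    have hHd : DifferentiableOn ℂ (H ∘ ch hq a) {z ∈ ball (q a) ρ | ¬ ∀ i, h i z = 0} := by
      rintro z ⟨hz, hz2⟩
      have h1 : ch hq a z ∉ A := fun h0 => hz2 ((hiff z hz).1 h0)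
      exact (HolAt.ch hq (hsrc hz) (hH _ h1)).self_of_nhds.differentiableWithinAt
    obtain ⟨ρ', hρ', hρ'ρ, F, hF, hFH⟩ := local_ext hρ hh huv hiso hHd
    have hFd : ∀ z ∈ ball (q a) ρ', DifferentiableAt ℂ F z := fun z hz =>
      (hF z hz).differentiableAt (isOpen_ball.mem_nhds hz)
    -- on the image of the ball, `H = F ∘ q` off `A`
    have hN : ∀ x ∈ ch hq a '' ball (q a) ρ', q x ∈ ball (q a) ρ' ∧ (x ∉ A → H x = F (q x)) := by
      rintro _ ⟨z, hz, rfl⟩
      have hzρ : z ∈ ball (q a) ρ := ball_subset_ball hρ'ρ hz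
      rw [p_ch hq (hsrc hzρ)]
      refine ⟨hz, fun hxA => ?_⟩
      exact (hFH z hz (fun hall => hxA ((hiff z hzρ).2 hall))).symm
    have hNo : IsOpen (ch hq a '' ball (q a) ρ') :=
      isOpen_ch_image hq isOpen_ball ((ball_subset_ball hρ'ρ).trans hsrc)
    have haN : a ∈ ch hq a '' ball (q a) ρ' := ⟨q a, mem_ball_self hρ', ch_self hq a⟩
    refine ⟨F, ?_, ?_⟩
    · filter_upwards [ball_mem_nhds (q a) hρ'] with z hz
      exact hFd z hz
    · filter_upwards [hNo.mem_nhds haN] with x hx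
      apply extendFrom_eq (mem_closure_compl hq hcodim x)
      have hc : ContinuousAt (F ∘ q) x :=
        (hFd _ (hN x hx).1).continuousAt.comp hq.continuous.continuousAt
      have h1 : Tendsto (F ∘ q) (𝓝[Aᶜ] x) (𝓝 ((F ∘ q) x)) :=
        hc.tendsto.mono_left nhdsWithin_le_nhds
      refine h1.congr' ?_
      filter_upwards [nhdsWithin_le_nhds (hNo.mem_nhds hx), self_mem_nhdsWithin] with y hy hyA
      exact ((hN y hy).2 hyA).symm
  · apply (hH a ha).congr
    filter_upwards [hAc.isOpen_compl.mem_nhds ha] with x hx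
    exact (hout x hx).symm

end Pool.Agent.Lib.MP_55bc5f_an
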