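import Mathlib
import Pool.Agent.Lib.MP_55bc5f_an.Defs

/-!
# Extension of sections of a local system along a map which is onto on fundamental groups
-/

set_option autoImplicit false

open scoped Topology
open Set Filter

namespace Pool.Agent.Lib.MP_55bc5f_an

variable {R D : Type} [TopologicalSpace R] [TopologicalSpace D]

/-- If a path lifts through `σ`, the range condition of the lifting criterion holds. -/
lemma range_le {E : Type} [TopologicalSpace E] {pr : E → R} (hpr : Continuous pr) {j : D → R}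
    (hj : PiOneOnto j) {σ : D → E} (hσ : Continuous σ) (hprσ : ∀ x, pr (σ x) = j x) (x₀ : D) :
    (FundamentalGroup.map (ContinuousMap.id R) (j x₀)).range ≤
      (FundamentalGroup.mapOfEq (⟨pr, hpr⟩ : C(E, R)) (x := σ x₀) (y := j x₀) (hprσ x₀)).range := by
  obtain ⟨hjc, hj⟩ := hj
  rintro _ ⟨β, rfl⟩
  induction β using Path.Homotopic.Quotient.ind with
  | mk γ =>
    obtain ⟨γ', hγ'⟩ := hj x₀ γ
    refine ⟨FundamentalGroup.fromPath (.mk (γ'.map hσ)), ?_⟩
    rw [FundamentalGroup.mapOfEq_apply]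
    have key : (Path.Homotopic.Quotient.mk ((γ'.map hσ).map hpr)).cast (hprσ x₀).symm
        (hprσ x₀).symm = Path.Homotopic.Quotient.mk (show Path (j x₀) (j x₀) from γ) := by
      rw [← Path.Homotopic.Quotient.mk_cast, Path.Homotopic.Quotient.eq]
      convert hγ' using 1
      ext t
      exact hprσ (γ' t)
    exact key

section glue

variable {G Y : Type} [Group G]

/-- A type with the discrete topology. -/
structure Disc (Y : Type) where
  val : Y

instance (Y : Type) : TopologicalSpace (Disc Y) := ⊥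
instance (Y : Type) : DiscreteTopology (Disc Y) := ⟨rfl⟩

/-- The local system as a fibre bundle with discrete fibre. -/
noncomputable def core (ac : Y → G → Y) (hac : ∀ y a b, ac (ac y a) b = ac y (a * b))
    (hac1 : ∀ y, ac y 1 = y) (N : R → Set R) (hN : ∀ i, IsOpen (N i)) (hN' : ∀ i, i ∈ N i)
    (w : R → R → G)
    (hw : ∀ i k, ∀ y ∈ N i ∩ N k, ∀ᶠ y' in 𝓝 y, w i y' * (w k y')⁻¹ = w i y * (w k y)⁻¹) :
    FiberBundleCore R R (Disc Y) where
  baseSet := N
  isOpen_baseSet := hN
  indexAt := id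
  mem_baseSet_at := hN'
  coordChange i k y ζ := ⟨ac ζ.val (w i y * (w k y)⁻¹)⟩
  coordChange_self i x _ v := by
    simp only [mul_inv_cancel, hac1]
  continuousOn_coordChange i k := by
    rintro ⟨y, ζ⟩ ⟨hy, -⟩
    apply ContinuousAt.continuousWithinAt
    have h1 : ∀ᶠ z : R × Disc Y in 𝓝 (y, ζ), (⟨ac z.2.val (w i z.1 * (w k z.1)⁻¹)⟩ : Disc Y) =
        ⟨ac ζ.val (w i y * (w k y)⁻¹)⟩ := by
      have h2 : ∀ᶠ z : R × Disc Y in 𝓝 (y, ζ), w i z.1 * (w k z.1)⁻¹ = w i y * (w k y)⁻¹ := by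
        have hc : ContinuousAt (fun z : R × Disc Y => z.1) (y, ζ) := continuousAt_fst
        exact hc.eventually (hw i k y hy)
      have h3 : ∀ᶠ z : R × Disc Y in 𝓝 (y, ζ), z.2 = ζ := by
        have : ∀ᶠ v in 𝓝 ζ, v = ζ := by
          rw [nhds_discrete]; simp
        have hc : ContinuousAt (fun z : R × Disc Y => z.2) (y, ζ) := continuousAt_snd
        exact hc.eventually this
      filter_upwards [h2, h3] with z hz1 hz2
      rw [hz1, hz2]
    exact continuousAt_const.congr (h1.mono fun _ h => h.symm)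
  coordChange_comp i k l x _ v := by
    simp only [hac]
    congr 2
    group

/-- Extension of sections of a local system. -/
theorem glue [PathConnectedSpace R] [LocallyPathConnectedSpace R] [PreconnectedSpace D] [Nonempty D]
    (ac : Y → G → Y) (hac : ∀ y a b, ac (ac y a) b = ac y (a * b))
    (hac1 : ∀ y, ac y 1 = y) (N : R → Set R) (hN : ∀ i, IsOpen (N i)) (hN' : ∀ i, i ∈ N i)
    (w : R → R → G)
    (hw : ∀ i k, ∀ y ∈ N i ∩ N k, ∀ᶠ y' in 𝓝 y, w i y' * (w k y')⁻¹ = w i y * (w k y)⁻¹)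
    {j : D → R} (hj : PiOneOnto j) {g : D → Y}
    (hg : ∀ x, ∀ᶠ x' in 𝓝 x,
      ac (g x') (w (j x) (j x'))⁻¹ = ac (g x) (w (j x) (j x))⁻¹) :
    ∃ g' : R → Y, (∀ x, g' (j x) = g x) ∧
      ∀ y, ∀ᶠ y' in 𝓝 y, ac (g' y') (w y y')⁻¹ = ac (g' y) (w y y)⁻¹ := by
  obtain ⟨hjc, hj'⟩ := hj
  have hj : PiOneOnto j := ⟨hjc, hj'⟩
  let Z := core ac hac hac1 N hN hN' w hw
  let pr : Z.TotalSpace → R := Z.proj
  have hcov : IsCoveringMap pr := FiberBundle.isCoveringMap (F := Disc Y) (E := Z.Fiber)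
  let σ : D → Z.TotalSpace := fun x => ⟨j x, (⟨ac (g x) (w (j x) (j x))⁻¹⟩ : Disc Y)⟩
  have hσ : Continuous σ := by
    rw [continuous_iff_continuousAt]
    intro x
    rw [FiberBundle.continuousAt_totalSpace]
    refine ⟨hjc.continuousAt, ?_⟩
    have h1 : ∀ᶠ x' in 𝓝 x, ((trivializationAt (Disc Y) Z.Fiber (σ x).proj) (σ x')).2 =
        (⟨ac (g x) (w (j x) (j x))⁻¹⟩ : Disc Y) := by
      filter_upwards [hg x] with x' hx'
      change (⟨ac (ac (g x') (w (j x') (j x'))⁻¹) (w (j x') (j x') * (w (j x) (j x'))⁻¹)⟩ : Disc Y) = _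
      rw [hac, inv_mul_cancel_left, hx']
    exact continuousAt_const.congr (h1.mono fun _ h => h.symm)
  obtain ⟨x₀⟩ := ‹Nonempty D›
  obtain ⟨s, ⟨hs1, hs2⟩, -⟩ := hcov.existsUnique_continuousMap_lifts_of_range_le
    (f := ContinuousMap.id R) (a₀ := j x₀) (e₀ := σ x₀) rfl
    (range_le hcov.continuous hj hσ (fun _ => rfl) x₀)
  have hs3 : ∀ y, (s y).proj = y := fun y => congrFun hs2 y
  have hsj : s ∘ j = σ := by
    refine hcov.eq_of_comp_eq (s.continuous.comp hjc) hσ ?_ x₀ hs1
    funext x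
    exact hs3 (j x)
  let val : Z.TotalSpace → Y := fun e => ac (show Disc Y from e.2).val (w e.1 e.1)
  refine ⟨fun y => val (s y), ?_, ?_⟩
  · intro x
    have h1 : s (j x) = σ x := congrFun hsj x
    simp only [h1]
    change ac (ac (g x) (w (j x) (j x))⁻¹) (w (j x) (j x)) = g x
    rw [hac, inv_mul_cancel, hac1]
  · intro y
    have h1 := (FiberBundle.continuousAt_totalSpace (Disc Y) s (x₀ := y)).1 s.continuous.continuousAt
    have h2 : ∀ᶠ y' in 𝓝 y, ((trivializationAt (Disc Y) Z.Fiber (s y).proj) (s y')).2 =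
        ((trivializationAt (Disc Y) Z.Fiber (s y).proj) (s y)).2 := by
      have h3 : ∀ᶠ v in 𝓝 ((trivializationAt (Disc Y) Z.Fiber (s y).proj) (s y)).2,
          v = ((trivializationAt (Disc Y) Z.Fiber (s y).proj) (s y)).2 := by
        rw [nhds_discrete]
        simp
      exact Tendsto.eventually h1.2 h3
    have key : ∀ y', (((trivializationAt (Disc Y) Z.Fiber (s y).proj) (s y')).2 : Disc Y).val =
        ac (val (s y')) (w y y')⁻¹ := by
      intro y'
      change ac (show Disc Y from (s y').2).val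
        (w (s y').proj (s y').proj * (w (s y).proj (s y').proj)⁻¹) = _
      simp only [val]
      rw [hac, hs3, hs3]
    filter_upwards [h2] with y' hy'
    rw [← key, ← key, hy']

end glue

end Pool.Agent.Lib.MP_55bc5f_an
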