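import Mathlib

/-!
# Quotients of complex manifolds by free properly discontinuous holomorphic actions
-/

set_option autoImplicit false
set_option linter.unusedSectionVars false

open scoped Manifold ContDiff Topology
open Set Filter

namespace Pool.Agent.Lib.MP_55bc5f_an.Quot

variable {E : Type*} [NormedAddCommGroup E] [NormedSpace ℂ E]
variable {M : Type*} [TopologicalSpace M] [ChartedSpace E M]
  [T2Space M] [LocallyCompactSpace M]
variable {G : Type*} [Group G] [MulAction G M]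
  [ProperlyDiscontinuousSMul G M] [ContinuousConstSMul G M] [IsCancelSMul G M]

variable (G M) in
/-- The orbit space. -/
abbrev Q : Type _ := MulAction.orbitRel.Quotient G M

variable (G M) in
/-- The projection to the orbit space. -/
def P : M → Q M G := Quotient.mk _

omit [ChartedSpace E M] in
lemma covering : IsQuotientCoveringMap (P M G) G :=
  isQuotientCoveringMap_quotientMk_of_properlyDiscontinuousSMul

omit [ChartedSpace E M] in
lemma P_surj : Function.Surjective (P M G) := Quotient.mk_surjective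

omit [ChartedSpace E M] in
lemma P_localHomeo : IsLocalHomeomorph (P M G) :=
  (covering (G := G) (M := M)).isCoveringMap.isLocalHomeomorph

omit [ChartedSpace E M] in
lemma P_continuous : Continuous (P M G) := (P_localHomeo (G := G) (M := M)).continuous

omit [ChartedSpace E M] in
lemma P_eq_iff {x y : M} : P M G x = P M G y ↔ ∃ g : G, g • y = x :=
  (covering (G := G) (M := M)).apply_eq_iff_mem_orbit

omit [ChartedSpace E M] in
lemma P_smul (g : G) (x : M) : P M G (g • x) = P M G x := P_eq_iff.2 ⟨g, rfl⟩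

omit [ChartedSpace E M] in
/-- Any continuous local section composed with the projection is locally a deck transformation. -/
lemma section_eventually_eq {x : M} {σ : Q M G → M} (hσ : ContinuousAt σ (P M G x))
    (hsec : ∀ᶠ q in 𝓝 (P M G x), P M G (σ q) = q) :
    ∃ g : G, g • x = σ (P M G x) ∧ ∀ᶠ z in 𝓝 x, σ (P M G z) = g • z := by
  obtain ⟨g, hg⟩ : ∃ g : G, g • x = σ (P M G x) :=
    P_eq_iff.1 hsec.self_of_nhds
  refine ⟨g, hg, ?_⟩
  obtain ⟨U, hU, hdis⟩ := (covering (G := G) (M := M)).disjoint (σ (P M G x))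
  have h1 : ∀ᶠ z in 𝓝 x, σ (P M G z) ∈ U :=
    (hσ.comp P_continuous.continuousAt).eventually hU
  have h2 : ∀ᶠ z in 𝓝 x, g • z ∈ U := by
    have : ContinuousAt (fun z : M => g • z) x := (continuous_const_smul g).continuousAt
    refine this.eventually ?_
    change ∀ᶠ y in 𝓝 (g • x), y ∈ U
    rwa [hg]
  have h3 : ∀ᶠ z in 𝓝 x, P M G (σ (P M G z)) = P M G z :=
    P_continuous.continuousAt.eventually hsec
  filter_upwards [h1, h2, h3] with z hz1 hz2 hz3
  obtain ⟨g', hg'⟩ : ∃ g' : G, g' • (g • z) = σ (P M G z) := by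
    rw [← P_eq_iff, hz3, P_smul]
  have : g' = 1 := hdis g' ⟨σ (P M G z), ⟨g • z, hz2, hg'⟩, hz1⟩
  rw [← hg', this, one_smul]

/-- The chosen lift of a point of the quotient. -/
noncomputable def lift (q : Q M G) : M :=
  (P_surj (G := G) (M := M)).hasRightInverse.choose q

omit [ChartedSpace E M] in
lemma P_lift (q : Q M G) : P M G (lift q) = q :=
  (P_surj (G := G) (M := M)).hasRightInverse.choose_spec q

/-- The chosen local section at `q`. -/
noncomputable def sec (q : Q M G) : OpenPartialHomeomorph (Q M G) M :=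
  (P_localHomeo (G := G) (M := M)).localInverseAt (lift q)

omit [ChartedSpace E M] in
lemma mem_sec_source (q : Q M G) : q ∈ (sec q).source := by
  have := (P_localHomeo (G := G) (M := M)).apply_self_mem_localInverseAt_source (x := lift q)
  rwa [P_lift] at this

omit [ChartedSpace E M] in
lemma P_sec {q q' : Q M G} (h : q' ∈ (sec q).source) : P M G (sec q q') = q' :=
  (P_localHomeo (G := G) (M := M)).apply_localInverseAt_of_mem h

omit [ChartedSpace E M] in
lemma sec_symm (q : Q M G) : ((sec q).symm : M → Q M G) = P M G :=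
  (P_localHomeo (G := G) (M := M)).localInverseAt_symm _

lemma chartAt_eq (q : Q M G) : chartAt E q = (sec q).trans (chartAt E (lift q)) := rfl

lemma mem_atlas_iff (e : OpenPartialHomeomorph (Q M G) E) :
    e ∈ atlas E (Q M G) ↔ ∃ q : Q M G, (sec q).trans (chartAt E (lift q)) = e := Iff.rfl

variable [IsManifold 𝓘(ℂ, E) ω M]

/-- The quotient is a complex manifold if the action is holomorphic. -/
theorem isManifold (hG : ∀ g : G, ContMDiff 𝓘(ℂ, E) 𝓘(ℂ, E) ω (fun x : M => g • x)) :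
    IsManifold 𝓘(ℂ, E) ω (Q M G) := by
  apply isManifold_of_contDiffOn
  intro e e' he he'
  obtain ⟨q, rfl⟩ := (mem_atlas_iff e).1 he
  obtain ⟨q', rfl⟩ := (mem_atlas_iff e').1 he'
  simp only [modelWithCornersSelf_coe, modelWithCornersSelf_coe_symm, Function.comp_id,
    Function.id_comp, preimage_id_eq, id_eq, range_id, inter_univ]
  intro y hy
  apply ContDiffAt.contDiffWithinAt
  simp only [OpenPartialHomeomorph.trans_source, OpenPartialHomeomorph.symm_source,
    OpenPartialHomeomorph.trans_target, mem_inter_iff, mem_preimage,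
    OpenPartialHomeomorph.coe_trans_symm, Function.comp_apply, sec_symm] at hy
  obtain ⟨⟨hy1, hy2⟩, hy3, hy4⟩ := hy
  set c := chartAt E (lift q) with hc
  set c' := chartAt E (lift q') with hc'
  have hcont : ContinuousAt (sec q') (P M G (c.symm y)) :=
    (sec q').continuousAt hy3
  have hsec : ∀ᶠ r in 𝓝 (P M G (c.symm y)), P M G (sec q' r) = r := by
    filter_upwards [(sec q').open_source.mem_nhds hy3] with r hr
    exact P_sec hr
  obtain ⟨g, hg, hev⟩ := section_eventually_eq hcont hsec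
  have hcs : ContinuousAt c.symm y := c.symm.continuousAt hy1
  have hEq : (((sec q).trans c).symm.trans ((sec q').trans c') : E → E) =ᶠ[𝓝 y]
      fun y => c' (g • c.symm y) := by
    filter_upwards [hcs.eventually hev] with z hz
    simp only [OpenPartialHomeomorph.coe_trans, OpenPartialHomeomorph.coe_trans_symm,
      Function.comp_apply, sec_symm]
    rw [hz]
  refine ContDiffAt.congr_of_eventuallyEq ?_ hEq
  rw [← contMDiffAt_iff_contDiffAt]
  have h1 : ContMDiffAt 𝓘(ℂ, E) 𝓘(ℂ, E) ω c.symm y :=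
    (contMDiffOn_chart_symm (I := 𝓘(ℂ, E)) (x := lift q)).contMDiffAt (c.open_target.mem_nhds hy1)
  have h2 : ContMDiffAt 𝓘(ℂ, E) 𝓘(ℂ, E) ω (fun x : M => g • x) (c.symm y) := (hG g) _
  have h3 : ContMDiffAt 𝓘(ℂ, E) 𝓘(ℂ, E) ω c' (g • c.symm y) := by
    apply (contMDiffOn_chart (I := 𝓘(ℂ, E)) (x := lift q')).contMDiffAt
    apply c'.open_source.mem_nhds
    rw [hg]; exact hy4
  have h12 := ContMDiffAt.comp y h2 h1
  exact ContMDiffAt.comp y h3 h12

lemma sec_self_eq (q : Q M G) : sec q q = lift q := by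
  have h := (P_localHomeo (G := G) (M := M)).localInverseAt_apply_self (x := lift q)
  rwa [P_lift] at h

/-- Near a point of `M`, any section `sec q` composed with `P` is a deck transformation. -/
lemma sec_P_eventually {x : M} {q : Q M G} (hx : P M G x ∈ (sec q).source) :
    ∃ g : G, g • x = sec q (P M G x) ∧ ∀ᶠ z in 𝓝 x, sec q (P M G z) = g • z := by
  apply section_eventually_eq ((sec q).continuousAt hx)
  filter_upwards [(sec q).open_source.mem_nhds hx] with r hr
  exact P_sec hr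

/-- The projection is holomorphic. -/
theorem contMDiff_P (hG : ∀ g : G, ContMDiff 𝓘(ℂ, E) 𝓘(ℂ, E) ω (fun x : M => g • x)) :
    ContMDiff 𝓘(ℂ, E) 𝓘(ℂ, E) ω (P M G) := by
  have := isManifold hG
  intro x
  set q := P M G x with hq
  obtain ⟨g, hg, hev⟩ := sec_P_eventually (x := x) (mem_sec_source q)
  rw [← hq, sec_self_eq] at hg
  set c' := chartAt E (lift q) with hc'
  have hmem : g • x ∈ c'.source := by rw [hg]; exact mem_chart_source E (lift q)
  have hcont : ContinuousAt (fun z : M => g • z) x := (continuous_const_smul g).continuousAt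
  have hEq : P M G =ᶠ[𝓝 x] fun z => (chartAt E q).symm (c' (g • z)) := by
    filter_upwards [hcont.eventually (c'.open_source.mem_nhds hmem)] with z hz
    rw [chartAt_eq, OpenPartialHomeomorph.coe_trans_symm, Function.comp_apply, sec_symm,
      c'.left_inv hz, P_smul]
  refine ContMDiffAt.congr_of_eventuallyEq ?_ hEq
  have h1 : ContMDiffAt 𝓘(ℂ, E) 𝓘(ℂ, E) ω (fun x : M => g • x) x := (hG g) _
  have h2 : ContMDiffAt 𝓘(ℂ, E) 𝓘(ℂ, E) ω c' (g • x) :=
    (contMDiffOn_chart (I := 𝓘(ℂ, E)) (x := lift q)).contMDiffAt (c'.open_source.mem_nhds hmem)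
  have h3 : ContMDiffAt 𝓘(ℂ, E) 𝓘(ℂ, E) ω (chartAt E q).symm (c' (g • x)) := by
    apply (contMDiffOn_chart_symm (I := 𝓘(ℂ, E)) (x := q)).contMDiffAt
    apply (chartAt E q).open_target.mem_nhds
    rw [hg]
    have : c' (lift q) = chartAt E q q := by
      rw [chartAt_eq, OpenPartialHomeomorph.coe_trans, Function.comp_apply, sec_self_eq]
    rw [this]
    exact mem_chart_target E q
  have h12 := ContMDiffAt.comp x h2 h1
  exact ContMDiffAt.comp x h3 h12

/-- Local sections are holomorphic. -/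
theorem contMDiffAt_sec (hG : ∀ g : G, ContMDiff 𝓘(ℂ, E) 𝓘(ℂ, E) ω (fun x : M => g • x))
    {q r : Q M G} (hr : r ∈ (sec q).source) :
    ContMDiffAt 𝓘(ℂ, E) 𝓘(ℂ, E) ω (sec q) r := by
  have := isManifold hG
  -- `sec q = g • sec r` near `r`
  have hPl : P M G (lift r) = r := P_lift r
  obtain ⟨g, hg, hev⟩ := sec_P_eventually (x := lift r) (q := q) (by rwa [hPl])
  set c := chartAt E (lift r) with hc
  have hmem : (chartAt E r) r ∈ c.target := by
    have : c (lift r) = chartAt E r r := by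
      rw [chartAt_eq, OpenPartialHomeomorph.coe_trans, Function.comp_apply, sec_self_eq]
    rw [← this]
    exact mem_chart_target E (lift r)
  have hcs : c.symm (chartAt E r r) = lift r := by
    have : c (lift r) = chartAt E r r := by
      rw [chartAt_eq, OpenPartialHomeomorph.coe_trans, Function.comp_apply, sec_self_eq]
    rw [← this]
    exact c.left_inv (mem_chart_source E (lift r))
  have hcont : ContinuousAt (sec r) r := (sec r).continuousAt (mem_sec_source r)
  have hEq : sec q =ᶠ[𝓝 r] fun z => g • (c.symm (chartAt E r z)) := by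
    have h0 : ∀ᶠ m in 𝓝 (sec r r), sec q (P M G m) = g • m := by
      rw [sec_self_eq]; exact hev
    have h1 : ∀ᶠ z in 𝓝 r, sec q (P M G (sec r z)) = g • (sec r z) := hcont.eventually h0
    have h2 : ∀ᶠ z in 𝓝 r, z ∈ (chartAt E r).source :=
      (chartAt E r).open_source.mem_nhds (mem_chart_source E r)
    filter_upwards [h1, h2] with z hz1 hz2
    rw [chartAt_eq, OpenPartialHomeomorph.trans_source] at hz2
    rw [P_sec hz2.1] at hz1
    rw [hz1, chartAt_eq, OpenPartialHomeomorph.coe_trans, Function.comp_apply, c.left_inv hz2.2]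
  refine ContMDiffAt.congr_of_eventuallyEq ?_ hEq
  have h1 : ContMDiffAt 𝓘(ℂ, E) 𝓘(ℂ, E) ω (chartAt E r) r :=
    (contMDiffOn_chart (I := 𝓘(ℂ, E)) (x := r)).contMDiffAt
      ((chartAt E r).open_source.mem_nhds (mem_chart_source E r))
  have h2 : ContMDiffAt 𝓘(ℂ, E) 𝓘(ℂ, E) ω c.symm (chartAt E r r) :=
    (contMDiffOn_chart_symm (I := 𝓘(ℂ, E)) (x := lift r)).contMDiffAt (c.open_target.mem_nhds hmem)
  have h3 : ContMDiffAt 𝓘(ℂ, E) 𝓘(ℂ, E) ω (fun x : M => g • x) (c.symm (chartAt E r r)) := (hG g) _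
  have h12 := ContMDiffAt.comp r h2 h1
  exact ContMDiffAt.comp r h3 h12

variable {E' : Type*} [NormedAddCommGroup E'] [NormedSpace ℂ E']
variable {N : Type*} [TopologicalSpace N] [ChartedSpace E' N]

/-- A map from the quotient is holomorphic if its composition with the projection is. -/
theorem contMDiff_of_comp_P (hG : ∀ g : G, ContMDiff 𝓘(ℂ, E) 𝓘(ℂ, E) ω (fun x : M => g • x))
    {f : Q M G → N} (hf : ContMDiff 𝓘(ℂ, E) 𝓘(ℂ, E') ω (f ∘ P M G)) :
    ContMDiff 𝓘(ℂ, E) 𝓘(ℂ, E') ω f := by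
  intro q
  have h1 : ContMDiffAt 𝓘(ℂ, E) 𝓘(ℂ, E') ω ((f ∘ P M G) ∘ sec q) q :=
    ContMDiffAt.comp q (hf _) (contMDiffAt_sec hG (mem_sec_source q))
  refine h1.congr_of_eventuallyEq ?_
  filter_upwards [(sec q).open_source.mem_nhds (mem_sec_source q)] with r hr
  simp only [Function.comp_apply, P_sec hr]

theorem mfderiv_P_injective (hG : ∀ g : G, ContMDiff 𝓘(ℂ, E) 𝓘(ℂ, E) ω (fun x : M => g • x))
    (x : M) : Function.Injective (mfderiv 𝓘(ℂ, E) 𝓘(ℂ, E) (P M G) x) := by
  have := isManifold hG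
  obtain ⟨g, hg, hev⟩ := sec_P_eventually (x := x) (mem_sec_source (P M G x))
  have hP : MDifferentiableAt 𝓘(ℂ, E) 𝓘(ℂ, E) (P M G) x :=
    ((contMDiff_P hG) x).mdifferentiableAt (by simp)
  have hS : MDifferentiableAt 𝓘(ℂ, E) 𝓘(ℂ, E) (sec (P M G x)) (P M G x) :=
    (contMDiffAt_sec hG (mem_sec_source (P M G x))).mdifferentiableAt (by simp)
  have hg1 : MDifferentiableAt 𝓘(ℂ, E) 𝓘(ℂ, E) (fun y : M => g⁻¹ • y) (sec (P M G x) (P M G x)) :=
    ((hG g⁻¹) _).mdifferentiableAt (by simp)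
  have hcomp : MDifferentiableAt 𝓘(ℂ, E) 𝓘(ℂ, E) ((fun y : M => g⁻¹ • y) ∘ sec (P M G x))
      (P M G x) := hg1.comp _ hS
  have h1 := mfderiv_comp x hcomp hP
  have h2 : ((fun y : M => g⁻¹ • y) ∘ sec (P M G x)) ∘ P M G =ᶠ[𝓝 x] id := by
    filter_upwards [hev] with z hz
    simp [hz]
  rw [h2.mfderiv_eq, mfderiv_id] at h1
  intro u v huv
  have h3 : ContinuousLinearMap.id ℂ (TangentSpace 𝓘(ℂ, E) x) u =
      ContinuousLinearMap.id ℂ (TangentSpace 𝓘(ℂ, E) x) v := by
    rw [h1]
    exact congrArg (mfderiv 𝓘(ℂ, E) 𝓘(ℂ, E) ((fun y : M => g⁻¹ • y) ∘ sec (P M G x))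
      (P M G x)) huv
  exact h3

theorem mfderiv_P_surjective (hG : ∀ g : G, ContMDiff 𝓘(ℂ, E) 𝓘(ℂ, E) ω (fun x : M => g • x))
    (x : M) : Function.Surjective (mfderiv 𝓘(ℂ, E) 𝓘(ℂ, E) (P M G) x) := by
  have := isManifold hG
  obtain ⟨g, hg, hev⟩ := sec_P_eventually (x := x) (mem_sec_source (P M G x))
  have hS : MDifferentiableAt 𝓘(ℂ, E) 𝓘(ℂ, E) (sec (P M G x)) (P M G x) :=
    (contMDiffAt_sec hG (mem_sec_source (P M G x))).mdifferentiableAt (by simp)
  have hg1 : MDifferentiableAt 𝓘(ℂ, E) 𝓘(ℂ, E) (fun y : M => g⁻¹ • y) (sec (P M G x) (P M G x)) :=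
    ((hG g⁻¹) _).mdifferentiableAt (by simp)
  have hcomp : MDifferentiableAt 𝓘(ℂ, E) 𝓘(ℂ, E) ((fun y : M => g⁻¹ • y) ∘ sec (P M G x))
      (P M G x) := hg1.comp _ hS
  have hx : ((fun y : M => g⁻¹ • y) ∘ sec (P M G x)) (P M G x) = x := by
    simp [← hg]
  have hP : MDifferentiableAt 𝓘(ℂ, E) 𝓘(ℂ, E) (P M G)
      (((fun y : M => g⁻¹ • y) ∘ sec (P M G x)) (P M G x)) :=
    ((contMDiff_P hG) _).mdifferentiableAt (by simp)
  have h1 := mfderiv_comp (P M G x) hP hcomp
  have h2 : P M G ∘ ((fun y : M => g⁻¹ • y) ∘ sec (P M G x)) =ᶠ[𝓝 (P M G x)] id := by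
    filter_upwards [(sec (P M G x)).open_source.mem_nhds (mem_sec_source (P M G x))] with z hz
    simp [P_smul, P_sec hz]
  rw [h2.mfderiv_eq, mfderiv_id] at h1
  intro u
  have h3 := congrArg (fun L : TangentSpace 𝓘(ℂ, E) (P M G x) →L[ℂ] _ => L u) h1
  rw [hx] at h3
  exact ⟨_, h3.symm⟩

end Pool.Agent.Lib.MP_55bc5f_an.Quot
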