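import Mathlib
import Pool.Agent.Lib.MP_55bc5f_an.QuotientMfd

/-!
# The Nakamura type family: group, actions, proper discontinuity
-/

set_option autoImplicit false

open scoped Manifold ContDiff Topology ComplexConjugate
open Set Filter TopologicalSpace

namespace Pool.Agent.Lib.MP_55bc5f_an

/-- The unit `lam = (3 + √5)/2 > 1` of `ℤ[(1+√5)/2]`. -/
noncomputable def lam : ℝ := (3 + Real.sqrt 5) / 2

lemma sqrt5_sq : Real.sqrt 5 * Real.sqrt 5 = 5 := Real.mul_self_sqrt (by norm_num)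

lemma one_lt_lam : 1 < lam := by
  have : 0 ≤ Real.sqrt 5 := Real.sqrt_nonneg 5
  unfold lam; linarith

lemma lam_pos : 0 < lam := one_pos.trans one_lt_lam

lemma lam_ne_zero : lam ≠ 0 := lam_pos.ne'

lemma lam_sq : lam * lam = 3 * lam - 1 := by
  have := sqrt5_sq
  unfold lam; nlinarith

lemma lam_inv : lam⁻¹ = 3 - lam := by
  apply inv_eq_of_mul_eq_one_right
  have := lam_sq
  linarith

lemma lam_inv_sq : lam⁻¹ * lam⁻¹ = 3 * lam⁻¹ - 1 := by
  rw [lam_inv]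
  have := lam_sq
  nlinarith

/-- Affine maps `(w₁, w₂, w₃) ↦ (c w₁ - t conj δ, c⁻¹ w₂ + β, c w₃ + δ)` with `c > 0`. -/
@[ext] structure Aff where
  c : ℝ
  hc : 0 < c
  β : ℂ
  δ : ℂ

namespace Aff

noncomputable instance : Mul Aff := ⟨fun g h => ⟨g.c * h.c, mul_pos g.hc h.hc,
  (g.c : ℂ)⁻¹ * h.β + g.β, g.c * h.δ + g.δ⟩⟩
noncomputable instance : One Aff := ⟨⟨1, one_pos, 0, 0⟩⟩
noncomputable instance : Inv Aff := ⟨fun g => ⟨g.c⁻¹, inv_pos.2 g.hc, -(g.c * g.β), -((g.c : ℂ)⁻¹ * g.δ)⟩⟩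

@[simp] lemma mul_c (g h : Aff) : (g * h).c = g.c * h.c := rfl
@[simp] lemma mul_β (g h : Aff) : (g * h).β = (g.c : ℂ)⁻¹ * h.β + g.β := rfl
@[simp] lemma mul_δ (g h : Aff) : (g * h).δ = g.c * h.δ + g.δ := rfl
@[simp] lemma one_c : (1 : Aff).c = 1 := rfl
@[simp] lemma one_β : (1 : Aff).β = 0 := rfl
@[simp] lemma one_δ : (1 : Aff).δ = 0 := rfl
@[simp] lemma inv_c (g : Aff) : (g⁻¹).c = g.c⁻¹ := rfl
@[simp] lemma inv_β (g : Aff) : (g⁻¹).β = -(g.c * g.β) := rfl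
@[simp] lemma inv_δ (g : Aff) : (g⁻¹).δ = -((g.c : ℂ)⁻¹ * g.δ) := rfl

lemma c_ne (g : Aff) : (g.c : ℂ) ≠ 0 := by exact_mod_cast g.hc.ne'

noncomputable instance : Group Aff where
  mul_assoc a b c := by
    ext
    · simp [mul_assoc]
    · simp; ring
    · simp; ring
  one_mul a := by ext <;> simp
  mul_one a := by ext <;> simp
  inv_mul_cancel a := by
    have := a.c_ne
    have h2 := a.hc.ne'
    ext
    · simp [h2]
    · simp
    · simp

end Aff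

/-- The lattice `{(σ(x), x) : x ∈ O[i]}`. -/
def Lat (β δ : ℂ) : Prop :=
  ∃ a b a' b' : ℤ, β = (a + b * (lam : ℂ)⁻¹) + (a' + b' * (lam : ℂ)⁻¹) * Complex.I ∧
    δ = (a + b * (lam : ℂ)) + (a' + b' * (lam : ℂ)) * Complex.I

lemma lamC_ne : (lam : ℂ) ≠ 0 := by exact_mod_cast lam_ne_zero

lemma lamC_sq : (lam : ℂ) * lam = 3 * lam - 1 := by exact_mod_cast congrArg (fun x : ℝ => (x : ℂ)) lam_sq

lemma lamC_inv : (lam : ℂ)⁻¹ = 3 - lam := by exact_mod_cast congrArg (fun x : ℝ => (x : ℂ)) lam_inv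

lemma Lat.zero : Lat 0 0 := ⟨0, 0, 0, 0, by simp, by simp⟩

lemma Lat.add {β δ β' δ' : ℂ} (h : Lat β δ) (h' : Lat β' δ') : Lat (β + β') (δ + δ') := by
  obtain ⟨a, b, c, d, rfl, rfl⟩ := h
  obtain ⟨a', b', c', d', rfl, rfl⟩ := h'
  refine ⟨a + a', b + b', c + c', d + d', ?_, ?_⟩ <;> push_cast <;> ring

lemma Lat.neg {β δ : ℂ} (h : Lat β δ) : Lat (-β) (-δ) := by
  obtain ⟨a, b, c, d, rfl, rfl⟩ := h
  refine ⟨-a, -b, -c, -d, ?_, ?_⟩ <;> push_cast <;> ring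

lemma Lat.mul_lam {β δ : ℂ} (h : Lat β δ) : Lat ((lam : ℂ)⁻¹ * β) (lam * δ) := by
  obtain ⟨a, b, c, d, rfl, rfl⟩ := h
  have h1 := lamC_sq
  have h2 := lamC_inv
  refine ⟨-b, a + 3 * b, -d, c + 3 * d, ?_, ?_⟩
  · push_cast; rw [h2]
    linear_combination (b + d * Complex.I) * h1
  · push_cast
    linear_combination (b + d * Complex.I) * h1

lemma Lat.mul_lam_inv {β δ : ℂ} (h : Lat β δ) : Lat (lam * β) ((lam : ℂ)⁻¹ * δ) := by
  obtain ⟨a, b, c, d, rfl, rfl⟩ := h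
  have h1 := lamC_sq
  have h2 := lamC_inv
  refine ⟨3 * a + b, -a, 3 * c + d, -c, ?_, ?_⟩
  · push_cast; rw [h2]
    linear_combination (-b - d * Complex.I) * h1
  · push_cast; rw [h2]
    linear_combination (-b - d * Complex.I) * h1

lemma Lat.zpow {β δ : ℂ} (h : Lat β δ) (k : ℤ) :
    Lat (((lam ^ k : ℝ) : ℂ)⁻¹ * β) (((lam ^ k : ℝ) : ℂ) * δ) := by
  induction k with
  | zero => simpa using h
  | succ n ih =>
    have := ih.mul_lam
    have e1 : ((lam ^ ((n : ℤ) + 1) : ℝ) : ℂ) = lam * ((lam ^ (n : ℤ) : ℝ) : ℂ) := by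
      rw [zpow_add_one₀ lam_ne_zero]; push_cast; ring
    rw [e1, mul_inv, mul_assoc, mul_assoc]
    exact this
  | pred n ih =>
    have := ih.mul_lam_inv
    have e1 : ((lam ^ (-(n : ℤ) - 1) : ℝ) : ℂ) = (lam : ℂ)⁻¹ * ((lam ^ (-(n : ℤ)) : ℝ) : ℂ) := by
      rw [zpow_sub_one₀ lam_ne_zero]; push_cast; ring
    rw [e1, mul_inv, inv_inv, mul_assoc, mul_assoc]
    exact this

/-- The discrete group. -/
noncomputable def Gam : Subgroup Aff where
  carrier := {g | (∃ k : ℤ, g.c = lam ^ k) ∧ Lat g.β g.δ}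
  one_mem' := ⟨⟨0, by simp⟩, Lat.zero⟩
  mul_mem' := by
    rintro g h ⟨⟨k, hk⟩, hg⟩ ⟨⟨l, hl⟩, hh⟩
    refine ⟨⟨k + l, by rw [Aff.mul_c, hk, hl, zpow_add₀ lam_ne_zero]⟩, ?_⟩
    rw [Aff.mul_β, Aff.mul_δ, hk]
    exact (hh.zpow k).add hg
  inv_mem' := by
    rintro g ⟨⟨k, hk⟩, hg⟩
    refine ⟨⟨-k, by rw [Aff.inv_c, hk, zpow_neg]⟩, ?_⟩
    rw [Aff.inv_β, Aff.inv_δ, hk]
    have := (hg.zpow (-k)).neg
    rw [zpow_neg] at this
    push_cast at this ⊢
    simpa using this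

lemma Gam_c (g : Gam) : ∃ k : ℤ, (g : Aff).c = lam ^ k := g.2.1
lemma Gam_lat (g : Gam) : Lat (g : Aff).β (g : Aff).δ := g.2.2

/-- The element of `Gam` with given parameters. -/
noncomputable def Gam.mk' (p : ℤ × ℤ × ℤ × ℤ × ℤ) : Gam :=
  ⟨⟨lam ^ p.1, zpow_pos lam_pos _,
    (p.2.1 + p.2.2.1 * (lam : ℂ)⁻¹) + (p.2.2.2.1 + p.2.2.2.2 * (lam : ℂ)⁻¹) * Complex.I,
    (p.2.1 + p.2.2.1 * (lam : ℂ)) + (p.2.2.2.1 + p.2.2.2.2 * (lam : ℂ)) * Complex.I⟩,
    ⟨p.1, rfl⟩, p.2.1, p.2.2.1, p.2.2.2.1, p.2.2.2.2, rfl, rfl⟩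

lemma int_bound {x y C : ℝ} (hx : |x + y * lam⁻¹| ≤ C) (hy : |x + y * lam| ≤ C) :
    |x| ≤ 10 * C ∧ |y| ≤ 10 * C := by
  have h5 : (2:ℝ) ≤ Real.sqrt 5 := Real.le_sqrt_of_sq_le (by norm_num)
  have h5' : Real.sqrt 5 ≤ 3 := Real.sqrt_le_iff.2 (by norm_num)
  have h1 : lam - lam⁻¹ = Real.sqrt 5 := by
    rw [lam_inv]; unfold lam; ring
  have hlam : lam ≤ 3 := by unfold lam; linarith
  have hC : 0 ≤ C := (abs_nonneg _).trans hx
  have hlam0 := lam_pos.le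
  have hyb : |y| ≤ C := by
    have : |y| * Real.sqrt 5 ≤ 2 * C := by
      calc |y| * Real.sqrt 5 = |y * (lam - lam⁻¹)| := by
            rw [h1, abs_mul, abs_of_nonneg (by linarith : (0:ℝ) ≤ Real.sqrt 5)]
        _ = |(x + y * lam) - (x + y * lam⁻¹)| := by congr 1; ring
        _ ≤ |x + y * lam| + |x + y * lam⁻¹| := abs_sub _ _
        _ ≤ 2 * C := by linarith
    have h3 : |y| * 2 ≤ |y| * Real.sqrt 5 := by gcongr
    linarith
  constructor
  · calc |x| = |(x + y * lam) - y * lam| := by congr 1; ring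
      _ ≤ |x + y * lam| + |y * lam| := abs_sub _ _
      _ = |x + y * lam| + |y| * lam := by rw [abs_mul, abs_of_pos lam_pos]
      _ ≤ C + C * 3 := by gcongr
      _ ≤ 10 * C := by linarith
  · linarith

/-- Finiteness of bounded sets in `Gam`. -/
lemma Gam_finite (C : ℝ) : {g : Gam | (g : Aff).c ≤ C ∧ (g : Aff).c⁻¹ ≤ C ∧
    ‖(g : Aff).β‖ ≤ C ∧ ‖(g : Aff).δ‖ ≤ C}.Finite := by
  obtain ⟨N, hN⟩ := pow_unbounded_of_one_lt C one_lt_lam
  obtain ⟨N', hN'⟩ := exists_nat_ge (10 * C)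
  apply Set.Finite.subset (Set.Finite.image Gam.mk'
    ((Set.finite_Icc (-(N:ℤ)) N).prod ((Set.finite_Icc (-(N':ℤ)) N').prod
      ((Set.finite_Icc (-(N':ℤ)) N').prod ((Set.finite_Icc (-(N':ℤ)) N').prod
        (Set.finite_Icc (-(N':ℤ)) N'))))))
  rintro ⟨g, ⟨k, hk⟩, a, b, a', b', hβ, hδ⟩ ⟨h1, h2, h3, h4⟩
  simp only at h1 h2 h3 h4
  refine ⟨(k, a, b, a', b'), ?_, ?_⟩
  · have hkN : -(N:ℤ) ≤ k ∧ k ≤ N := by
      constructor
      · by_contra hcon
        push Not at hcon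
        have : (N : ℤ) ≤ -k := by omega
        have h5 : lam ^ (N : ℤ) ≤ lam ^ (-k) := zpow_le_zpow_right₀ one_lt_lam.le this
        rw [zpow_natCast, zpow_neg, ← hk] at h5
        linarith
      · by_contra hcon
        push Not at hcon
        have h5 : lam ^ (N : ℤ) ≤ lam ^ k := zpow_le_zpow_right₀ one_lt_lam.le hcon.le
        rw [zpow_natCast, ← hk] at h5
        linarith
    have hβre : g.β.re = a + b * lam⁻¹ := by
      rw [hβ, ← Complex.ofReal_inv]; simp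
    have hβim : g.β.im = a' + b' * lam⁻¹ := by
      rw [hβ, ← Complex.ofReal_inv]; simp
    have hδre : g.δ.re = a + b * lam := by
      rw [hδ]; simp
    have hδim : g.δ.im = a' + b' * lam := by
      rw [hδ]; simp
    have r1 := int_bound (x := a) (y := b) (C := C)
      (by rw [← hβre]; exact (Complex.abs_re_le_norm _).trans h3)
      (by rw [← hδre]; exact (Complex.abs_re_le_norm _).trans h4)
    have r2 := int_bound (x := a') (y := b') (C := C)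
      (by rw [← hβim]; exact (Complex.abs_im_le_norm _).trans h3)
      (by rw [← hδim]; exact (Complex.abs_im_le_norm _).trans h4)
    have conv : ∀ m : ℤ, |(m : ℝ)| ≤ 10 * C → m ∈ Icc (-(N':ℤ)) N' := by
      intro m hm
      have h5 : |(m : ℝ)| ≤ N' := hm.trans hN'
      rw [abs_le] at h5
      constructor
      · exact_mod_cast h5.1
      · exact_mod_cast h5.2
    exact ⟨hkN, conv a r1.1, conv b r1.2, conv a' r2.1, conv b' r2.2⟩
  · apply Subtype.ext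
    ext
    · exact hk.symm
    · rw [hβ]; rfl
    · rw [hδ]; rfl

/-- The coordinates `(r, w₂, w₃)`, `r > 0`, on which `Aff` acts. -/
structure EquivCoord (X : Type*) [TopologicalSpace X] [MulAction Aff X] where
  r : X → ℝ
  u : X → ℂ
  v : X → ℂ
  hr : Continuous r
  hu : Continuous u
  hv : Continuous v
  r_pos : ∀ x, 0 < r x
  r_smul : ∀ (g : Aff) x, r (g • x) = g.c * r x
  u_smul : ∀ (g : Aff) x, u (g • x) = (g.c : ℂ)⁻¹ * u x + g.β
  v_smul : ∀ (g : Aff) x, v (g • x) = g.c * v x + g.δ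

section

variable {X : Type*} [TopologicalSpace X] [MulAction Aff X]

/-- A compact set has bounded coordinates. -/
lemma EquivCoord.bound (S : EquivCoord X) {K : Set X} (hK : IsCompact K) :
    ∃ C : ℝ, 1 ≤ C ∧ ∀ x ∈ K, S.r x ≤ C ∧ (S.r x)⁻¹ ≤ C ∧ ‖S.u x‖ ≤ C ∧ ‖S.v x‖ ≤ C := by
  obtain ⟨C1, h1⟩ := hK.exists_bound_of_continuousOn S.hr.continuousOn
  obtain ⟨C2, h2⟩ := hK.exists_bound_of_continuousOn
    (S.hr.inv₀ (fun x => (S.r_pos x).ne')).continuousOn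
  obtain ⟨C3, h3⟩ := hK.exists_bound_of_continuousOn S.hu.continuousOn
  obtain ⟨C4, h4⟩ := hK.exists_bound_of_continuousOn S.hv.continuousOn
  refine ⟨max 1 (max (max C1 C2) (max C3 C4)), le_max_left _ _, fun x hx => ⟨?_, ?_, ?_, ?_⟩⟩
  · exact (le_abs_self _).trans ((h1 x hx).trans (by simp))
  · exact (le_abs_self _).trans ((h2 x hx).trans (by simp))
  · exact (h3 x hx).trans (by simp)
  · exact (h4 x hx).trans (by simp)

lemma EquivCoord.properlyDiscontinuous (S : EquivCoord X) : ProperlyDiscontinuousSMul Gam X := by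
  constructor
  intro K L hK hL
  obtain ⟨C, hC1, hCK⟩ := S.bound hK
  obtain ⟨C', hC1', hCL⟩ := S.bound hL
  set B := max C C' with hB
  have hB1 : 1 ≤ B := hC1.trans (le_max_left _ _)
  have hB0 : 0 ≤ B := zero_le_one.trans hB1
  refine (Gam_finite (B + B * B * B)).subset ?_
  rintro g ⟨_, ⟨x, hx, rfl⟩, hy⟩
  obtain ⟨k1, k2, k3, k4⟩ := hCK x hx
  obtain ⟨l1, l2, l3, l4⟩ := hCL _ hy
  have e1 : S.r (g • x) = (g : Aff).c * S.r x := S.r_smul g x
  have e2 : S.u (g • x) = ((g : Aff).c : ℂ)⁻¹ * S.u x + (g : Aff).β := S.u_smul g x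
  have e3 : S.v (g • x) = ((g : Aff).c : ℂ) * S.v x + (g : Aff).δ := S.v_smul g x
  have hCB : C ≤ B := le_max_left _ _
  have hCB' : C' ≤ B := le_max_right _ _
  have hgc := (g : Aff).hc
  have hrx := S.r_pos x
  have hrgx := S.r_pos (g • x)
  simp only at l1 l2 l3 l4
  have c1 : (g : Aff).c ≤ B * B := by
    have : (g : Aff).c = S.r (g • x) * (S.r x)⁻¹ := by rw [e1]; field_simp
    rw [this]
    gcongr
    · exact l1.trans hCB'
    · exact k2.trans hCB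
  have c2 : (g : Aff).c⁻¹ ≤ B * B := by
    have : (g : Aff).c⁻¹ = (S.r (g • x))⁻¹ * S.r x := by rw [e1]; field_simp
    rw [this]
    gcongr
    · exact l2.trans hCB'
    · exact k1.trans hCB
  have c3 : ‖(g : Aff).β‖ ≤ B + B * B * B := by
    have : (g : Aff).β = S.u (g • x) - ((g : Aff).c : ℂ)⁻¹ * S.u x := by rw [e2]; ring
    rw [this]
    calc ‖S.u (g • x) - ((g : Aff).c : ℂ)⁻¹ * S.u x‖
        ≤ ‖S.u (g • x)‖ + ‖((g : Aff).c : ℂ)⁻¹ * S.u x‖ := norm_sub_le _ _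
      _ = ‖S.u (g • x)‖ + (g : Aff).c⁻¹ * ‖S.u x‖ := by
          rw [norm_mul, norm_inv, Complex.norm_real, Real.norm_eq_abs, abs_of_pos hgc]
      _ ≤ B + B * B * B := by
          gcongr
          · exact l3.trans hCB'
          · exact k3.trans hCB
  have c4 : ‖(g : Aff).δ‖ ≤ B + B * B * B := by
    have : (g : Aff).δ = S.v (g • x) - ((g : Aff).c : ℂ) * S.v x := by rw [e3]; ring
    rw [this]
    calc ‖S.v (g • x) - ((g : Aff).c : ℂ) * S.v x‖
        ≤ ‖S.v (g • x)‖ + ‖((g : Aff).c : ℂ) * S.v x‖ := norm_sub_le _ _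
      _ = ‖S.v (g • x)‖ + (g : Aff).c * ‖S.v x‖ := by
          rw [norm_mul, Complex.norm_real, Real.norm_eq_abs, abs_of_pos hgc]
      _ ≤ B + B * B * B := by
          gcongr
          · exact l4.trans hCB'
          · exact k4.trans hCB
  have hBB : B * B ≤ B + B * B * B := by nlinarith [mul_nonneg hB0 hB0]
  exact ⟨c1.trans hBB, c2.trans hBB, c3, c4⟩

lemma EquivCoord.isCancel (S : EquivCoord X) : IsCancelSMul Gam X := by
  rw [isCancelSMul_iff_eq_one_of_smul_eq]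
  intro g x hgx
  have e1 : S.r (g • x) = (g : Aff).c * S.r x := S.r_smul g x
  have e2 : S.u (g • x) = ((g : Aff).c : ℂ)⁻¹ * S.u x + (g : Aff).β := S.u_smul g x
  have e3 : S.v (g • x) = ((g : Aff).c : ℂ) * S.v x + (g : Aff).δ := S.v_smul g x
  rw [hgx] at e1 e2 e3
  have hc : (g : Aff).c = 1 := by
    have := (S.r_pos x).ne'
    field_simp at e1
    linarith
  rw [hc] at e2 e3
  apply Subtype.ext
  ext
  · exact hc
  · simp at e2; simpa using e2
  · simp at e3; simpa using e3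

end

end Pool.Agent.Lib.MP_55bc5f_an
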