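import Mathlib
import Pool.Agent.Lib.MP_55bc5f_an.Defs
import Pool.Agent.Lib.MP_55bc5f_an.Example

/-!
# The spaces `Ω_t`, `Ω` and their quotients
-/

set_option autoImplicit false

open scoped Manifold ContDiff Topology ComplexConjugate
open Set Filter TopologicalSpace

namespace Pool.Agent.Lib.MP_55bc5f_an

lemma contMDiff_subtypeVal_comp_iff {E E' : Type*} [NormedAddCommGroup E] [NormedSpace ℂ E]
    [NormedAddCommGroup E'] [NormedSpace ℂ E'] {M : Type*} [TopologicalSpace M] [ChartedSpace E M]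
    (U : Opens E') (f : M → U) :
    ContMDiff 𝓘(ℂ, E) 𝓘(ℂ, E') ω (Subtype.val ∘ f) ↔ ContMDiff 𝓘(ℂ, E) 𝓘(ℂ, E') ω f := by
  have : ∀ x, ContMDiffWithinAt 𝓘(ℂ, E) 𝓘(ℂ, E') ω (Subtype.val ∘ f) univ x ↔
      ContMDiffWithinAt 𝓘(ℂ, E) 𝓘(ℂ, E') ω f univ x :=
    fun x => ChartedSpace.liftPropWithinAt_subtypeVal_comp_iff ..
  simp_rw [ContMDiff, ContMDiffAt, this]

/-- `Ω_t = {w ∈ ℂ³ : w₁ + t conj w₃ ≠ 0}`. -/
def Om (t : ℂ) : Opens (ℂ × ℂ × ℂ) :=
  ⟨{w | w.1 + t * conj w.2.2 ≠ 0}, isOpen_ne_fun (by fun_prop) (by fun_prop)⟩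

lemma Om_ne {t : ℂ} (w : Om t) : w.1.1 + t * conj w.1.2.2 ≠ 0 := w.2

/-- The affine map on `ℂ³` defined by `g : Aff` (depending on `t`). -/
noncomputable def actMap (t : ℂ) (g : Aff) (w : ℂ × ℂ × ℂ) : ℂ × ℂ × ℂ :=
  (g.c * w.1 - t * conj g.δ, (g.c : ℂ)⁻¹ * w.2.1 + g.β, g.c * w.2.2 + g.δ)

lemma actMap_s (t : ℂ) (g : Aff) (w : ℂ × ℂ × ℂ) :
    (actMap t g w).1 + t * conj (actMap t g w).2.2 = g.c * (w.1 + t * conj w.2.2) := by
  simp only [actMap, map_add, map_mul, Complex.conj_ofReal]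
  ring

lemma actMap_mul (t : ℂ) (g h : Aff) (w : ℂ × ℂ × ℂ) :
    actMap t (g * h) w = actMap t g (actMap t h w) := by
  simp only [actMap, Aff.mul_c, Aff.mul_β, Aff.mul_δ, Complex.ofReal_mul, map_add, map_mul,
    Complex.conj_ofReal, mul_inv, Prod.mk.injEq]
  refine ⟨?_, ?_, ?_⟩ <;> ring

lemma actMap_one (t : ℂ) (w : ℂ × ℂ × ℂ) : actMap t 1 w = w := by
  simp [actMap]

lemma actMap_mem {t : ℂ} (g : Aff) {w : ℂ × ℂ × ℂ} (hw : w ∈ Om t) : actMap t g w ∈ Om t := by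
  change (actMap t g w).1 + t * conj (actMap t g w).2.2 ≠ 0
  rw [actMap_s]
  exact mul_ne_zero g.c_ne hw

noncomputable instance (t : ℂ) : MulAction Aff (Om t) where
  smul g w := ⟨actMap t g w.1, actMap_mem g w.2⟩
  one_smul w := Subtype.ext (actMap_one t w.1)
  mul_smul g h w := Subtype.ext (actMap_mul t g h w.1)

lemma Om_smul_val {t : ℂ} (g : Aff) (w : Om t) : ((g • w : Om t) : ℂ × ℂ × ℂ) = actMap t g w.1 := rfl

/-- Invariant coordinates on `Ω_t`. -/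
noncomputable def coordOm (t : ℂ) : EquivCoord (Om t) where
  r w := ‖w.1.1 + t * conj w.1.2.2‖
  u w := w.1.2.1
  v w := w.1.2.2
  hr := by fun_prop
  hu := by fun_prop
  hv := by fun_prop
  r_pos w := norm_pos_iff.2 w.2
  r_smul g w := by
    rw [Om_smul_val, actMap_s, norm_mul, Complex.norm_real, Real.norm_eq_abs, abs_of_pos g.hc]
  u_smul g w := rfl
  v_smul g w := rfl

instance (t : ℂ) : ProperlyDiscontinuousSMul Gam (Om t) := (coordOm t).properlyDiscontinuous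
instance (t : ℂ) : IsCancelSMul Gam (Om t) := (coordOm t).isCancel

lemma actMap_continuous (t : ℂ) (g : Aff) : Continuous (actMap t g) := by
  unfold actMap; fun_prop

instance (t : ℂ) : ContinuousConstSMul Gam (Om t) :=
  ⟨fun g => by
    apply Continuous.subtype_mk
    exact (actMap_continuous t g).comp continuous_subtype_val⟩

lemma actMap_contDiff (t : ℂ) (g : Aff) : ContDiff ℂ ω (actMap t g) := by
  unfold actMap; fun_prop

lemma Om_contMDiff (t : ℂ) (g : Gam) :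
    ContMDiff 𝓘(ℂ, ℂ × ℂ × ℂ) 𝓘(ℂ, ℂ × ℂ × ℂ) ω (fun w : Om t => g • w) := by
  rw [← contMDiff_subtypeVal_comp_iff]
  have : (Subtype.val ∘ fun w : Om t => g • w) = actMap t g ∘ Subtype.val := rfl
  rw [this]
  exact (actMap_contDiff t g).contMDiff.comp contMDiff_subtype_val

/-- `Ω = {(t, w) : |t| < 1, w₁ + t conj w₃ ≠ 0}`. -/
def OmT : Opens (ℂ × ℂ × ℂ × ℂ) :=
  ⟨{x | ‖x.1‖ < 1 ∧ x.2.1 + x.1 * conj x.2.2.2 ≠ 0}, by
    have h1 : IsOpen {x : ℂ × ℂ × ℂ × ℂ | ‖x.1‖ < 1} := isOpen_lt (by fun_prop) (by fun_prop)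
    have h2 : IsOpen {x : ℂ × ℂ × ℂ × ℂ | x.2.1 + x.1 * conj x.2.2.2 ≠ 0} :=
      isOpen_ne_fun (by fun_prop) (by fun_prop)
    exact h1.inter h2⟩

/-- The affine map on `ℂ⁴` defined by `g : Aff`. -/
noncomputable def actMapT (g : Aff) (x : ℂ × ℂ × ℂ × ℂ) : ℂ × ℂ × ℂ × ℂ :=
  (x.1, actMap x.1 g x.2)

lemma actMapT_mem (g : Aff) {x : ℂ × ℂ × ℂ × ℂ} (hx : x ∈ OmT) : actMapT g x ∈ OmT :=
  ⟨hx.1, actMap_mem (t := x.1) g hx.2⟩

noncomputable instance : MulAction Aff OmT where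
  smul g w := ⟨actMapT g w.1, actMapT_mem g w.2⟩
  one_smul w := Subtype.ext (Prod.ext rfl (actMap_one _ _))
  mul_smul g h w := Subtype.ext (Prod.ext rfl (actMap_mul _ g h _))

lemma OmT_smul_val (g : Aff) (w : OmT) : ((g • w : OmT) : ℂ × ℂ × ℂ × ℂ) = actMapT g w.1 := rfl

/-- Invariant coordinates on `Ω`. -/
noncomputable def coordOmT : EquivCoord OmT where
  r w := ‖w.1.2.1 + w.1.1 * conj w.1.2.2.2‖
  u w := w.1.2.2.1
  v w := w.1.2.2.2
  hr := by fun_prop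
  hu := by fun_prop
  hv := by fun_prop
  r_pos w := norm_pos_iff.2 w.2.2
  r_smul g w := by
    rw [OmT_smul_val]
    change ‖(actMap w.1.1 g w.1.2).1 + w.1.1 * conj (actMap w.1.1 g w.1.2).2.2‖ = _
    rw [actMap_s, norm_mul, Complex.norm_real, Real.norm_eq_abs, abs_of_pos g.hc]
  u_smul g w := rfl
  v_smul g w := rfl

instance : ProperlyDiscontinuousSMul Gam OmT := coordOmT.properlyDiscontinuous
instance : IsCancelSMul Gam OmT := coordOmT.isCancel

lemma actMapT_continuous (g : Aff) : Continuous (actMapT g) := by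
  unfold actMapT actMap; fun_prop

instance : ContinuousConstSMul Gam OmT :=
  ⟨fun g => by
    apply Continuous.subtype_mk
    exact (actMapT_continuous g).comp continuous_subtype_val⟩

lemma actMapT_contDiff (g : Aff) : ContDiff ℂ ω (actMapT g) := by
  unfold actMapT actMap; fun_prop

lemma OmT_contMDiff (g : Gam) :
    ContMDiff 𝓘(ℂ, ℂ × ℂ × ℂ × ℂ) 𝓘(ℂ, ℂ × ℂ × ℂ × ℂ) ω (fun w : OmT => g • w) := by
  rw [← contMDiff_subtypeVal_comp_iff]
  have : (Subtype.val ∘ fun w : OmT => g • w) = actMapT g ∘ Subtype.val := rfl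
  rw [this]
  exact (actMapT_contDiff g).contMDiff.comp contMDiff_subtype_val

instance : LocallyCompactSpace OmT := OmT.isOpen.locallyCompactSpace
instance (t : ℂ) : LocallyCompactSpace (Om t) := (Om t).isOpen.locallyCompactSpace

/-- The manifold `X_t = Ω_t / Γ`. -/
noncomputable def XX (t : ℂ) : CMan (ℂ × ℂ × ℂ) :=
  letI := Quot.isManifold (M := Om t) (G := Gam) (Om_contMDiff t)
  letI : SecondCountableTopology (Quot.Q (Om t) Gam) :=
    ContinuousConstSMul.secondCountableTopology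
  { carrier := Quot.Q (Om t) Gam }

/-- The total space `Ω / Γ`. -/
noncomputable def TT : CMan (ℂ × ℂ × ℂ × ℂ) :=
  letI := Quot.isManifold (M := OmT) (G := Gam) OmT_contMDiff
  letI : SecondCountableTopology (Quot.Q OmT Gam) :=
    ContinuousConstSMul.secondCountableTopology
  { carrier := Quot.Q OmT Gam }

end Pool.Agent.Lib.MP_55bc5f_an
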