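import Mathlib
import Pool.Agent.Lib.MP_55bc5f_an.Spaces

/-!
# The deformation `Ω / Γ → Δ`
-/

set_option autoImplicit false

open scoped Manifold ContDiff Topology ComplexConjugate
open Set Filter TopologicalSpace

namespace Pool.Agent.Lib.MP_55bc5f_an

lemma hasMFDerivAt_val {E : Type*} [NormedAddCommGroup E] [NormedSpace ℂ E] (U : Opens E) (x : U) :
    HasMFDerivAt 𝓘(ℂ, E) 𝓘(ℂ, E) (Subtype.val : U → E) x (ContinuousLinearMap.id ℂ E) := by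
  refine ⟨continuous_subtype_val.continuousAt, ?_⟩
  have h : HasFDerivAt (id : E → E) (ContinuousLinearMap.id ℂ E) (x : E) := hasFDerivAt_id _
  have h0 : (chartAt E x) x = (x : E) := rfl
  have h1 : ∀ᶠ z in 𝓝 (x : E), z ∈ (chartAt E x).target :=
    (chartAt E x).open_target.mem_nhds (mem_chart_target E x)
  have h2 : HasFDerivAt (Subtype.val ∘ (chartAt E x).symm) (ContinuousLinearMap.id ℂ E) (x : E) := by
    refine h.congr_of_eventuallyEq ?_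
    filter_upwards [h1] with z hz
    exact OpenPartialHomeomorph.subtypeRestr_symm_apply (OpenPartialHomeomorph.refl E) ⟨x⟩ hz
  simp only [mfld_simps]
  exact h2.hasFDerivWithinAt

lemma mfderiv_val {E : Type*} [NormedAddCommGroup E] [NormedSpace ℂ E] (U : Opens E) (x : U) :
    mfderiv 𝓘(ℂ, E) 𝓘(ℂ, E) (Subtype.val : U → E) x = (ContinuousLinearMap.id ℂ E) :=
  (hasMFDerivAt_val U x).mfderiv

/-- The projection to the disc. -/
noncomputable def piT : Quot.Q OmT Gam → ℂ :=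
  Quotient.lift (fun x : OmT => x.1.1) (by
    rintro a b ⟨g, rfl⟩
    rfl)

lemma piT_comp : piT ∘ Quot.P OmT Gam = fun x : OmT => x.1.1 := rfl

instance : IsManifold 𝓘(ℂ, ℂ × ℂ × ℂ × ℂ) ω (Quot.Q OmT Gam) :=
  Quot.isManifold (M := OmT) (G := Gam) OmT_contMDiff

instance (t : ℂ) : IsManifold 𝓘(ℂ, ℂ × ℂ × ℂ) ω (Quot.Q (Om t) Gam) :=
  Quot.isManifold (M := Om t) (G := Gam) (Om_contMDiff t)

lemma piT_contMDiff : ContMDiff 𝓘(ℂ, ℂ × ℂ × ℂ × ℂ) 𝓘(ℂ, ℂ) ω piT := by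
  apply Quot.contMDiff_of_comp_P OmT_contMDiff
  rw [piT_comp]
  have : (fun x : OmT => x.1.1) = Prod.fst ∘ (Subtype.val : OmT → ℂ × ℂ × ℂ × ℂ) := rfl
  rw [this]
  have h1 : ContMDiff 𝓘(ℂ, ℂ × ℂ × ℂ × ℂ) 𝓘(ℂ, ℂ) ω (Prod.fst : ℂ × ℂ × ℂ × ℂ → ℂ) :=
    contDiff_fst.contMDiff
  exact h1.comp contMDiff_subtype_val

lemma piT_submersion (x : Quot.Q OmT Gam) :
    Function.Surjective (mfderiv 𝓘(ℂ, ℂ × ℂ × ℂ × ℂ) 𝓘(ℂ, ℂ) piT x) := by
  obtain ⟨w, rfl⟩ := Quot.P_surj (G := Gam) (M := OmT) x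
  have h1 : mfderiv 𝓘(ℂ, ℂ × ℂ × ℂ × ℂ) 𝓘(ℂ, ℂ) (piT ∘ Quot.P OmT Gam) w =
      (mfderiv 𝓘(ℂ, ℂ × ℂ × ℂ × ℂ) 𝓘(ℂ, ℂ) piT (Quot.P OmT Gam w)).comp
        (mfderiv 𝓘(ℂ, ℂ × ℂ × ℂ × ℂ) 𝓘(ℂ, ℂ × ℂ × ℂ × ℂ) (Quot.P OmT Gam) w) :=
    mfderiv_comp w ((piT_contMDiff _).mdifferentiableAt (by simp))
      ((Quot.contMDiff_P OmT_contMDiff w).mdifferentiableAt (by simp))
  have h2 : mfderiv 𝓘(ℂ, ℂ × ℂ × ℂ × ℂ) 𝓘(ℂ, ℂ) (Prod.fst ∘ (Subtype.val : OmT → ℂ × ℂ × ℂ × ℂ)) w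
      = ContinuousLinearMap.fst ℂ ℂ (ℂ × ℂ × ℂ) := by
    have := mfderiv_comp w (I' := 𝓘(ℂ, ℂ × ℂ × ℂ × ℂ)) (I'' := 𝓘(ℂ, ℂ))
      (g := (Prod.fst : ℂ × ℂ × ℂ × ℂ → ℂ)) (f := (Subtype.val : OmT → ℂ × ℂ × ℂ × ℂ))
      (differentiableAt_fst.mdifferentiableAt) (hasMFDerivAt_val OmT w).mdifferentiableAt
    rw [this, mfderiv_val, mfderiv_eq_fderiv, fderiv_fst]
    rfl
  intro c
  refine ⟨(mfderiv 𝓘(ℂ, ℂ × ℂ × ℂ × ℂ) 𝓘(ℂ, ℂ × ℂ × ℂ × ℂ) (Quot.P OmT Gam) w)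
    ((c, 0, 0, 0) : ℂ × ℂ × ℂ × ℂ), ?_⟩
  have h3 := congrArg (fun L : (ℂ × ℂ × ℂ × ℂ) →L[ℂ] ℂ => L (c, 0, 0, 0)) (h1.symm.trans h2)
  exact h3

/-- The scaling element of `Gam`. -/
noncomputable def scal (k : ℤ) : Gam := Gam.mk' (k, 0, 0, 0, 0)

/-- The translation element of `Gam`. -/
noncomputable def trans (a b a' b' : ℤ) : Gam := Gam.mk' (0, a, b, a', b')

lemma approx (p q : ℝ) : ∃ a b : ℤ, |p + (a + b * lam⁻¹)| ≤ 2 ∧ |q + (a + b * lam)| ≤ 4 := by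
  have h5 : (2:ℝ) ≤ Real.sqrt 5 := Real.le_sqrt_of_sq_le (by norm_num)
  have h5' : Real.sqrt 5 ≤ 3 := Real.sqrt_le_iff.2 (by norm_num)
  have h1 : lam - lam⁻¹ = Real.sqrt 5 := by
    rw [lam_inv]; unfold lam; ring
  have hlam : lam ≤ 3 := by unfold lam; linarith
  have hli : 0 < lam⁻¹ := inv_pos.2 lam_pos
  have hli1 : lam⁻¹ ≤ 1 := inv_le_one_of_one_le₀ one_lt_lam.le
  obtain ⟨y, hy⟩ : ∃ y : ℝ, y * Real.sqrt 5 = p - q := ⟨(p - q) / Real.sqrt 5, by field_simp⟩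
  obtain ⟨x, hx⟩ : ∃ x : ℝ, x = -p - y * lam⁻¹ := ⟨_, rfl⟩
  have e1 : p + (x + y * lam⁻¹) = 0 := by rw [hx]; ring
  have e2 : q + (x + y * lam) = 0 := by
    rw [hx]
    rw [← h1] at hy
    linarith
  have ha := abs_sub_round x
  have hb := abs_sub_round y
  refine ⟨round x, round y, ?_, ?_⟩
  · have : p + ((round x : ℝ) + (round y : ℝ) * lam⁻¹) = -(x - round x) - (y - round y) * lam⁻¹ := by
      linear_combination e1
    rw [this]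
    calc |-(x - round x) - (y - round y) * lam⁻¹| ≤ |-(x - round x)| + |(y - round y) * lam⁻¹| :=
          abs_sub _ _
      _ = |x - round x| + |y - round y| * lam⁻¹ := by rw [abs_neg, abs_mul, abs_of_pos hli]
      _ ≤ 1 / 2 + 1 / 2 * 1 := by gcongr
      _ ≤ 2 := by norm_num
  · have : q + ((round x : ℝ) + (round y : ℝ) * lam) = -(x - round x) - (y - round y) * lam := by
      linear_combination e2
    rw [this]
    calc |-(x - round x) - (y - round y) * lam| ≤ |-(x - round x)| + |(y - round y) * lam| :=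
          abs_sub _ _
      _ = |x - round x| + |y - round y| * lam := by rw [abs_neg, abs_mul, abs_of_pos lam_pos]
      _ ≤ 1 / 2 + 1 / 2 * 3 := by gcongr; exact lam_pos.le
      _ ≤ 4 := by norm_num

/-- A fundamental domain. -/
lemma EquivCoord.fund {X : Type*} [TopologicalSpace X] [MulAction Aff X] (S : EquivCoord X) (x : X) :
    ∃ g : Gam, 1 ≤ S.r (g • x) ∧ S.r (g • x) ≤ lam ∧ ‖S.u (g • x)‖ ≤ 10 ∧ ‖S.v (g • x)‖ ≤ 10 := by
  obtain ⟨n, hn1, hn2⟩ := exists_mem_Ico_zpow (S.r_pos x) one_lt_lam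
  set y := scal (-n) • x with hy
  have hr : S.r y = lam ^ (-n) * S.r x := S.r_smul (scal (-n) : Gam) x
  have hln : 0 < lam ^ n := zpow_pos lam_pos n
  have hr1 : 1 ≤ S.r y := by
    rw [hr, zpow_neg, inv_mul_eq_div, le_div_iff₀ hln]; linarith
  have hr2 : S.r y ≤ lam := by
    rw [hr, zpow_neg, inv_mul_eq_div, div_le_iff₀ hln]
    rw [zpow_add_one₀ lam_ne_zero] at hn2
    linarith
  obtain ⟨a, b, h1, h2⟩ := approx (S.u y).re (S.v y).re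
  obtain ⟨a', b', h3, h4⟩ := approx (S.u y).im (S.v y).im
  refine ⟨trans a b a' b' * scal (-n), ?_⟩
  have e0 : (trans a b a' b' * scal (-n)) • x = trans a b a' b' • y := by rw [hy, mul_smul]
  rw [e0]
  have er : S.r (trans a b a' b' • y) = lam ^ (0:ℤ) * S.r y := S.r_smul (trans a b a' b' : Gam) y
  have eu : S.u (trans a b a' b' • y) = ((lam ^ (0:ℤ) : ℝ) : ℂ)⁻¹ * S.u y +
    ((a + b * (lam : ℂ)⁻¹) + (a' + b' * (lam : ℂ)⁻¹) * Complex.I) :=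
    S.u_smul (trans a b a' b' : Gam) y
  have ev : S.v (trans a b a' b' • y) = ((lam ^ (0:ℤ) : ℝ) : ℂ) * S.v y +
    ((a + b * (lam : ℂ)) + (a' + b' * (lam : ℂ)) * Complex.I) :=
    S.v_smul (trans a b a' b' : Gam) y
  simp only [zpow_zero, one_mul, Complex.ofReal_one, inv_one] at er eu ev
  refine ⟨by rw [er]; exact hr1, by rw [er]; exact hr2, ?_, ?_⟩
  · have hre : (S.u (trans a b a' b' • y)).re = (S.u y).re + (a + b * lam⁻¹) := by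
      rw [eu, ← Complex.ofReal_inv]; simp
    have him : (S.u (trans a b a' b' • y)).im = (S.u y).im + (a' + b' * lam⁻¹) := by
      rw [eu, ← Complex.ofReal_inv]; simp
    calc ‖S.u (trans a b a' b' • y)‖ ≤ |(S.u (trans a b a' b' • y)).re| +
          |(S.u (trans a b a' b' • y)).im| := Complex.norm_le_abs_re_add_abs_im _
      _ ≤ 10 := by rw [hre, him]; linarith
  · have hre : (S.v (trans a b a' b' • y)).re = (S.v y).re + (a + b * lam) := by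
      rw [ev]; simp
    have him : (S.v (trans a b a' b' • y)).im = (S.v y).im + (a' + b' * lam) := by
      rw [ev]; simp
    calc ‖S.v (trans a b a' b' • y)‖ ≤ |(S.v (trans a b a' b' • y)).re| +
          |(S.v (trans a b a' b' • y)).im| := Complex.norm_le_abs_re_add_abs_im _
      _ ≤ 10 := by rw [hre, him]; linarith

/-- The compact set of points of `Ω` over `K` in the fundamental domain. -/
def FT (K : Set ℂ) : Set (ℂ × ℂ × ℂ × ℂ) :=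
  {x | x.1 ∈ K ∧ 1 ≤ ‖x.2.1 + x.1 * conj x.2.2.2‖ ∧ ‖x.2.1 + x.1 * conj x.2.2.2‖ ≤ lam ∧
    ‖x.2.2.1‖ ≤ 10 ∧ ‖x.2.2.2‖ ≤ 10}

lemma FT_compact {K : Set ℂ} (hK : IsCompact K) (hK1 : K ⊆ Metric.ball 0 1) :
    IsCompact (FT K) := by
  have hbig : IsCompact (K ×ˢ (Metric.closedBall (0:ℂ) 20 ×ˢ (Metric.closedBall (0:ℂ) 10 ×ˢ
      Metric.closedBall (0:ℂ) 10))) :=
    hK.prod ((isCompact_closedBall _ _).prod ((isCompact_closedBall _ _).prod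
      (isCompact_closedBall _ _)))
  refine hbig.of_isClosed_subset ?_ ?_
  · have h1 : IsClosed {x : ℂ × ℂ × ℂ × ℂ | x.1 ∈ K} := hK.isClosed.preimage (by fun_prop)
    have h2 : IsClosed {x : ℂ × ℂ × ℂ × ℂ | 1 ≤ ‖x.2.1 + x.1 * conj x.2.2.2‖} :=
      isClosed_le (by fun_prop) (by fun_prop)
    have h3 : IsClosed {x : ℂ × ℂ × ℂ × ℂ | ‖x.2.1 + x.1 * conj x.2.2.2‖ ≤ lam} :=
      isClosed_le (by fun_prop) (by fun_prop)
    have h4 : IsClosed {x : ℂ × ℂ × ℂ × ℂ | ‖x.2.2.1‖ ≤ 10} :=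
      isClosed_le (by fun_prop) (by fun_prop)
    have h5 : IsClosed {x : ℂ × ℂ × ℂ × ℂ | ‖x.2.2.2‖ ≤ 10} :=
      isClosed_le (by fun_prop) (by fun_prop)
    exact h1.inter (h2.inter (h3.inter (h4.inter h5)))
  · rintro x ⟨h1, h2, h3, h4, h5⟩
    have hlam : lam ≤ 3 := by
      have h5' : Real.sqrt 5 ≤ 3 := Real.sqrt_le_iff.2 (by norm_num)
      unfold lam; linarith
    have hx1 : ‖x.1‖ < 1 := by simpa using hK1 h1
    refine ⟨h1, ?_, by simpa using h4, by simpa using h5⟩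
    rw [mem_closedBall_zero_iff]
    have : x.2.1 = (x.2.1 + x.1 * conj x.2.2.2) - x.1 * conj x.2.2.2 := by ring
    rw [this]
    calc ‖(x.2.1 + x.1 * conj x.2.2.2) - x.1 * conj x.2.2.2‖
        ≤ ‖x.2.1 + x.1 * conj x.2.2.2‖ + ‖x.1 * conj x.2.2.2‖ := norm_sub_le _ _
      _ = ‖x.2.1 + x.1 * conj x.2.2.2‖ + ‖x.1‖ * ‖x.2.2.2‖ := by
          rw [norm_mul, Complex.norm_conj]
      _ ≤ lam + 1 * 10 := by gcongr
      _ ≤ 20 := by linarith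

lemma compact_lift {X : Type*} [TopologicalSpace X] (U : Set X) {S : Set X} (hS : IsCompact S)
    (h : S ⊆ U) : IsCompact ((Subtype.val : U → X) ⁻¹' S) := by
  rw [Subtype.isCompact_iff, Subtype.image_preimage_coe, inter_eq_self_of_subset_right h]
  exact hS

lemma piT_proper (K : Set ℂ) (hK1 : K ⊆ Metric.ball 0 1) (hK : IsCompact K) :
    IsCompact (piT ⁻¹' K) := by
  have hsub : FT K ⊆ (OmT : Set (ℂ × ℂ × ℂ × ℂ)) := by
    rintro x ⟨h1, h2, -⟩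
    refine ⟨by simpa using hK1 h1, ?_⟩
    intro h0
    rw [h0, norm_zero] at h2
    linarith
  have h := (compact_lift (OmT : Set _) (FT_compact hK hK1) hsub).image
    (Quot.P_continuous (G := Gam) (M := OmT))
  convert h using 1
  ext q
  constructor
  · intro hq
    obtain ⟨x, rfl⟩ := Quot.P_surj (G := Gam) (M := OmT) q
    obtain ⟨g, hg⟩ := coordOmT.fund x
    refine ⟨g • x, ⟨?_, hg⟩, Quot.P_smul g x⟩
    exact hq
  · rintro ⟨x, hx, rfl⟩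
    exact hx.1

lemma piT_range : range piT = Metric.ball 0 1 := by
  ext t
  constructor
  · rintro ⟨q, rfl⟩
    obtain ⟨x, rfl⟩ := Quot.P_surj (G := Gam) (M := OmT) q
    rw [mem_ball_zero_iff]
    exact x.2.1
  · intro ht
    rw [mem_ball_zero_iff] at ht
    exact ⟨Quot.P OmT Gam ⟨(t, 1, 0, 0), ht, by simp⟩, rfl⟩

/-- The inclusion `Ω_t → Ω`. -/
def inc (t : Metric.ball (0:ℂ) 1) (w : Om t) : OmT :=
  ⟨(t, w.1), mem_ball_zero_iff.1 t.2, w.2⟩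

/-- The inclusion `X_t → Ω / Γ`. -/
noncomputable def iotaT (t : Metric.ball (0:ℂ) 1) : Quot.Q (Om t) Gam → Quot.Q OmT Gam :=
  Quotient.lift (fun w : Om t => Quot.P OmT Gam (inc t w)) (by
    rintro a b ⟨g, rfl⟩
    change Quot.P OmT Gam (inc t (g • b)) = Quot.P OmT Gam (inc t b)
    rw [Quot.P_eq_iff]
    exact ⟨g, rfl⟩)

lemma iotaT_P (t : Metric.ball (0:ℂ) 1) (w : Om t) :
    iotaT t (Quot.P (Om t) Gam w) = Quot.P OmT Gam (inc t w) := rfl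

lemma inc_contMDiff (t : Metric.ball (0:ℂ) 1) :
    ContMDiff 𝓘(ℂ, ℂ × ℂ × ℂ) 𝓘(ℂ, ℂ × ℂ × ℂ × ℂ) ω (inc t) := by
  rw [← contMDiff_subtypeVal_comp_iff]
  have : (Subtype.val ∘ inc t) = (fun w : ℂ × ℂ × ℂ => ((t : ℂ), w)) ∘ Subtype.val := rfl
  rw [this]
  have h1 : ContDiff ℂ ω (fun w : ℂ × ℂ × ℂ => ((t : ℂ), w)) := by fun_prop
  exact h1.contMDiff.comp contMDiff_subtype_val

lemma iotaT_contMDiff (t : Metric.ball (0:ℂ) 1) :
    ContMDiff 𝓘(ℂ, ℂ × ℂ × ℂ) 𝓘(ℂ, ℂ × ℂ × ℂ × ℂ) ω (iotaT t) := by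
  apply Quot.contMDiff_of_comp_P (Om_contMDiff t)
  exact (Quot.contMDiff_P OmT_contMDiff).comp (inc_contMDiff t)

lemma inc_mfderiv_injective (t : Metric.ball (0:ℂ) 1) (w : Om t) :
    Function.Injective (mfderiv 𝓘(ℂ, ℂ × ℂ × ℂ) 𝓘(ℂ, ℂ × ℂ × ℂ × ℂ) (inc t) w) := by
  have h1 : mfderiv 𝓘(ℂ, ℂ × ℂ × ℂ) 𝓘(ℂ, ℂ × ℂ × ℂ) (Prod.snd ∘ (Subtype.val ∘ inc t)) w =
      ContinuousLinearMap.id ℂ (ℂ × ℂ × ℂ) := mfderiv_val (Om t) w
  have hinc : MDifferentiableAt 𝓘(ℂ, ℂ × ℂ × ℂ) 𝓘(ℂ, ℂ × ℂ × ℂ × ℂ) (inc t) w :=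
    (inc_contMDiff t w).mdifferentiableAt (by simp)
  have hval : MDifferentiableAt 𝓘(ℂ, ℂ × ℂ × ℂ × ℂ) 𝓘(ℂ, ℂ × ℂ × ℂ × ℂ)
    (Subtype.val : OmT → ℂ × ℂ × ℂ × ℂ) (inc t w) := (hasMFDerivAt_val OmT _).mdifferentiableAt
  have hsnd : MDifferentiableAt 𝓘(ℂ, ℂ × ℂ × ℂ × ℂ) 𝓘(ℂ, ℂ × ℂ × ℂ)
    (Prod.snd : ℂ × ℂ × ℂ × ℂ → ℂ × ℂ × ℂ) (inc t w).1 := differentiableAt_snd.mdifferentiableAt
  have h2 := mfderiv_comp w (hsnd.comp _ hval) hinc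
  have h3 : Prod.snd ∘ (Subtype.val ∘ inc t) = (Prod.snd ∘ Subtype.val) ∘ inc t := rfl
  rw [h3, h2] at h1
  intro a b hab
  have h4 := congrArg (fun L : (ℂ × ℂ × ℂ) →L[ℂ] (ℂ × ℂ × ℂ) => L a) h1
  have h5 := congrArg (fun L : (ℂ × ℂ × ℂ) →L[ℂ] (ℂ × ℂ × ℂ) => L b) h1
  have h6 := congrArg (mfderiv 𝓘(ℂ, ℂ × ℂ × ℂ × ℂ) 𝓘(ℂ, ℂ × ℂ × ℂ)
    (Prod.snd ∘ (Subtype.val : OmT → ℂ × ℂ × ℂ × ℂ)) (inc t w)) hab
  exact (h4.symm.trans h6).trans h5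

lemma iotaT_immersion (t : Metric.ball (0:ℂ) 1) (x : Quot.Q (Om t) Gam) :
    Function.Injective (mfderiv 𝓘(ℂ, ℂ × ℂ × ℂ) 𝓘(ℂ, ℂ × ℂ × ℂ × ℂ) (iotaT t) x) := by
  obtain ⟨w, rfl⟩ := Quot.P_surj (G := Gam) (M := Om t) x
  have hP : MDifferentiableAt 𝓘(ℂ, ℂ × ℂ × ℂ) 𝓘(ℂ, ℂ × ℂ × ℂ) (Quot.P (Om t) Gam) w :=
    (Quot.contMDiff_P (Om_contMDiff t) w).mdifferentiableAt (by simp)
  have hPT : MDifferentiableAt 𝓘(ℂ, ℂ × ℂ × ℂ × ℂ) 𝓘(ℂ, ℂ × ℂ × ℂ × ℂ) (Quot.P OmT Gam) (inc t w) :=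
    (Quot.contMDiff_P OmT_contMDiff _).mdifferentiableAt (by simp)
  have hinc : MDifferentiableAt 𝓘(ℂ, ℂ × ℂ × ℂ) 𝓘(ℂ, ℂ × ℂ × ℂ × ℂ) (inc t) w :=
    (inc_contMDiff t w).mdifferentiableAt (by simp)
  have hiota : MDifferentiableAt 𝓘(ℂ, ℂ × ℂ × ℂ) 𝓘(ℂ, ℂ × ℂ × ℂ × ℂ) (iotaT t)
      (Quot.P (Om t) Gam w) := (iotaT_contMDiff t _).mdifferentiableAt (by simp)
  have h1 := mfderiv_comp w hiota hP
  have h2 := mfderiv_comp w hPT hinc
  have h3 : iotaT t ∘ Quot.P (Om t) Gam = Quot.P OmT Gam ∘ inc t := rfl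
  rw [h3, h2] at h1
  intro a b hab
  obtain ⟨a', rfl⟩ := Quot.mfderiv_P_surjective (Om_contMDiff t) w a
  obtain ⟨b', rfl⟩ := Quot.mfderiv_P_surjective (Om_contMDiff t) w b
  have h4 := congrArg (fun L : (ℂ × ℂ × ℂ) →L[ℂ] (ℂ × ℂ × ℂ × ℂ) => L a') h1
  have h5 := congrArg (fun L : (ℂ × ℂ × ℂ) →L[ℂ] (ℂ × ℂ × ℂ × ℂ) => L b') h1
  have h6 : a' = b' := by
    apply inc_mfderiv_injective t w
    apply Quot.mfderiv_P_injective OmT_contMDiff (inc t w)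
    exact (h4.trans hab).trans h5.symm
  rw [h6]

lemma iotaT_injective (t : Metric.ball (0:ℂ) 1) : Function.Injective (iotaT t) := by
  intro x y hxy
  obtain ⟨w, rfl⟩ := Quot.P_surj (G := Gam) (M := Om t) x
  obtain ⟨z, rfl⟩ := Quot.P_surj (G := Gam) (M := Om t) y
  rw [iotaT_P, iotaT_P, Quot.P_eq_iff] at hxy
  obtain ⟨g, hg⟩ := hxy
  rw [Quot.P_eq_iff]
  refine ⟨g, Subtype.ext ?_⟩
  exact congrArg (fun x : OmT => x.1.2) hg

lemma iotaT_range (t : Metric.ball (0:ℂ) 1) : range (iotaT t) = piT ⁻¹' {(t : ℂ)} := by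
  ext q
  constructor
  · rintro ⟨x, rfl⟩
    obtain ⟨w, rfl⟩ := Quot.P_surj (G := Gam) (M := Om t) x
    rfl
  · intro hq
    obtain ⟨⟨⟨s, z⟩, hs, hz⟩, rfl⟩ := Quot.P_surj (G := Gam) (M := OmT) q
    have h1 : s = t := hq
    subst h1
    exact ⟨Quot.P _ Gam ⟨z, hz⟩, rfl⟩

lemma XX_compact (t : Metric.ball (0:ℂ) 1) : CompactSpace (Quot.Q (Om t) Gam) := by
  have h : IsCompact (piT ⁻¹' {(t : ℂ)}) := piT_proper _ (by simp) isCompact_singleton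
  have hsub : (fun w : ℂ × ℂ × ℂ => ((t:ℂ), w)) ⁻¹' FT {(t:ℂ)} ⊆ (Om t : Set _) := by
    rintro x ⟨h1, h2, -⟩
    intro h0
    change 1 ≤ ‖x.1 + t * conj x.2.2‖ at h2
    rw [h0, norm_zero] at h2
    linarith
  have hF : IsCompact ((fun w : ℂ × ℂ × ℂ => ((t:ℂ), w)) ⁻¹' FT {(t:ℂ)}) := by
    have hc := FT_compact (K := {(t:ℂ)}) isCompact_singleton (by simp)
    have := hc.image (continuous_snd (X := ℂ) (Y := ℂ × ℂ × ℂ))
    convert this using 1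
    ext w
    constructor
    · intro hw; exact ⟨_, hw, rfl⟩
    · rintro ⟨⟨s, w'⟩, hw, rfl⟩
      have h1 : s = t := hw.1
      subst h1
      exact hw
  have h := (compact_lift (Om t : Set _) hF hsub).image
    (Quot.P_continuous (G := Gam) (M := Om t))
  constructor
  convert h using 1
  ext q
  refine ⟨fun _ => ?_, fun _ => trivial⟩
  obtain ⟨x, rfl⟩ := Quot.P_surj (G := Gam) (M := Om t) q
  obtain ⟨g, hg⟩ := (coordOm t).fund x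
  exact ⟨g • x, ⟨rfl, hg⟩, Quot.P_smul g x⟩

instance (t : ℂ) : ConnectedSpace (Om t) := by
  have h : IsConnected ((fun z : ℂ × ℂ × ℂ => (Complex.exp z.1 - t * conj z.2.2, z.2.1, z.2.2)) ''
      univ) := isConnected_univ.image _ (by fun_prop)
  have h2 : ((fun z : ℂ × ℂ × ℂ => (Complex.exp z.1 - t * conj z.2.2, z.2.1, z.2.2)) '' univ) =
      (Om t : Set (ℂ × ℂ × ℂ)) := by
    ext w
    constructor
    · rintro ⟨z, -, rfl⟩
      change Complex.exp z.1 - t * conj z.2.2 + t * conj z.2.2 ≠ 0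
      rw [sub_add_cancel]
      exact Complex.exp_ne_zero _
    · intro hw
      obtain ⟨z, hz⟩ : ∃ z, Complex.exp z = w.1 + t * conj w.2.2 :=
        ⟨Complex.log (w.1 + t * conj w.2.2), Complex.exp_log hw⟩
      refine ⟨(z, w.2.1, w.2.2), trivial, ?_⟩
      simp [hz]
  rw [h2] at h
  exact isConnected_iff_connectedSpace.1 h

instance (t : ℂ) : ConnectedSpace (Quot.Q (Om t) Gam) :=
  (Quot.P_surj (G := Gam) (M := Om t)).connectedSpace Quot.P_continuous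

/-- The deformation. -/
noncomputable def Defo : Deformation (ℂ × ℂ × ℂ) (ℂ × ℂ × ℂ × ℂ) where
  total := TT
  π := piT
  π_hol := piT_contMDiff.mdifferentiable (by simp)
  π_submersion := piT_submersion
  π_range := piT_range
  π_proper := piT_proper
  fibre t := XX t
  ι := iotaT
  ι_hol t := (iotaT_contMDiff t).mdifferentiable (by simp)
  ι_immersion := iotaT_immersion
  ι_embedding t := by
    have := XX_compact t
    have hT2 : T2Space (Quot.Q OmT Gam) := inferInstance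
    have hc : Continuous (iotaT t) := (iotaT_contMDiff t).continuous
    exact (hc.isClosedEmbedding (iotaT_injective t)).isEmbedding
  ι_range := iotaT_range
  fibre_compact := XX_compact
  fibre_connected t := (inferInstance : ConnectedSpace (Quot.Q (Om t) Gam))

end Pool.Agent.Lib.MP_55bc5f_an
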