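import Mathlib
import Pool.Agent.Lib.Osgood
import Pool.Agent.Lib.MP_55bc5f_an.Deform

/-!
# The domain `{u + t conj v ≠ 0}` of `ℂ²`: its envelope of holomorphy is `ℂ²`
-/

set_option autoImplicit false

open scoped Manifold ContDiff Topology ComplexConjugate
open Set Filter TopologicalSpace Metric

namespace Pool.Agent.Lib.MP_55bc5f_an

section opens

variable {V : Type} [NormedAddCommGroup V] [NormedSpace ℂ V]

omit [NormedSpace ℂ V] in
lemma isRiemannDomain_opens (U : Opens V) [ConnectedSpace U] :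
    IsRiemannDomain (Subtype.val : U → V) :=
  ⟨inferInstance, inferInstance, U.isOpen.isOpenEmbedding_subtypeVal.isLocalHomeomorph⟩

lemma isRiemannDomain_id : IsRiemannDomain (id : V → V) := by
  have : PathConnectedSpace V := by
    let _ : NormedSpace ℝ V := NormedSpace.restrictScalars ℝ ℂ V
    infer_instance
  exact ⟨inferInstance, inferInstance, (Homeomorph.refl V).isLocalHomeomorph⟩

/-- A holomorphic function on an open subset, as a function on the whole space. -/
lemma exists_differentiableOn_of_hol (U : Opens V) {h : U → ℂ}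
    (hh : ∀ x, HolFunAt (Subtype.val : U → V) h x) :
    ∃ h' : V → ℂ, DifferentiableOn ℂ h' U ∧ ∀ x : U, h x = h' x := by
  classical
  refine ⟨fun z => if hz : z ∈ U then h ⟨z, hz⟩ else 0, ?_, fun x => by simp⟩
  intro z hz
  obtain ⟨g, hg1, hg2⟩ := hh ⟨z, hz⟩
  have hg3 : ∀ᶠ y in 𝓝 z, (if hy : y ∈ U then h ⟨y, hy⟩ else 0) = g y := by
    have h1 : ∀ᶠ y in map (Subtype.val : U → V) (𝓝 ⟨z, hz⟩),
        (if hy : y ∈ U then h ⟨y, hy⟩ else 0) = g y := by
      rw [eventually_map]
      filter_upwards [hg2] with y hy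
      rw [dif_pos y.2]
      exact hy
    have h2 : map (Subtype.val : U → V) (𝓝 ⟨z, hz⟩) = 𝓝 z :=
      map_nhds_subtype_coe_eq_nhds hz (U.isOpen.mem_nhds hz)
    rwa [h2] at h1
  exact (hg1.self_of_nhds.congr_of_eventuallyEq hg3).differentiableWithinAt

lemma holFunAt_id_of_differentiable {H : V → ℂ} (hH : Differentiable ℂ H) (x : V) :
    HolFunAt (id : V → V) H x :=
  ⟨H, Eventually.of_forall hH, EventuallyEq.refl _ _⟩

end opens

/-- The domain `{(u, v) ∈ ℂ² : u + t conj v ≠ 0}`. -/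
def Dt (t : ℂ) : Opens (ℂ × ℂ) :=
  ⟨{z | z.1 + t * conj z.2 ≠ 0}, isOpen_ne_fun (by fun_prop) (by fun_prop)⟩

instance (t : ℂ) : ConnectedSpace (Dt t) := by
  have h : IsConnected ((fun z : ℂ × ℂ => (Complex.exp z.1 - t * conj z.2, z.2)) ''
      univ) := isConnected_univ.image _ (by fun_prop)
  have h2 : ((fun z : ℂ × ℂ => (Complex.exp z.1 - t * conj z.2, z.2)) '' univ) =
      (Dt t : Set (ℂ × ℂ)) := by
    ext w
    constructor
    · rintro ⟨z, -, rfl⟩
      change Complex.exp z.1 - t * conj z.2 + t * conj z.2 ≠ 0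
      rw [sub_add_cancel]
      exact Complex.exp_ne_zero _
    · intro hw
      obtain ⟨z, hz⟩ : ∃ z, Complex.exp z = w.1 + t * conj w.2 :=
        ⟨Complex.log (w.1 + t * conj w.2), Complex.exp_log hw⟩
      refine ⟨(z, w.2), trivial, ?_⟩
      simp [hz]
  rw [h2] at h
  exact isConnected_iff_connectedSpace.1 h

/-- The defining function. -/
noncomputable def tau (t : ℂ) (z : ℂ × ℂ) : ℂ := z.1 + t * conj z.2

/-- The analytic discs. -/
noncomputable def disc (t s : ℂ) : ℂ × ℂ := (-t * s + t / 2 * s ^ 2, s)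

lemma tau_disc (t : ℂ) (z : ℂ × ℂ) (s : ℂ) :
    tau t (z + disc t s) = tau t z + t * (s ^ 2 / 2 - (s - conj s)) := by
  simp only [tau, disc, Prod.fst_add, Prod.snd_add, map_add]
  ring

lemma disc_bound {s : ℂ} (hs : ‖s‖ = 1) : 1 / 4 ≤ ‖s ^ 2 / 2 - (s - conj s)‖ := by
  have h1 : s.re ^ 2 + s.im ^ 2 = 1 := by
    have := Complex.sq_norm s
    rw [hs, Complex.normSq_apply] at this
    nlinarith
  have hre : (s ^ 2 / 2 - (s - conj s)).re = (s.re ^ 2 - s.im ^ 2) / 2 := by
    simp [pow_two, Complex.sub_re, Complex.mul_re]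
  have him : (s ^ 2 / 2 - (s - conj s)).im = s.im * (s.re - 2) := by
    simp [pow_two, Complex.sub_im, Complex.mul_im]
    ring
  by_cases hc : |s.im| ≤ 1 / 2
  · have h2 : s.im ^ 2 ≤ 1 / 4 := by
      rw [← sq_abs]
      nlinarith [abs_nonneg s.im]
    calc (1:ℝ) / 4 ≤ |(s ^ 2 / 2 - (s - conj s)).re| := by
          rw [hre]
          exact le_trans (by nlinarith) (le_abs_self _)
      _ ≤ _ := Complex.abs_re_le_norm _
  · push Not at hc
    have h3 : s.re ≤ 1 := by nlinarith [sq_nonneg s.im]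
    calc (1:ℝ) / 4 ≤ |(s ^ 2 / 2 - (s - conj s)).im| := by
          rw [him, abs_mul, abs_of_nonpos (by linarith : s.re - 2 ≤ 0)]
          nlinarith
      _ ≤ _ := Complex.abs_im_le_norm _

lemma disc_ne {s : ℂ} {r : ℝ} (hr : 0 < r) (hs : ‖s‖ ≤ 1) : (r : ℂ) + (s ^ 2 / 2 - (s - conj s)) ≠ 0 := by
  intro h
  have hre : ((r : ℂ) + (s ^ 2 / 2 - (s - conj s))).re = r + (s.re ^ 2 - s.im ^ 2) / 2 := by
    simp [pow_two, Complex.sub_re, Complex.mul_re]
  have him : ((r : ℂ) + (s ^ 2 / 2 - (s - conj s))).im = s.im * (s.re - 2) := by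
    simp [pow_two, Complex.sub_im, Complex.mul_im]
    ring
  rw [h] at hre him
  have h1 : s.re ≤ 1 := (Complex.re_le_norm s).trans hs
  have h2 : s.im = 0 := by
    rcases mul_eq_zero.1 him.symm with h3 | h3
    · exact h3
    · linarith
  rw [h2] at hre
  simp at hre
  nlinarith [sq_nonneg s.re]

/-- The tube around `Σ` on which the Cauchy integral over the discs is defined. -/
def tube (t : ℂ) : Set (ℂ × ℂ) := {z | ‖tau t z‖ < ‖t‖ / 4}

lemma tau_continuous (t : ℂ) : Continuous (tau t) := by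
  unfold tau; fun_prop

lemma tube_isOpen (t : ℂ) : IsOpen (tube t) :=
  isOpen_lt (tau_continuous t).norm continuous_const

lemma mem_Dt {t : ℂ} {z : ℂ × ℂ} : z ∈ Dt t ↔ tau t z ≠ 0 := Iff.rfl

lemma tube_inter_preconnected {t : ℂ} (ht : t ≠ 0) :
    IsPreconnected (tube t ∩ (Dt t : Set (ℂ × ℂ))) := by
  have h : IsPreconnected ((fun z : ℂ × ℂ => (t * Complex.exp z.1 - t * conj z.2, z.2)) ''
      ({z : ℂ | z.re < Real.log (1 / 4)} ×ˢ univ)) := by
    apply IsPreconnected.image
    · exact ((convex_halfSpace_re_lt _).isPreconnected).prod isPreconnected_univ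
    · fun_prop
  convert h using 1
  have hτ : ∀ z : ℂ × ℂ, tau t (t * Complex.exp z.1 - t * conj z.2, z.2) = t * Complex.exp z.1 := by
    intro z; simp [tau]
  ext w
  constructor
  · rintro ⟨h1, h2⟩
    have h2' : tau t w / t ≠ 0 := div_ne_zero h2 ht
    refine ⟨(Complex.log (tau t w / t), w.2), ⟨?_, trivial⟩, ?_⟩
    · change (Complex.log (tau t w / t)).re < _
      rw [Complex.log_re]
      apply Real.log_lt_log (norm_pos_iff.2 h2')
      rw [norm_div, div_lt_iff₀ (norm_pos_iff.2 ht)]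
      have : ‖tau t w‖ < ‖t‖ / 4 := h1
      linarith
    · simp only [Complex.exp_log h2']
      apply Prod.ext
      · simp only [tau]; field_simp; ring
      · rfl
  · rintro ⟨z, ⟨hz, -⟩, rfl⟩
    constructor
    · change ‖tau t _‖ < _
      rw [hτ, norm_mul, Complex.norm_exp]
      have h1 : Real.exp z.1.re < 1 / 4 := by
        have := Real.exp_lt_exp.2 (show z.1.re < Real.log (1/4) from hz)
        rwa [Real.exp_log (by norm_num)] at this
      have h2 : 0 < ‖t‖ := norm_pos_iff.2 ht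
      nlinarith
    · change tau t _ ≠ 0
      rw [hτ]
      exact mul_ne_zero ht (Complex.exp_ne_zero _)

/-- The Cauchy integral. -/
noncomputable def cauchyExt (t : ℂ) (h : ℂ × ℂ → ℂ) (z : ℂ × ℂ) : ℂ :=
  (2 * Real.pi * Complex.I : ℂ)⁻¹ • ∮ s in C(0, 1), s⁻¹ • h (z + disc t s)

lemma disc_continuous (t : ℂ) : Continuous (disc t) := by
  unfold disc; fun_prop

lemma cauchyExt_differentiableOn {t : ℂ} (ht : t ≠ 0) {h : ℂ × ℂ → ℂ}
    (hh : DifferentiableOn ℂ h (Dt t)) : DifferentiableOn ℂ (cauchyExt t h) (tube t) := by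
  intro z hz
  apply DifferentiableAt.differentiableWithinAt
  refine DifferentiableAt.const_smul (f := fun z => ∮ s in C(0, 1), s⁻¹ • h (z + disc t s)) ?_
    (2 * Real.pi * Complex.I : ℂ)⁻¹
  apply Osgood.differentiableAt_circleIntegral (Dt t).isOpen hh zero_le_one (k := fun s => s⁻¹)
  · apply ContinuousOn.inv₀ continuousOn_id
    intro s hs h0
    rw [mem_sphere_zero_iff_norm] at hs
    simp only [id] at h0
    rw [h0] at hs; simp at hs
  · exact (disc_continuous t).continuousOn
  · intro s hs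
    rw [mem_sphere_zero_iff_norm] at hs
    change tau t _ ≠ 0
    rw [tau_disc]
    intro h0
    have h1 : tau t z = -(t * (s ^ 2 / 2 - (s - conj s))) := by linear_combination h0
    have h2 : ‖tau t z‖ < ‖t‖ / 4 := hz
    rw [h1, norm_neg, norm_mul] at h2
    have h3 := disc_bound hs
    have h4 : 0 < ‖t‖ := norm_pos_iff.2 ht
    nlinarith

lemma disc_mem {t : ℂ} (ht : t ≠ 0) {z : ℂ × ℂ} {r : ℝ} (hr : 0 < r) (hz : tau t z = t * r) :
    ∀ s ∈ closedBall (0:ℂ) 1, z + disc t s ∈ Dt t := by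
  intro s hs
  rw [mem_closedBall_zero_iff] at hs
  change tau t _ ≠ 0
  rw [tau_disc, hz, ← mul_add]
  exact mul_ne_zero ht (disc_ne hr hs)

lemma cauchyExt_eq {t : ℂ} {h : ℂ × ℂ → ℂ}
    (hh : DifferentiableOn ℂ h (Dt t)) {z : ℂ × ℂ}
    (hD : ∀ s ∈ closedBall (0:ℂ) 1, z + disc t s ∈ Dt t) :
    cauchyExt t h z = h z := by
  have hdiff : ∀ s ∈ closedBall (0:ℂ) 1, DifferentiableAt ℂ (fun s => h (z + disc t s)) s := by
    intro s hs
    have h1 : DifferentiableAt ℂ h (z + disc t s) :=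
      (hh _ (hD s hs)).differentiableAt ((Dt t).isOpen.mem_nhds (hD s hs))
    have h2 : DifferentiableAt ℂ (fun s => z + disc t s) s := by
      unfold disc
      fun_prop
    exact DifferentiableAt.comp s h1 h2
  have hdc : DiffContOnCl ℂ (fun s => h (z + disc t s)) (ball 0 1) := by
    apply DifferentiableOn.diffContOnCl
    rw [closure_ball _ one_ne_zero]
    intro s hs
    exact (hdiff s hs).differentiableWithinAt
  have h3 := hdc.circleIntegral_sub_inv_smul (mem_ball_self one_pos)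
  simp only [sub_zero] at h3
  unfold cauchyExt
  rw [h3]
  have h4 : z + disc t 0 = z := by simp [disc]
  rw [h4, smul_smul, inv_mul_cancel₀, one_smul]
  simp [Real.pi_ne_zero]

/-- Every holomorphic function on `D_t` extends to `ℂ²`. -/
theorem extend_Dt {t : ℂ} (ht : t ≠ 0) {h : ℂ × ℂ → ℂ}
    (hh : DifferentiableOn ℂ h (Dt t)) :
    ∃ H : ℂ × ℂ → ℂ, Differentiable ℂ H ∧ ∀ z ∈ Dt t, H z = h z := by
  classical
  have hopen : IsOpen (tube t ∩ (Dt t : Set (ℂ × ℂ))) := (tube_isOpen t).inter (Dt t).isOpen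
  have ha1 := Osgood.analyticOnNhd hopen ((cauchyExt_differentiableOn ht hh).mono inter_subset_left)
  have ha2 := Osgood.analyticOnNhd hopen (hh.mono inter_subset_right)
  have htn : 0 < ‖t‖ := norm_pos_iff.2 ht
  have heq : EqOn (cauchyExt t h) h (tube t ∩ (Dt t : Set (ℂ × ℂ))) := by
    set z₀ : ℂ × ℂ := (t * ((1 / 8 : ℝ) : ℂ), 0) with hz₀
    have hτ : tau t z₀ = t * ((1 / 8 : ℝ) : ℂ) := by simp [tau, hz₀]
    have hmem : z₀ ∈ tube t ∩ (Dt t : Set (ℂ × ℂ)) := by
      constructor
      · change ‖tau t z₀‖ < _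
        rw [hτ, norm_mul, Complex.norm_real, Real.norm_eq_abs, abs_of_pos (by norm_num)]
        linarith
      · change tau t z₀ ≠ 0
        rw [hτ]
        exact mul_ne_zero ht (by norm_num)
    refine ha1.eqOn_of_preconnected_of_eventuallyEq ha2 (tube_inter_preconnected ht) hmem ?_
    have hev : ∀ᶠ z in 𝓝 z₀, ∀ s ∈ closedBall (0:ℂ) 1, z + disc t s ∈ Dt t := by
      apply (isCompact_closedBall (0:ℂ) 1).eventually_forall_of_forall_eventually
      intro s hs
      have hc : Continuous (fun y : (ℂ × ℂ) × ℂ => y.1 + disc t y.2) :=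
        continuous_fst.add ((disc_continuous t).comp continuous_snd)
      exact hc.continuousAt.eventually ((Dt t).isOpen.mem_nhds
        (disc_mem ht (by norm_num : (0:ℝ) < 1 / 8) hτ s hs))
    filter_upwards [hev] with z hz
    exact cauchyExt_eq hh hz
  refine ⟨fun z => if z ∈ Dt t then h z else cauchyExt t h z, ?_, fun z hz => by simp [hz]⟩
  intro z
  by_cases hz : z ∈ Dt t
  · have h1 : DifferentiableAt ℂ h z := (hh z hz).differentiableAt ((Dt t).isOpen.mem_nhds hz)
    refine h1.congr_of_eventuallyEq ?_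
    filter_upwards [(Dt t).isOpen.mem_nhds hz] with w hw
    exact if_pos hw
  · have hz2 : z ∈ tube t := by
      have : tau t z = 0 := by
        by_contra h0
        exact hz h0
      change ‖tau t z‖ < _
      rw [this, norm_zero]; positivity
    have h1 : DifferentiableAt ℂ (cauchyExt t h) z :=
      (cauchyExt_differentiableOn ht hh z hz2).differentiableAt ((tube_isOpen t).mem_nhds hz2)
    refine h1.congr_of_eventuallyEq ?_
    filter_upwards [(tube_isOpen t).mem_nhds hz2] with w hw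
    split_ifs with hw2
    · exact (heq ⟨hw, hw2⟩).symm
    · rfl

end Pool.Agent.Lib.MP_55bc5f_an
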