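import Mathlib
import Pool.Agent.Lib.MP_55bc5f_an.Extend
import Pool.Agent.Lib.MP_55bc5f_an.Graph

/-!
# The fibres `X_t`, `t ≠ 0`, do not have the extension property
-/

set_option autoImplicit false

open scoped Manifold ContDiff Topology ComplexConjugate
open Set Filter TopologicalSpace Metric

namespace Pool.Agent.Lib.MP_55bc5f_an

/-- The map `D_t → Ω_t`. -/
def liftneg (t : ℂ) (z : Dt t) : Om t := ⟨(z.1.1, 0, z.1.2), z.2⟩

/-- The map `D_t → X_t`. -/
noncomputable def gneg (t : ℂ) (z : Dt t) : XX t := Quot.P (Om t) Gam (liftneg t z)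

lemma contMDiffAt_subtypeVal_comp_iff {E E' : Type*} [NormedAddCommGroup E] [NormedSpace ℂ E]
    [NormedAddCommGroup E'] [NormedSpace ℂ E'] {M : Type*} [TopologicalSpace M] [ChartedSpace E M]
    (U : Opens E') (f : M → U) (x : M) :
    ContMDiffAt 𝓘(ℂ, E) 𝓘(ℂ, E') ω (Subtype.val ∘ f) x ↔ ContMDiffAt 𝓘(ℂ, E) 𝓘(ℂ, E') ω f x := by
  have : ContMDiffWithinAt 𝓘(ℂ, E) 𝓘(ℂ, E') ω (Subtype.val ∘ f) univ x ↔
      ContMDiffWithinAt 𝓘(ℂ, E) 𝓘(ℂ, E') ω f univ x :=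
    ChartedSpace.liftPropWithinAt_subtypeVal_comp_iff ..
  simpa only [ContMDiffAt] using this

lemma gneg_hol (t : ℂ) (x : Dt t) : HolMapAt (Subtype.val : Dt t → ℂ × ℂ) (XX t) (gneg t) x := by
  classical
  let G0 : ℂ × ℂ → Om t := fun z => if hz : z ∈ Dt t then liftneg t ⟨z, hz⟩ else liftneg t x
  have h1 : ∀ z ∈ Dt t, ContMDiffAt 𝓘(ℂ, ℂ × ℂ) 𝓘(ℂ, ℂ × ℂ × ℂ) ω G0 z := by
    intro z hz
    rw [← contMDiffAt_subtypeVal_comp_iff]
    have h2 : ContDiffAt ℂ ω (fun z : ℂ × ℂ => ((z.1, 0, z.2) : ℂ × ℂ × ℂ)) z := by fun_prop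
    refine h2.contMDiffAt.congr_of_eventuallyEq ?_
    filter_upwards [(Dt t).isOpen.mem_nhds hz] with w hw
    have : G0 w = liftneg t ⟨w, hw⟩ := dif_pos hw
    simp only [Function.comp_apply, this]
    rfl
  refine ⟨fun z => Quot.P (Om t) Gam (G0 z), ?_, ?_⟩
  · filter_upwards [(Dt t).isOpen.mem_nhds x.2] with z hz
    have h3 : MDifferentiableAt 𝓘(ℂ, ℂ × ℂ) 𝓘(ℂ, ℂ × ℂ × ℂ) G0 z := (h1 z hz).mdifferentiableAt (by simp)
    have h4 : MDifferentiableAt 𝓘(ℂ, ℂ × ℂ × ℂ) 𝓘(ℂ, ℂ × ℂ × ℂ) (Quot.P (Om t) Gam) (G0 z) :=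
      (Quot.contMDiff_P (Om_contMDiff t) _).mdifferentiableAt (by simp)
    exact MDifferentiableAt.comp z h4 h3
  · refine Eventually.of_forall fun y => ?_
    have : G0 y.1 = liftneg t y := by
      change (if hz : y.1 ∈ Dt t then liftneg t ⟨y.1, hz⟩ else liftneg t x) = _
      rw [dif_pos y.2]
    change Quot.P (Om t) Gam (liftneg t y) = Quot.P (Om t) Gam (G0 y.1)
    rw [this]

lemma gneg_meromorphic (t : ℂ) :
    IsMeromorphic (Subtype.val : Dt t → ℂ × ℂ) (XX t) {w | w.2 = gneg t w.1} :=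
  isMeromorphic_graph continuous_subtype_val (gneg_hol t)

lemma envelope_Dt {t : ℂ} (ht : t ≠ 0) :
    IsEnvelope (Subtype.val : Dt t → ℂ × ℂ) (id : ℂ × ℂ → ℂ × ℂ) Subtype.val := by
  refine ⟨⟨isRiemannDomain_id, continuous_subtype_val, fun _ => rfl, ?_⟩, ?_⟩
  · intro h hh
    obtain ⟨h', hd, he⟩ := exists_differentiableOn_of_hol (Dt t) hh
    obtain ⟨H, hH, hHe⟩ := extend_Dt ht hd
    exact ⟨H, fun y => holFunAt_id_of_differentiable hH y, fun x => by rw [hHe _ x.2, he]⟩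
  · intro R' _ p' j' hR'
    exact ⟨p', hR'.domain.localHomeo.continuous, hR'.comp, fun _ => rfl⟩

lemma piOneOnto_of_simplyConnected {D R : Type} [TopologicalSpace D] [TopologicalSpace R]
    [SimplyConnectedSpace R] {j : D → R} (hj : Continuous j) : PiOneOnto j :=
  ⟨hj, fun x _ => ⟨Path.refl x, SimplyConnectedSpace.paths_homotopic _ _⟩⟩

lemma piOneOnto_Dt (t : ℂ) : PiOneOnto (Subtype.val : Dt t → ℂ × ℂ) :=
  piOneOnto_of_simplyConnected continuous_subtype_val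

/-- The map `gneg` does not extend meromorphically. -/
theorem no_ext {t : ℂ} (ht : t ≠ 0) (G' : Set ((ℂ × ℂ) × XX t))
    (hG' : IsMeromorphic (id : ℂ × ℂ → ℂ × ℂ) (XX t) G')
    (h : ∀ (x : Dt t) (y : XX t), (x.1, y) ∈ G' ↔ y = gneg t x) : False := by
  obtain ⟨A, g', hA, hcodim, hhol, hG⟩ := hG'.generic
  have hAc : IsClosed A := hA.isClosed continuous_id
  -- a point of `Σ` outside `A`
  obtain ⟨b, hb, hbA⟩ : ∃ b : ℂ × ℂ, tau t b = 0 ∧ b ∉ A := by
    by_contra hcon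
    push Not at hcon
    have h0 : (0 : ℂ × ℂ) ∈ A := hcon 0 (by simp [tau])
    obtain ⟨u, v, huv, hev⟩ := hcodim 0 h0
    have hspan : ∀ x : ℂ × ℂ, ∃ s r : ℂ, (id x : ℂ × ℂ) = id 0 + s • u + r • v := by
      intro x
      have hb : Submodule.span ℂ (range ![u, v]) = ⊤ := by
        apply huv.span_eq_top_of_card_eq_finrank
        simp
      have hx : x ∈ Submodule.span ℂ (range ![u, v]) := by rw [hb]; trivial
      rw [Matrix.range_cons, Matrix.range_cons, Matrix.range_empty, union_empty,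
        singleton_union, Submodule.mem_span_pair] at hx
      obtain ⟨s, r, hsr⟩ := hx
      exact ⟨s, r, by simp [← hsr]⟩
    have hc : ContinuousAt (fun s : ℝ => ((-(t * s), (s : ℂ)) : ℂ × ℂ)) 0 := by fun_prop
    have h00 : (fun s : ℝ => ((-(t * s), (s : ℂ)) : ℂ × ℂ)) 0 = 0 := by simp
    have hev2 : ∀ᶠ s : ℝ in 𝓝 0, ((-(t * s), (s : ℂ)) : ℂ × ℂ) = 0 := by
      have h1 : ∀ᶠ x in 𝓝 ((fun s : ℝ => ((-(t * s), (s : ℂ)) : ℂ × ℂ)) 0), x ∈ A → x = 0 := by
        rw [h00]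
        filter_upwards [hev] with x hx hxA
        exact hx hxA (hspan x)
      filter_upwards [hc.eventually h1] with s hs
      exact hs (hcon _ (by simp [tau]))
    have hev3 : ∀ᶠ s : ℝ in 𝓝[≠] 0, ((-(t * s), (s : ℂ)) : ℂ × ℂ) = 0 :=
      hev2.filter_mono nhdsWithin_le_nhds
    obtain ⟨s, hs1, hs2⟩ := (hev3.and self_mem_nhdsWithin).exists
    apply hs2
    have := congrArg Prod.snd hs1
    simpa using this
  -- `g' = gneg` on `D_t \ A`
  have hgg : ∀ x : Dt t, x.1 ∉ A → g' x.1 = gneg t x := by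
    intro x hx
    rw [← h x, hG]
    exact subset_closure ⟨hx, rfl⟩
  -- continuity
  have hcont : ∀ x ∉ A, ContinuousAt g' x := fun x hx =>
    (hhol x hx).continuousAt continuousAt_id
  let c : ℝ → ℂ × ℂ := fun s => (b.1 + t * s, b.2)
  have hc : Continuous c := by fun_prop
  have hc0 : c 0 = b := by simp [c]
  have hτc : ∀ s : ℝ, tau t (c s) = t * s := by
    intro s
    have : tau t (c s) = tau t b + t * s := by simp only [tau, c]; ring
    rw [this, hb, zero_add]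
  let y₀ : Quot.Q (Om t) Gam := g' b
  let σ := Quot.sec (M := Om t) (G := Gam) y₀
  have hy₀ : y₀ ∈ σ.source := Quot.mem_sec_source y₀
  have hgc : ContinuousAt (fun s : ℝ => (g' (c s) : Quot.Q (Om t) Gam)) 0 := by
    have h1 : ContinuousAt g' (c 0) := by rw [hc0]; exact hcont b hbA
    exact ContinuousAt.comp (f := c) h1 hc.continuousAt
  have hev1 : ∀ᶠ s : ℝ in 𝓝 0, c s ∉ A := by
    have h1 : ∀ᶠ x in 𝓝 (c 0), x ∉ A := by
      rw [hc0]
      exact hAc.isOpen_compl.mem_nhds hbA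
    exact hc.continuousAt.eventually h1
  have hev2 : ∀ᶠ s : ℝ in 𝓝 0, (g' (c s) : Quot.Q (Om t) Gam) ∈ σ.source := by
    apply hgc.eventually
    change ∀ᶠ y in 𝓝 (g' (c 0) : Quot.Q (Om t) Gam), y ∈ σ.source
    rw [hc0]
    exact σ.open_source.mem_nhds hy₀
  obtain ⟨ε, hε, hball⟩ := Metric.eventually_nhds_iff_ball.1 (hev1.and hev2)
  have hmem : ∀ s : ℝ, s ∈ Ioo 0 ε → s ∈ ball (0:ℝ) ε := by
    intro s hs
    rw [mem_ball_zero_iff, Real.norm_eq_abs, abs_of_pos hs.1]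
    exact hs.2
  have hD : ∀ s : Ioo 0 ε, c s ∈ Dt t := by
    intro s
    change tau t _ ≠ 0
    rw [hτc]
    have : ((s : ℝ) : ℂ) ≠ 0 := by exact_mod_cast s.2.1.ne'
    exact mul_ne_zero ht this
  let f₁ : Ioo 0 ε → Om t := fun s => liftneg t ⟨c s, hD s⟩
  let f₂ : Ioo 0 ε → Om t := fun s => σ (g' (c s))
  have hf₁ : Continuous f₁ := by
    apply Continuous.subtype_mk
    fun_prop
  have hf₂ : Continuous f₂ := by
    rw [continuous_iff_continuousAt]
    intro s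
    have h1 : ContinuousAt σ (g' (c s) : Quot.Q (Om t) Gam) := σ.continuousAt (hball _ (hmem _ s.2)).2
    have h2 : ContinuousAt (fun s : Ioo 0 ε => (g' (c s) : Quot.Q (Om t) Gam)) s := by
      have h3 : ContinuousAt g' (c s) := hcont _ (hball _ (hmem _ s.2)).1
      exact ContinuousAt.comp (f := fun s : Ioo 0 ε => c s) h3
        (hc.comp continuous_subtype_val).continuousAt
    exact ContinuousAt.comp (f := fun s : Ioo 0 ε => (g' (c s) : Quot.Q (Om t) Gam)) h1 h2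
  have hP : ∀ s, Quot.P (Om t) Gam (f₂ s) = Quot.P (Om t) Gam (f₁ s) := by
    intro s
    have h1 : Quot.P (Om t) Gam (f₂ s) = g' (c s) := Quot.P_sec (hball _ (hmem _ s.2)).2
    rw [h1]
    exact hgg ⟨c s, hD s⟩ (hball _ (hmem _ s.2)).1
  have ha : ε / 2 ∈ Ioo 0 ε := ⟨by linarith, by linarith⟩
  obtain ⟨γ, hγ⟩ := Quot.P_eq_iff.1 (hP ⟨ε / 2, ha⟩)
  have hpc : PreconnectedSpace (Ioo 0 ε) := isPreconnected_iff_preconnectedSpace.1 isPreconnected_Ioo
  have hf₃ : Continuous (fun s => γ • f₁ s) := (continuous_const_smul γ).comp hf₁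
  have key : (fun s => γ • f₁ s) = f₂ := by
    refine (Quot.covering (G := Gam) (M := Om t)).isCoveringMap.eq_of_comp_eq hf₃ hf₂ ?_
      ⟨ε / 2, ha⟩ hγ
    funext s
    simp only [Function.comp_apply, Quot.P_smul]
    exact (hP s).symm
  -- the contradiction
  let ψ : ℝ → ℝ := fun s => (coordOm t).r (σ (g' (c s)))
  have hψc : ContinuousAt ψ 0 := by
    have h1 : ContinuousAt σ (g' (c 0) : Quot.Q (Om t) Gam) := by
      rw [hc0]; exact σ.continuousAt hy₀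
    have h2 : ContinuousAt (fun s : ℝ => σ (g' (c s) : Quot.Q (Om t) Gam)) 0 :=
      ContinuousAt.comp (f := fun s : ℝ => (g' (c s) : Quot.Q (Om t) Gam)) h1 hgc
    exact (coordOm t).hr.continuousAt.comp h2
  have hψ : ∀ s ∈ Ioo 0 ε, ψ s = (γ : Aff).c * (‖t‖ * s) := by
    intro s hs
    have h1 := congrFun key ⟨s, hs⟩
    have h2 : ψ s = (coordOm t).r (γ • f₁ ⟨s, hs⟩) := by
      rw [h1]
    rw [h2]
    have h3 : (coordOm t).r (γ • f₁ ⟨s, hs⟩) = (γ : Aff).c * (coordOm t).r (f₁ ⟨s, hs⟩) :=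
      (coordOm t).r_smul γ _
    rw [h3]
    congr 1
    change ‖tau t (c s)‖ = _
    rw [hτc, norm_mul, Complex.norm_real, Real.norm_eq_abs, abs_of_pos hs.1]
  have hpos : 0 < ψ 0 := (coordOm t).r_pos _
  have hlim1 : Tendsto ψ (𝓝[>] 0) (𝓝 (ψ 0)) := hψc.tendsto.mono_left nhdsWithin_le_nhds
  have hlim2 : Tendsto ψ (𝓝[>] 0) (𝓝 0) := by
    have h1 : Tendsto (fun s : ℝ => (γ : Aff).c * (‖t‖ * s)) (𝓝[>] 0) (𝓝 0) := by
      have : Continuous (fun s : ℝ => (γ : Aff).c * (‖t‖ * s)) := by fun_prop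
      have h2 := this.tendsto 0
      simp only [mul_zero] at h2
      exact h2.mono_left nhdsWithin_le_nhds
    refine h1.congr' ?_
    filter_upwards [Ioo_mem_nhdsGT hε] with s hs
    exact (hψ s hs).symm
  exact hpos.ne (tendsto_nhds_unique hlim2 hlim1)

/-- The fibre over `t ≠ 0` does not have the extension property. -/
theorem not_envelopeMEP {t : ℂ} (ht : t ≠ 0) : ¬ EnvelopeMEP (XX t) := by
  intro h
  obtain ⟨G', hG', hext⟩ := h (ℂ × ℂ) (Dt t) Subtype.val (ℂ × ℂ) id Subtype.val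
    (isRiemannDomain_opens _) (envelope_Dt ht) (piOneOnto_Dt t) _ (gneg_meromorphic t)
  exact no_ext ht G' hG' hext

end Pool.Agent.Lib.MP_55bc5f_an
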