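import Mathlib
import Pool.Agent.Lib.MP_55bc5f_an.RDeriv

/-!
# The complex Lie group `ℂˣ ⋉ ℂ²`, left invariant forms and their local solutions
-/

set_option autoImplicit false

open scoped Topology
open Set Filter Metric

namespace Pool.Agent.Lib.MP_55bc5f_an

/-- The group `ℂˣ ⋉ ℂ²`. -/
@[ext] structure CAff where
  c : ℂ
  hc : c ≠ 0
  β : ℂ
  δ : ℂ

namespace CAff

noncomputable instance : Mul CAff := ⟨fun g h => ⟨g.c * h.c, mul_ne_zero g.hc h.hc,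
  g.c⁻¹ * h.β + g.β, g.c * h.δ + g.δ⟩⟩
noncomputable instance : One CAff := ⟨⟨1, one_ne_zero, 0, 0⟩⟩
noncomputable instance : Inv CAff :=
  ⟨fun g => ⟨g.c⁻¹, inv_ne_zero g.hc, -(g.c * g.β), -(g.c⁻¹ * g.δ)⟩⟩

@[simp] lemma mul_c (g h : CAff) : (g * h).c = g.c * h.c := rfl
@[simp] lemma mul_β (g h : CAff) : (g * h).β = g.c⁻¹ * h.β + g.β := rfl
@[simp] lemma mul_δ (g h : CAff) : (g * h).δ = g.c * h.δ + g.δ := rfl
@[simp] lemma one_c : (1 : CAff).c = 1 := rfl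
@[simp] lemma one_β : (1 : CAff).β = 0 := rfl
@[simp] lemma one_δ : (1 : CAff).δ = 0 := rfl
@[simp] lemma inv_c (g : CAff) : (g⁻¹).c = g.c⁻¹ := rfl
@[simp] lemma inv_β (g : CAff) : (g⁻¹).β = -(g.c * g.β) := rfl
@[simp] lemma inv_δ (g : CAff) : (g⁻¹).δ = -(g.c⁻¹ * g.δ) := rfl

noncomputable instance : Group CAff where
  mul_assoc a b c := by
    ext
    · simp [mul_assoc]
    · simp; ring
    · simp; ring
  one_mul a := by ext <;> simp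
  mul_one a := by ext <;> simp
  inv_mul_cancel a := by
    have h2 := a.hc
    ext
    · simp [h2]
    · simp
    · simp

end CAff

variable {V : Type} [NormedAddCommGroup V] [NormedSpace ℂ V]
variable {R : Type} [TopologicalSpace R]

/-- `w` is a solution at `y` of the system defined by the three forms `Θ`. -/
def SolAt (p : R → V) (Θ : R → (V →L[ℂ] ℂ) × (V →L[ℂ] ℂ) × (V →L[ℂ] ℂ)) (w : R → CAff) (y : R) :
    Prop :=
  HasRD p (fun y => (w y).c) ((w y).c • (Θ y).1) y ∧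
  HasRD p (fun y => (w y).β) ((w y).c⁻¹ • (Θ y).2.1) y ∧
  HasRD p (fun y => (w y).δ) ((w y).c • (Θ y).2.2) y

lemma HasRD.const_mul {p : R → V} {F : R → ℂ} {L : V →L[ℂ] ℂ} {x : R} (a : ℂ)
    (hF : HasRD p F L x) : HasRD p (fun y => a * F y) (a • L) x := by
  obtain ⟨f, hf1, hf2⟩ := hF
  refine ⟨fun z => a * f z, hf1.const_mul a, ?_⟩
  filter_upwards [hf2] with y h1
  simp [h1]

lemma HasRD.add_const {p : R → V} {F : R → ℂ} {L : V →L[ℂ] ℂ} {x : R} (a : ℂ)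
    (hF : HasRD p F L x) : HasRD p (fun y => F y + a) L x := by
  obtain ⟨f, hf1, hf2⟩ := hF
  refine ⟨fun z => f z + a, hf1.add_const a, ?_⟩
  filter_upwards [hf2] with y h1
  simp [h1]

lemma SolAt.mul_left {p : R → V} {Θ : R → (V →L[ℂ] ℂ) × (V →L[ℂ] ℂ) × (V →L[ℂ] ℂ)} {w : R → CAff}
    {y : R} (h : SolAt p Θ w y) (b : CAff) : SolAt p Θ (fun y => b * w y) y := by
  obtain ⟨h1, h2, h3⟩ := h
  refine ⟨?_, ?_, ?_⟩
  · have := h1.const_mul b.c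
    simpa only [CAff.mul_c, smul_smul] using this
  · have := (h2.const_mul b.c⁻¹).add_const b.β
    simpa only [CAff.mul_c, CAff.mul_β, smul_smul, mul_inv] using this
  · have := (h3.const_mul b.c).add_const b.δ
    simpa only [CAff.mul_c, CAff.mul_δ, smul_smul] using this

lemma SolAt.congr {p : R → V} {Θ Θ' : R → (V →L[ℂ] ℂ) × (V →L[ℂ] ℂ) × (V →L[ℂ] ℂ)} {w w' : R → CAff}
    {y : R} (h : SolAt p Θ w y) (hw : w =ᶠ[𝓝 y] w') (hΘ : Θ y = Θ' y) : SolAt p Θ' w' y := by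
  obtain ⟨h1, h2, h3⟩ := h
  have hwy : w y = w' y := hw.self_of_nhds
  rw [hwy, hΘ] at h1 h2 h3
  refine ⟨h1.congr ?_, h2.congr ?_, h3.congr ?_⟩ <;>
  · filter_upwards [hw] with z hz
    rw [hz]

lemma SolAt.comp {D : Type} [TopologicalSpace D] {p : R → V} {q : D → V} {j : D → R}
    (hj : Continuous j) (hpj : ∀ x, p (j x) = q x)
    {Θ : R → (V →L[ℂ] ℂ) × (V →L[ℂ] ℂ) × (V →L[ℂ] ℂ)} {w : R → CAff}
    {x : D} (h : SolAt p Θ w (j x)) : SolAt q (Θ ∘ j) (w ∘ j) x := by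
  obtain ⟨h1, h2, h3⟩ := h
  exact ⟨HasRD.comp (V' := V) hj hpj h1, HasRD.comp (V' := V) hj hpj h2,
    HasRD.comp (V' := V) hj hpj h3⟩

/-- Two solutions differ by a locally constant left multiplication. -/
lemma SolAt.eventually_const {p : R → V} (hp : IsLocalHomeomorph p)
    {Θ : R → (V →L[ℂ] ℂ) × (V →L[ℂ] ℂ) × (V →L[ℂ] ℂ)} {w w' : R → CAff}
    {y : R} (h : ∀ᶠ y' in 𝓝 y, SolAt p Θ w y' ∧ SolAt p Θ w' y') :
    ∀ᶠ y' in 𝓝 y, w' y' * (w y')⁻¹ = w' y * (w y)⁻¹ := by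
  have e1 : ∀ᶠ y' in 𝓝 y, HasRD p (fun y => (w' y).c * ((w y).c)⁻¹) 0 y' := by
    filter_upwards [h] with y' hy'
    obtain ⟨⟨h1, h2, h3⟩, ⟨h1', h2', h3'⟩⟩ := hy'
    have hc := (w y').hc
    have := h1'.mul (h1.inv hc)
    convert this using 1
    ext u
    simp only [zero_apply, add_apply,
      smul_apply, smul_eq_mul]
    field_simp
    ring
  have e2 : ∀ᶠ y' in 𝓝 y, HasRD p (fun y => (w' y).β - ((w y).c * ((w' y).c)⁻¹) * (w y).β) 0 y' := by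
    filter_upwards [h] with y' hy'
    obtain ⟨⟨h1, h2, h3⟩, ⟨h1', h2', h3'⟩⟩ := hy'
    have hc := (w y').hc
    have hc' := (w' y').hc
    have := h2'.sub ((h1.mul (h1'.inv hc')).mul h2)
    convert this using 1
    ext u
    simp only [zero_apply, add_apply,
      smul_apply, smul_eq_mul, sub_apply]
    field_simp
    ring
  have e3 : ∀ᶠ y' in 𝓝 y, HasRD p (fun y => (w' y).δ - ((w' y).c * ((w y).c)⁻¹) * (w y).δ) 0 y' := by
    filter_upwards [h] with y' hy'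
    obtain ⟨⟨h1, h2, h3⟩, ⟨h1', h2', h3'⟩⟩ := hy'
    have hc := (w y').hc
    have hc' := (w' y').hc
    have := h3'.sub ((h1'.mul (h1.inv hc)).mul h3)
    convert this using 1
    ext u
    simp only [zero_apply, add_apply,
      smul_apply, smul_eq_mul, sub_apply]
    field_simp
    ring
  filter_upwards [eventually_eq_of_hasRD_zero hp e1, eventually_eq_of_hasRD_zero hp e2,
    eventually_eq_of_hasRD_zero hp e3] with y' h1 h2 h3
  have key : ∀ z : R, w' z * (w z)⁻¹ = ⟨(w' z).c * ((w z).c)⁻¹,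
      mul_ne_zero (w' z).hc (inv_ne_zero (w z).hc),
      (w' z).β - ((w z).c * ((w' z).c)⁻¹) * (w z).β,
      (w' z).δ - ((w' z).c * ((w z).c)⁻¹) * (w z).δ⟩ := by
    intro z
    ext
    · simp
    · simp; ring
    · simp; ring
  rw [key, key]
  ext
  · exact h1
  · exact h2
  · exact h3

/-- Poincare lemma. -/
lemma poincare [NormedSpace ℝ V] [IsScalarTower ℝ ℂ V] {B : Set V} (hB : IsOpen B)
    (hBc : Convex ℝ B) {ω : V → V →L[ℂ] ℂ} (hω : DifferentiableOn ℂ ω B)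
    (hs : ∀ z ∈ B, ∀ u v, fderiv ℂ ω z u v = fderiv ℂ ω z v u) :
    ∃ f : V → ℂ, ∀ z ∈ B, HasFDerivAt f (ω z) z := by
  apply hBc.exists_forall_hasFDerivAt_of_fderiv_symmetric hB (ω := ω)
  · intro z hz
    exact (hω z hz).restrictScalars ℝ
  · intro z hz u v
    have h1 : HasFDerivAt ω (fderiv ℂ ω z) z :=
      ((hω z hz).differentiableAt (hB.mem_nhds hz)).hasFDerivAt
    rw [(h1.restrictScalars ℝ).fderiv]
    exact hs z hz u v

/-- The integrability conditions. -/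
def ClosedAt (θ₁ θ₂ θ₃ : V →L[ℂ] ℂ) (dθ₁ dθ₂ dθ₃ : V →L[ℂ] V →L[ℂ] ℂ) : Prop :=
  ∀ u v, dθ₁ u v = dθ₁ v u ∧ dθ₂ u v - θ₁ u * θ₂ v = dθ₂ v u - θ₁ v * θ₂ u ∧
    dθ₃ u v + θ₁ u * θ₃ v = dθ₃ v u + θ₁ v * θ₃ u

/-- Existence of solutions on convex open sets. -/
lemma exists_solution_convex [NormedSpace ℝ V] [IsScalarTower ℝ ℂ V] {B : Set V} (hB : IsOpen B)
    (hBc : Convex ℝ B) {θ₁ θ₂ θ₃ : V → V →L[ℂ] ℂ} (h₁ : DifferentiableOn ℂ θ₁ B)
    (h₂ : DifferentiableOn ℂ θ₂ B) (h₃ : DifferentiableOn ℂ θ₃ B)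
    (hcl : ∀ z ∈ B, ClosedAt (θ₁ z) (θ₂ z) (θ₃ z) (fderiv ℂ θ₁ z) (fderiv ℂ θ₂ z)
      (fderiv ℂ θ₃ z)) :
    ∃ w₁ w₂ w₃ : V → ℂ, (∀ z, w₁ z ≠ 0) ∧ ∀ z ∈ B, HasFDerivAt w₁ (w₁ z • θ₁ z) z ∧
      HasFDerivAt w₂ ((w₁ z)⁻¹ • θ₂ z) z ∧ HasFDerivAt w₃ (w₁ z • θ₃ z) z := by
  obtain ⟨f₁, hf₁⟩ := poincare hB hBc h₁ (fun z hz u v => (hcl z hz u v).1)
  let w₁ : V → ℂ := fun z => Complex.exp (f₁ z)
  have hw₁0 : ∀ z, w₁ z ≠ 0 := fun z => Complex.exp_ne_zero _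
  have hw₁ : ∀ z ∈ B, HasFDerivAt w₁ (w₁ z • θ₁ z) z := fun z hz => (hf₁ z hz).cexp
  have hd : ∀ {θ : V → V →L[ℂ] ℂ}, DifferentiableOn ℂ θ B → ∀ z ∈ B,
      HasFDerivAt θ (fderiv ℂ θ z) z := fun h z hz =>
    ((h z hz).differentiableAt (hB.mem_nhds hz)).hasFDerivAt
  have hw₁i : ∀ z ∈ B, HasFDerivAt (fun z => (w₁ z)⁻¹) ((-(w₁ z)⁻¹) • θ₁ z) z := by
    intro z hz
    have h1 := (hasDerivAt_inv (hw₁0 z)).comp_hasFDerivAt _ (hw₁ z hz)
    have h2 : (-(w₁ z ^ 2)⁻¹) • (w₁ z • θ₁ z) = (-(w₁ z)⁻¹) • θ₁ z := by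
      rw [smul_smul]
      congr 1
      have := hw₁0 z
      field_simp
    rw [h2] at h1
    exact h1
  have hω₂ : ∀ z ∈ B, HasFDerivAt (fun z => (w₁ z)⁻¹ • θ₂ z)
      ((w₁ z)⁻¹ • fderiv ℂ θ₂ z + ((-(w₁ z)⁻¹) • θ₁ z).smulRight (θ₂ z)) z := fun z hz =>
    (hw₁i z hz).smul (hd h₂ z hz)
  have hω₃ : ∀ z ∈ B, HasFDerivAt (fun z => (w₁ z) • θ₃ z)
      ((w₁ z) • fderiv ℂ θ₃ z + ((w₁ z) • θ₁ z).smulRight (θ₃ z)) z := fun z hz =>
    (hw₁ z hz).smul (hd h₃ z hz)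
  obtain ⟨f₂, hf₂⟩ := poincare hB hBc
    (fun z hz => (hω₂ z hz).differentiableAt.differentiableWithinAt) (by
      intro z hz u v
      rw [(hω₂ z hz).fderiv]
      simp only [add_apply, smul_apply,
        ContinuousLinearMap.smulRight_apply, smul_eq_mul]
      have := (hcl z hz u v).2.1
      linear_combination (w₁ z)⁻¹ * this)
  obtain ⟨f₃, hf₃⟩ := poincare hB hBc
    (fun z hz => (hω₃ z hz).differentiableAt.differentiableWithinAt) (by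
      intro z hz u v
      rw [(hω₃ z hz).fderiv]
      simp only [add_apply, smul_apply,
        ContinuousLinearMap.smulRight_apply, smul_eq_mul]
      have := (hcl z hz u v).2.2
      linear_combination (w₁ z) * this)
  exact ⟨w₁, f₂, f₃, hw₁0, fun z hz => ⟨hw₁ z hz, hf₂ z hz, hf₃ z hz⟩⟩

/-- Integrability conditions hold if there is a solution. -/
lemma closedAt_of_solution {θ₁ θ₂ θ₃ : V → V →L[ℂ] ℂ} {w₁ w₂ w₃ : V → ℂ} {z : V}
    (h₁ : DifferentiableAt ℂ θ₁ z)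
    (h₂ : DifferentiableAt ℂ θ₂ z) (h₃ : DifferentiableAt ℂ θ₃ z)
    (h0 : ∀ᶠ z in 𝓝 z, w₁ z ≠ 0)
    (h : ∀ᶠ z in 𝓝 z, HasFDerivAt w₁ (w₁ z • θ₁ z) z ∧
      HasFDerivAt w₂ ((w₁ z)⁻¹ • θ₂ z) z ∧ HasFDerivAt w₃ (w₁ z • θ₃ z) z) :
    ClosedAt (θ₁ z) (θ₂ z) (θ₃ z) (fderiv ℂ θ₁ z) (fderiv ℂ θ₂ z) (fderiv ℂ θ₃ z) := by
  have hw₁0 : w₁ z ≠ 0 := h0.self_of_nhds
  have hw₁ : HasFDerivAt w₁ (w₁ z • θ₁ z) z := h.self_of_nhds.1
  have hw₁i : HasFDerivAt (fun z => (w₁ z)⁻¹) ((-(w₁ z)⁻¹) • θ₁ z) z := by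
    have h1 := (hasDerivAt_inv hw₁0).comp_hasFDerivAt _ hw₁
    have h2 : (-(w₁ z ^ 2)⁻¹) • (w₁ z • θ₁ z) = (-(w₁ z)⁻¹) • θ₁ z := by
      rw [smul_smul]
      congr 1
      field_simp
    rw [h2] at h1
    exact h1
  have s1 := second_derivative_symmetric_of_eventually (𝕜 := ℂ) (h.mono fun z hz => hz.1)
    (hw₁.smul h₁.hasFDerivAt)
  have s2 := second_derivative_symmetric_of_eventually (𝕜 := ℂ) (h.mono fun z hz => hz.2.1)
    (hw₁i.smul h₂.hasFDerivAt)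
  have s3 := second_derivative_symmetric_of_eventually (𝕜 := ℂ) (h.mono fun z hz => hz.2.2)
    (hw₁.smul h₃.hasFDerivAt)
  intro u v
  have t1 := s1 u v
  have t2 := s2 u v
  have t3 := s3 u v
  simp only [add_apply, smul_apply,
    ContinuousLinearMap.smulRight_apply, smul_eq_mul] at t1 t2 t3
  refine ⟨?_, ?_, ?_⟩
  · apply mul_left_cancel₀ hw₁0
    linear_combination t1
  · apply mul_left_cancel₀ (inv_ne_zero hw₁0)
    linear_combination t2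
  · apply mul_left_cancel₀ hw₁0
    linear_combination t3

/-- Existence of local solutions. -/
lemma exists_solution {p : R → V} (hp : IsLocalHomeomorph p)
    {Θ : R → (V →L[ℂ] ℂ) × (V →L[ℂ] ℂ) × (V →L[ℂ] ℂ)} {y : R}
    (h₁ : HolAt p (fun y => (Θ y).1) y) (h₂ : HolAt p (fun y => (Θ y).2.1) y)
    (h₃ : HolAt p (fun y => (Θ y).2.2) y)
    (hcl : ∀ᶠ y in 𝓝 y, ClosedAt (Θ y).1 (Θ y).2.1 (Θ y).2.2 (rd hp (fun y => (Θ y).1) y)
      (rd hp (fun y => (Θ y).2.1) y) (rd hp (fun y => (Θ y).2.2) y)) :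
    ∃ w : R → CAff, ∀ᶠ y' in 𝓝 y, SolAt p Θ w y' := by
  have e1 : ∀ᶠ z in 𝓝 (p y), HolAt p (fun y => (Θ y).1) (ch hp y z) :=
    eventually_ch hp (h₁.eventually hp.continuous)
  have e2 : ∀ᶠ z in 𝓝 (p y), HolAt p (fun y => (Θ y).2.1) (ch hp y z) :=
    eventually_ch hp (h₂.eventually hp.continuous)
  have e3 : ∀ᶠ z in 𝓝 (p y), HolAt p (fun y => (Θ y).2.2) (ch hp y z) :=
    eventually_ch hp (h₃.eventually hp.continuous)
  have e4 := eventually_ch hp hcl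
  have e5 : ∀ᶠ z in 𝓝 (p y), z ∈ (ch hp y).source := (ch hp y).open_source.mem_nhds (ch_mem hp y)
  obtain ⟨ρ, hρ, hb⟩ := Metric.eventually_nhds_iff_ball.1 ((((e1.and e2).and e3).and e4).and e5)
  let _ : NormedSpace ℝ V := NormedSpace.restrictScalars ℝ ℂ V
  have hfd : ∀ {F : R → V →L[ℂ] ℂ}, ∀ z ∈ ball (p y) ρ, HolAt p F (ch hp y z) →
      HasFDerivAt (F ∘ ch hp y) (rd hp F (ch hp y z)) z := by
    intro F z hz hF
    exact HasRD.ch hp (hb z hz).2 (hF.hasRD hp)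
  obtain ⟨w₁, w₂, w₃, hw0, hw⟩ := exists_solution_convex (isOpen_ball (x := p y) (ε := ρ))
    (convex_ball (p y) ρ) (θ₁ := (fun y => (Θ y).1) ∘ ch hp y) (θ₂ := (fun y => (Θ y).2.1) ∘ ch hp y)
    (θ₃ := (fun y => (Θ y).2.2) ∘ ch hp y)
    (fun z hz => (hfd z hz (hb z hz).1.1.1.1).differentiableAt.differentiableWithinAt)
    (fun z hz => (hfd z hz (hb z hz).1.1.1.2).differentiableAt.differentiableWithinAt)
    (fun z hz => (hfd z hz (hb z hz).1.1.2).differentiableAt.differentiableWithinAt)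
    (fun z hz => by
      rw [(hfd z hz (hb z hz).1.1.1.1).fderiv, (hfd z hz (hb z hz).1.1.1.2).fderiv,
        (hfd z hz (hb z hz).1.1.2).fderiv]
      exact (hb z hz).1.2)
  refine ⟨fun y' => ⟨w₁ (p y'), hw0 _, w₂ (p y'), w₃ (p y')⟩, ?_⟩
  have e6 : ∀ᶠ y' in 𝓝 y, p y' ∈ ball (p y) ρ :=
    hp.continuous.continuousAt.eventually (ball_mem_nhds _ hρ)
  filter_upwards [e6, ch_p_eventually hp y] with y' h5 h6
  obtain ⟨s1, s2, s3⟩ := hw (p y') h5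
  simp only [Function.comp_apply, h6] at s1 s2 s3
  exact ⟨⟨w₁, s1, EventuallyEq.refl _ _⟩, ⟨w₂, s2, EventuallyEq.refl _ _⟩,
    ⟨w₃, s3, EventuallyEq.refl _ _⟩⟩

/-- Integrability conditions hold at a point near which there is a solution. -/
lemma closedAt_of_solAt {p : R → V} (hp : IsLocalHomeomorph p)
    {Θ : R → (V →L[ℂ] ℂ) × (V →L[ℂ] ℂ) × (V →L[ℂ] ℂ)} {y : R} {w : R → CAff}
    (h₁ : HolAt p (fun y => (Θ y).1) y) (h₂ : HolAt p (fun y => (Θ y).2.1) y)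
    (h₃ : HolAt p (fun y => (Θ y).2.2) y) (hw : ∀ᶠ y' in 𝓝 y, SolAt p Θ w y') :
    ClosedAt (Θ y).1 (Θ y).2.1 (Θ y).2.2 (rd hp (fun y => (Θ y).1) y)
      (rd hp (fun y => (Θ y).2.1) y) (rd hp (fun y => (Θ y).2.2) y) := by
  have e5 : ∀ᶠ z in 𝓝 (p y), z ∈ (ch hp y).source := (ch hp y).open_source.mem_nhds (ch_mem hp y)
  have := closedAt_of_solution (θ₁ := (fun y => (Θ y).1) ∘ ch hp y)
    (θ₂ := (fun y => (Θ y).2.1) ∘ ch hp y) (θ₃ := (fun y => (Θ y).2.2) ∘ ch hp y)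
    (w₁ := (fun y => (w y).c) ∘ ch hp y) (w₂ := (fun y => (w y).β) ∘ ch hp y)
    (w₃ := (fun y => (w y).δ) ∘ ch hp y) (z := p y)
    (h₁.ch_self hp).self_of_nhds (h₂.ch_self hp).self_of_nhds (h₃.ch_self hp).self_of_nhds
    (Eventually.of_forall fun z => (w _).hc) (by
      filter_upwards [eventually_ch hp hw, e5] with z hz hz5
      exact ⟨HasRD.ch hp hz5 hz.1, HasRD.ch hp hz5 hz.2.1, HasRD.ch hp hz5 hz.2.2⟩)
  simp only [Function.comp_apply, ch_self] at this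
  exact this

end Pool.Agent.Lib.MP_55bc5f_an
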