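import Mathlib
import Pool.Agent.Lib.MP_55bc5f_an.Sol
import Pool.Agent.Lib.MP_55bc5f_an.Negative

/-!
# Maurer–Cartan forms of holomorphic maps to `X_0`
-/

set_option autoImplicit false

open scoped Manifold ContDiff Topology ComplexConjugate
open Set Filter Metric

namespace Pool.Agent.Lib.MP_55bc5f_an

/-- `X_0` as a quotient. -/
abbrev Y0 : Type := Quot.Q (Om 0) Gam

/-- The identification of `CAff` with `Ω_0`. -/
def toOm (w : CAff) : Om 0 := ⟨(w.c, w.β, w.δ), by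
  change w.c + 0 * conj w.δ ≠ 0
  rw [zero_mul, add_zero]
  exact w.hc⟩

/-- The inverse identification. -/
def ofOm (x : Om 0) : CAff := ⟨x.1.1, by
  have := Om_ne x
  rwa [zero_mul, add_zero] at this, x.1.2.1, x.1.2.2⟩

lemma toOm_ofOm (x : Om 0) : toOm (ofOm x) = x := rfl

/-- The inclusion of `Γ`. -/
noncomputable def ofGam (g : Gam) : CAff := ⟨((g : Aff).c : ℂ), (g : Aff).c_ne, (g : Aff).β, (g : Aff).δ⟩

lemma toOm_mul (g : Gam) (w : CAff) : toOm (ofGam g * w) = g • toOm w := by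
  apply Subtype.ext
  change (((g : Aff).c : ℂ) * w.c, ((g : Aff).c : ℂ)⁻¹ * w.β + (g : Aff).β,
    ((g : Aff).c : ℂ) * w.δ + (g : Aff).δ) = actMap 0 (g : Aff) (w.c, w.β, w.δ)
  simp [actMap]

/-- The projection `CAff → X_0`. -/
noncomputable def PP (w : CAff) : Y0 := Quot.P (Om 0) Gam (toOm w)

lemma PP_surj : Function.Surjective PP := fun y => by
  obtain ⟨x, rfl⟩ := Quot.P_surj (G := Gam) (M := Om 0) y
  exact ⟨ofOm x, rfl⟩

lemma toOm_injective : Function.Injective toOm := by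
  intro w w' h
  have h1 := congrArg (fun x : Om 0 => x.1.1) h
  have h2 := congrArg (fun x : Om 0 => x.1.2.1) h
  have h3 := congrArg (fun x : Om 0 => x.1.2.2) h
  ext
  · exact h1
  · exact h2
  · exact h3

lemma PP_eq_iff {w w' : CAff} : PP w = PP w' ↔ ∃ g : Gam, ofGam g * w' = w := by
  unfold PP
  rw [Quot.P_eq_iff]
  constructor
  · rintro ⟨g, hg⟩
    refine ⟨g, toOm_injective ?_⟩
    rw [toOm_mul, hg]
  · rintro ⟨g, hg⟩
    refine ⟨g, ?_⟩
    rw [← toOm_mul, hg]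

/-- A chosen lift. -/
noncomputable def lft (y : Y0) : CAff := (PP_surj y).choose

lemma PP_lft (y : Y0) : PP (lft y) = y := (PP_surj y).choose_spec

/-- The right action of `CAff` on `X_0`. -/
noncomputable def act (y : Y0) (a : CAff) : Y0 := PP (lft y * a)

lemma act_PP (w a : CAff) : act (PP w) a = PP (w * a) := by
  unfold act
  obtain ⟨g, hg⟩ := PP_eq_iff.1 (PP_lft (PP w))
  rw [PP_eq_iff]
  exact ⟨g, by rw [← hg, mul_assoc]⟩

lemma act_act (y : Y0) (a b : CAff) : act (act y a) b = act y (a * b) := by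
  obtain ⟨w, rfl⟩ := PP_surj y
  rw [act_PP, act_PP, act_PP, mul_assoc]

lemma act_one (y : Y0) : act y 1 = y := by
  obtain ⟨w, rfl⟩ := PP_surj y
  rw [act_PP, mul_one]

variable {V : Type} [NormedAddCommGroup V] [NormedSpace ℂ V]
variable {R : Type} [TopologicalSpace R]

/-- The components of `w` are holomorphic at `x`. -/
def CHolAt (p : R → V) (w : R → CAff) (x : R) : Prop :=
  HolAt p (fun x => (w x).c) x ∧ HolAt p (fun x => (w x).β) x ∧ HolAt p (fun x => (w x).δ) x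

lemma holAt_of_hasRD {W : Type} [NormedAddCommGroup W] [NormedSpace ℂ W] {p : R → V}
    (hp : IsLocalHomeomorph p) {F : R → W} {y : R}
    (h : ∀ᶠ y' in 𝓝 y, ∃ L, HasRD p F L y') : HolAt p F y := by
  refine ⟨F ∘ ch hp y, ?_, eq_comp_ch hp F y⟩
  have e5 : ∀ᶠ z in 𝓝 (p y), z ∈ (ch hp y).source := (ch hp y).open_source.mem_nhds (ch_mem hp y)
  filter_upwards [eventually_ch hp h, e5] with z hz hz5
  obtain ⟨L, hL⟩ := hz
  exact (HasRD.ch hp hz5 hL).differentiableAt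

lemma CHolAt.of_solAt {p : R → V} (hp : IsLocalHomeomorph p)
    {Θ : R → (V →L[ℂ] ℂ) × (V →L[ℂ] ℂ) × (V →L[ℂ] ℂ)} {w : R → CAff} {y : R}
    (h : ∀ᶠ y' in 𝓝 y, SolAt p Θ w y') : CHolAt p w y :=
  ⟨holAt_of_hasRD hp (h.mono fun _ hy => ⟨_, hy.1⟩), holAt_of_hasRD hp (h.mono fun _ hy => ⟨_, hy.2.1⟩),
    holAt_of_hasRD hp (h.mono fun _ hy => ⟨_, hy.2.2⟩)⟩

lemma CHolAt.continuousAt {p : R → V} (hp : Continuous p) {w : R → CAff} {x : R}
    (h : CHolAt p w x) : ContinuousAt (fun x => toOm (w x)) x := by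
  rw [Topology.IsInducing.subtypeVal.continuousAt_iff]
  exact (h.1.continuousAt hp.continuousAt).prodMk
    ((h.2.1.continuousAt hp.continuousAt).prodMk (h.2.2.continuousAt hp.continuousAt))

/-- Two lifts of the same map differ by an element of `Γ`. -/
lemma lifts_eq {w w' : R → CAff} {x : R}
    (h : ContinuousAt (fun x => toOm (w x)) x) (h' : ContinuousAt (fun x => toOm (w' x)) x)
    (heq : ∀ᶠ x' in 𝓝 x, PP (w x') = PP (w' x')) :
    ∃ g : Gam, ∀ᶠ x' in 𝓝 x, w x' = ofGam g * w' x' := by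
  obtain ⟨g, hg⟩ := PP_eq_iff.1 heq.self_of_nhds
  refine ⟨g, ?_⟩
  obtain ⟨U, hUo, hxU, hinj⟩ := (Quot.P_localHomeo (G := Gam) (M := Om 0)).isLocallyInjective
    (toOm (w x))
  have h1 : ∀ᶠ x' in 𝓝 x, toOm (w x') ∈ U := h.eventually (hUo.mem_nhds hxU)
  have h2 : ∀ᶠ x' in 𝓝 x, g • toOm (w' x') ∈ U := by
    have h3 : ContinuousAt (fun x' => g • toOm (w' x')) x :=
      (continuous_const_smul g).continuousAt.comp h'
    apply h3.eventually
    change ∀ᶠ y in 𝓝 (g • toOm (w' x)), y ∈ U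
    rw [← toOm_mul, hg]
    exact hUo.mem_nhds hxU
  filter_upwards [h1, h2, heq] with x' k1 k2 k3
  apply toOm_injective
  rw [toOm_mul]
  apply hinj k1 k2
  rw [Quot.P_smul]
  exact k3

/-- The composition of a holomorphic map to `CAff` with the projection is holomorphic. -/
lemma holMapAt_PP [FiniteDimensional ℂ V] {p : R → V} {w : R → CAff} {y : R}
    (h : CHolAt p w y) : HolMapAt p (XX 0) (fun y => PP (w y)) y := by
  classical
  obtain ⟨⟨g₁, h₁, e₁⟩, ⟨g₂, h₂, e₂⟩, ⟨g₃, h₃, e₃⟩⟩ := h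
  let G0 : V → Om 0 := fun z => if hz : g₁ z ≠ 0 then toOm ⟨g₁ z, hz, g₂ z, g₃ z⟩ else toOm 1
  have hne : ∀ᶠ z in 𝓝 (p y), g₁ z ≠ 0 := by
    apply h₁.self_of_nhds.continuousAt.eventually_ne
    have : (w y).c = g₁ (p y) := e₁.self_of_nhds
    rw [← this]
    exact (w y).hc
  refine ⟨fun z => Quot.P (Om 0) Gam (G0 z), ?_, ?_⟩
  · filter_upwards [h₁.eventually_nhds, h₂.eventually_nhds, h₃.eventually_nhds,
      hne.eventually_nhds] with z hz1 hz2 hz3 hz4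
    have a1 : ContDiffAt ℂ ω g₁ z := (Osgood.analyticAt_iff.2 hz1).contDiffAt
    have a2 : ContDiffAt ℂ ω g₂ z := (Osgood.analyticAt_iff.2 hz2).contDiffAt
    have a3 : ContDiffAt ℂ ω g₃ z := (Osgood.analyticAt_iff.2 hz3).contDiffAt
    have a4 : ContDiffAt ℂ ω (fun z => ((g₁ z, g₂ z, g₃ z) : ℂ × ℂ × ℂ)) z :=
      a1.prodMk (a2.prodMk a3)
    have hG0 : ContMDiffAt 𝓘(ℂ, V) 𝓘(ℂ, ℂ × ℂ × ℂ) ω G0 z := by
      rw [← contMDiffAt_subtypeVal_comp_iff]
      refine a4.contMDiffAt.congr_of_eventuallyEq ?_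
      filter_upwards [hz4] with u hu
      have : G0 u = toOm ⟨g₁ u, hu, g₂ u, g₃ u⟩ := dif_pos hu
      simp only [Function.comp_apply, this]
      rfl
    have h4 : MDifferentiableAt 𝓘(ℂ, ℂ × ℂ × ℂ) 𝓘(ℂ, ℂ × ℂ × ℂ) (Quot.P (Om 0) Gam) (G0 z) :=
      (Quot.contMDiff_P (Om_contMDiff 0) _).mdifferentiableAt (by simp)
    exact MDifferentiableAt.comp z h4 (hG0.mdifferentiableAt (by simp))
  · filter_upwards [e₁, e₂, e₃] with y' h1 h2 h3
    simp only [Function.comp_apply] at h1 h2 h3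
    have hne : g₁ (p y') ≠ 0 := by rw [← h1]; exact (w y').hc
    have hG : G0 (p y') = toOm (w y') := by
      have h4 : G0 (p y') = toOm ⟨g₁ (p y'), hne, g₂ (p y'), g₃ (p y')⟩ := dif_pos hne
      rw [h4]
      congr 1
      ext
      · exact h1.symm
      · exact h2.symm
      · exact h3.symm
    change Quot.P (Om 0) Gam (toOm (w y')) = Quot.P (Om 0) Gam (G0 (p y'))
    rw [hG]

/-- A holomorphic map to `X_0` lifts locally. -/
lemma exists_lift {p : R → V} (hp : Continuous p) {g : R → Y0} {x : R}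
    (hg : HolMapAt p (XX 0) g x) :
    ∃ w : R → CAff, CHolAt p w x ∧ ∀ᶠ x' in 𝓝 x, g x' = PP (w x') := by
  obtain ⟨g₀, hg1, hg2⟩ := hg
  let g₁ : V → Y0 := g₀
  have hg1' : ∀ᶠ z in 𝓝 (p x), MDifferentiableAt 𝓘(ℂ, V) 𝓘(ℂ, ℂ × ℂ × ℂ) g₁ z := hg1
  let y₀ : Y0 := g₁ (p x)
  let σ := Quot.sec (M := Om 0) (G := Gam) y₀
  have hsrc : ∀ᶠ z in 𝓝 (p x), g₁ z ∈ σ.source :=
    hg1'.self_of_nhds.continuousAt.eventually (σ.open_source.mem_nhds (Quot.mem_sec_source y₀))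
  let w₀ : V → ℂ × ℂ × ℂ := fun z => (σ (g₁ z)).1
  have hw₀ : ∀ᶠ z in 𝓝 (p x), DifferentiableAt ℂ w₀ z := by
    filter_upwards [hg1', hsrc] with z hz1 hz2
    have h1 : MDifferentiableAt 𝓘(ℂ, ℂ × ℂ × ℂ) 𝓘(ℂ, ℂ × ℂ × ℂ) σ (g₁ z) :=
      (Quot.contMDiffAt_sec (Om_contMDiff 0) hz2).mdifferentiableAt (by simp)
    have h2 : MDifferentiableAt 𝓘(ℂ, V) 𝓘(ℂ, ℂ × ℂ × ℂ) (fun z => σ (g₁ z)) z :=
      MDifferentiableAt.comp z h1 hz1
    have h3 : MDifferentiableAt 𝓘(ℂ, V) 𝓘(ℂ, ℂ × ℂ × ℂ) w₀ z :=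
      MDifferentiableAt.comp z (hasMFDerivAt_val (Om 0) _).mdifferentiableAt h2
    exact h3.differentiableAt
  refine ⟨fun x' => ofOm (σ (g₁ (p x'))), ⟨⟨fun z => (w₀ z).1, ?_, EventuallyEq.refl _ _⟩,
    ⟨fun z => (w₀ z).2.1, ?_, EventuallyEq.refl _ _⟩,
    ⟨fun z => (w₀ z).2.2, ?_, EventuallyEq.refl _ _⟩⟩, ?_⟩
  · filter_upwards [hw₀] with z hz
    exact hz.fst
  · filter_upwards [hw₀] with z hz
    exact hz.snd.fst
  · filter_upwards [hw₀] with z hz
    exact hz.snd.snd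
  · filter_upwards [hp.continuousAt.eventually hsrc, hg2] with x' h1 h2
    have h3 : g x' = g₁ (p x') := h2
    rw [h3]
    exact (Quot.P_sec h1).symm

lemma rd_congr {W : Type} [NormedAddCommGroup W] [NormedSpace ℂ W] {p : R → V}
    (hp : IsLocalHomeomorph p) {F G : R → W} {y : R} (h : F =ᶠ[𝓝 y] G) : rd hp F y = rd hp G y := by
  unfold rd
  apply Filter.EventuallyEq.fderiv_eq
  exact eventually_ch hp h

/-- The Maurer–Cartan form. -/
noncomputable def MC {p : R → V} (hp : IsLocalHomeomorph p) (w : R → CAff) (x : R) :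
    (V →L[ℂ] ℂ) × (V →L[ℂ] ℂ) × (V →L[ℂ] ℂ) :=
  ((w x).c⁻¹ • rd hp (fun x => (w x).c) x, (w x).c • rd hp (fun x => (w x).β) x,
    (w x).c⁻¹ • rd hp (fun x => (w x).δ) x)

lemma MC_congr {p : R → V} (hp : IsLocalHomeomorph p) {w w' : R → CAff} {x : R}
    (h : w =ᶠ[𝓝 x] w') : MC hp w x = MC hp w' x := by
  unfold MC
  have h1 : (fun x => (w x).c) =ᶠ[𝓝 x] (fun x => (w' x).c) := h.mono fun y hy => congrArg CAff.c hy
  have h2 : (fun x => (w x).β) =ᶠ[𝓝 x] (fun x => (w' x).β) := h.mono fun y hy => congrArg CAff.β hy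
  have h3 : (fun x => (w x).δ) =ᶠ[𝓝 x] (fun x => (w' x).δ) := h.mono fun y hy => congrArg CAff.δ hy
  rw [rd_congr hp h1, rd_congr hp h2, rd_congr hp h3, h.self_of_nhds]

lemma MC_mul_left {p : R → V} (hp : IsLocalHomeomorph p) {w : R → CAff} {x : R}
    (h : CHolAt p w x) (b : CAff) : MC hp (fun x => b * w x) x = MC hp w x := by
  unfold MC
  have h1 : rd hp (fun x => (b * w x).c) x = b.c • rd hp (fun x => (w x).c) x :=
    HasRD.rd_eq hp ((h.1.hasRD hp).const_mul b.c)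
  have h2 : rd hp (fun x => (b * w x).β) x = b.c⁻¹ • rd hp (fun x => (w x).β) x :=
    HasRD.rd_eq hp (((h.2.1.hasRD hp).const_mul b.c⁻¹).add_const b.β)
  have h3 : rd hp (fun x => (b * w x).δ) x = b.c • rd hp (fun x => (w x).δ) x :=
    HasRD.rd_eq hp (((h.2.2.hasRD hp).const_mul b.c).add_const b.δ)
  have hb := b.hc
  have hw := (w x).hc
  rw [h1, h2, h3]
  simp only [CAff.mul_c, smul_smul, mul_inv]
  congr 1
  · congr 1
    field_simp
  · congr 1
    · congr 1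
      field_simp
    · congr 1
      field_simp

lemma MC_solAt {p : R → V} (hp : IsLocalHomeomorph p) {w : R → CAff} {x : R}
    (h : CHolAt p w x) : SolAt p (MC hp w) w x := by
  have hw := (w x).hc
  refine ⟨?_, ?_, ?_⟩
  · have := h.1.hasRD hp
    convert this using 1
    simp only [MC, smul_smul, mul_inv_cancel₀ hw, one_smul]
  · have := h.2.1.hasRD hp
    convert this using 1
    simp only [MC, smul_smul, inv_mul_cancel₀ hw, one_smul]
  · have := h.2.2.hasRD hp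
    convert this using 1
    simp only [MC, smul_smul, mul_inv_cancel₀ hw, one_smul]

lemma HolAt.smul {W : Type} [NormedAddCommGroup W] [NormedSpace ℂ W] {p : R → V} {f : R → ℂ}
    {F : R → W} {y : R} (hf : HolAt p f y) (hF : HolAt p F y) : HolAt p (fun y => f y • F y) y := by
  obtain ⟨g, hg1, hg2⟩ := hf
  obtain ⟨G, hG1, hG2⟩ := hF
  refine ⟨fun z => g z • G z, ?_, ?_⟩
  · filter_upwards [hg1, hG1] with z h1 h2
    exact h1.smul h2
  · filter_upwards [hg2, hG2] with z h1 h2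
    simp [h1, h2]

lemma HolAt.inv {p : R → V} {f : R → ℂ} {y : R} (hf : HolAt p f y) (h0 : f y ≠ 0) :
    HolAt p (fun y => (f y)⁻¹) y := by
  obtain ⟨g, hg1, hg2⟩ := hf
  refine ⟨fun z => (g z)⁻¹, ?_, ?_⟩
  · have h3 : f y = g (p y) := hg2.self_of_nhds
    rw [h3] at h0
    filter_upwards [hg1, hg1.self_of_nhds.continuousAt.eventually_ne h0] with z h1 h2
    exact h1.inv h2
  · filter_upwards [hg2] with z h1
    simp [h1]

lemma MC_holAt [FiniteDimensional ℂ V] {p : R → V} (hp : IsLocalHomeomorph p) {w : R → CAff} {x : R}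
    (h : CHolAt p w x) : HolAt p (fun x => (MC hp w x).1) x ∧ HolAt p (fun x => (MC hp w x).2.1) x ∧
      HolAt p (fun x => (MC hp w x).2.2) x := by
  have hw := (w x).hc
  exact ⟨(h.1.inv hw).smul (h.1.rd hp), h.1.smul (h.2.1.rd hp), (h.1.inv hw).smul (h.2.2.rd hp)⟩

/-- The invariant form of a holomorphic map to `X_0` defined off a closed set. -/
theorem exists_form [FiniteDimensional ℂ V] {p : R → V} (hp : IsLocalHomeomorph p) {A : Set R}
    (hA : IsClosed A) {g : R → Y0} (hg : ∀ x ∉ A, HolMapAt p (XX 0) g x) :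
    ∃ H : R → (V →L[ℂ] ℂ) × (V →L[ℂ] ℂ) × (V →L[ℂ] ℂ),
      (∀ x ∉ A, HolAt p (fun x => (H x).1) x ∧ HolAt p (fun x => (H x).2.1) x ∧
        HolAt p (fun x => (H x).2.2) x) ∧
      ∀ x ∉ A, ∃ w : R → CAff, CHolAt p w x ∧ (∀ᶠ x' in 𝓝 x, g x' = PP (w x')) ∧
        ∀ᶠ x' in 𝓝 x, SolAt p H w x' := by
  classical
  have hlift : ∀ x ∉ A, ∃ w : R → CAff, CHolAt p w x ∧ ∀ᶠ x' in 𝓝 x, g x' = PP (w x') :=
    fun x hx => exists_lift hp.continuous (hg x hx)
  choose w hw1 hw2 using hlift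
  let H : R → (V →L[ℂ] ℂ) × (V →L[ℂ] ℂ) × (V →L[ℂ] ℂ) := fun x =>
    if hx : x ∉ A then MC hp (w x hx) x else 0
  have hpc := hp.continuous
  -- near `x` we have `H = MC (w x)`
  have key : ∀ x (hx : x ∉ A), ∀ᶠ x' in 𝓝 x, H x' = MC hp (w x hx) x' := by
    intro x hx
    have e1 : ∀ᶠ x' in 𝓝 x, CHolAt p (w x hx) x' :=
      ((hw1 x hx).1.eventually hpc).and (((hw1 x hx).2.1.eventually hpc).and
        ((hw1 x hx).2.2.eventually hpc))
    filter_upwards [e1, (hw2 x hx).eventually_nhds, hA.isOpen_compl.mem_nhds hx] with x' h1 h2 h3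
    have h4 : H x' = MC hp (w x' h3) x' := dif_pos h3
    rw [h4]
    have h5 : ∀ᶠ x'' in 𝓝 x', PP (w x' h3 x'') = PP (w x hx x'') := by
      filter_upwards [hw2 x' h3, h2] with x'' k1 k2
      rw [← k1, k2]
    obtain ⟨γ, hγ⟩ := lifts_eq ((hw1 x' h3).continuousAt hpc) (h1.continuousAt hpc) h5
    rw [MC_congr hp hγ, MC_mul_left hp h1]
  refine ⟨H, ?_, ?_⟩
  · intro x hx
    obtain ⟨m1, m2, m3⟩ := MC_holAt hp (hw1 x hx)
    refine ⟨m1.congr ?_, m2.congr ?_, m3.congr ?_⟩ <;>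
    · filter_upwards [key x hx] with x' hx'
      rw [hx']
  · intro x hx
    refine ⟨w x hx, hw1 x hx, hw2 x hx, ?_⟩
    have e1 : ∀ᶠ x' in 𝓝 x, CHolAt p (w x hx) x' :=
      ((hw1 x hx).1.eventually hpc).and (((hw1 x hx).2.1.eventually hpc).and
        ((hw1 x hx).2.2.eventually hpc))
    filter_upwards [key x hx, e1] with x' h1 h2
    exact (MC_solAt hp h2).congr (EventuallyEq.refl _ _) h1.symm

end Pool.Agent.Lib.MP_55bc5f_an
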