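import Mathlib
import Pool.Agent.Lib.MP_55bc5f_an.Forms
import Pool.Agent.Lib.MP_55bc5f_an.Across
import Pool.Agent.Lib.MP_55bc5f_an.Cover

/-!
# The fibre `X_0` has the extension property
-/

set_option autoImplicit false

open scoped Manifold ContDiff Topology ComplexConjugate
open Set Filter Metric

namespace Pool.Agent.Lib.MP_55bc5f_an

variable {V : Type} [NormedAddCommGroup V] [NormedSpace ℂ V]
variable {R D : Type} [TopologicalSpace R] [TopologicalSpace D]

lemma HolAt.zero {W : Type} [NormedAddCommGroup W] [NormedSpace ℂ W] (p : R → V) (x : R) :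
    HolAt p (fun _ => (0 : W)) x :=
  ⟨fun _ => 0, Eventually.of_forall (fun _ => differentiableAt_const 0), EventuallyEq.refl _ _⟩

lemma HolAt.sub {W : Type} [NormedAddCommGroup W] [NormedSpace ℂ W] {p : R → V} {f F : R → W}
    {y : R} (hf : HolAt p f y) (hF : HolAt p F y) : HolAt p (fun y => f y - F y) y := by
  obtain ⟨g, hg1, hg2⟩ := hf
  obtain ⟨G, hG1, hG2⟩ := hF
  refine ⟨fun z => g z - G z, ?_, ?_⟩
  · filter_upwards [hg1, hG1] with z h1 h2
    exact h1.sub h2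
  · filter_upwards [hg2, hG2] with z h1 h2
    simp [h1, h2]

lemma HolAt.add {W : Type} [NormedAddCommGroup W] [NormedSpace ℂ W] {p : R → V} {f F : R → W}
    {y : R} (hf : HolAt p f y) (hF : HolAt p F y) : HolAt p (fun y => f y + F y) y := by
  obtain ⟨g, hg1, hg2⟩ := hf
  obtain ⟨G, hG1, hG2⟩ := hF
  refine ⟨fun z => g z + G z, ?_, ?_⟩
  · filter_upwards [hg1, hG1] with z h1 h2
    exact h1.add h2
  · filter_upwards [hg2, hG2] with z h1 h2
    simp [h1, h2]

lemma HolAt.sum {W : Type} [NormedAddCommGroup W] [NormedSpace ℂ W] {p : R → V} {ι : Type}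
    (s : Finset ι) {f : ι → R → W} {y : R} (hf : ∀ i, HolAt p (f i) y) :
    HolAt p (fun y => ∑ i ∈ s, f i y) y := by
  choose g hg1 hg2 using hf
  refine ⟨fun z => ∑ i ∈ s, g i z, ?_, ?_⟩
  · have : ∀ᶠ z in 𝓝 (p y), ∀ i ∈ s, DifferentiableAt ℂ (g i) z :=
      (Finset.eventually_all s).2 fun i _ => hg1 i
    filter_upwards [this] with z hz
    exact DifferentiableAt.fun_sum hz
  · have : ∀ᶠ z in 𝓝 y, ∀ i ∈ s, f i z = g i (p z) :=
      (Finset.eventually_all s).2 fun i _ => hg2 i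
    filter_upwards [this] with z hz
    simp only [Function.comp_apply]
    exact Finset.sum_congr rfl hz

/-- Extension of vector valued functions. -/
lemma extend_vec {W : Type} [NormedAddCommGroup W] [NormedSpace ℂ W] [FiniteDimensional ℂ W]
    {q : D → V} {p : R → V} {j : D → R}
    (hext : ∀ h : D → ℂ, (∀ x, HolFunAt q h x) →
      ∃ H : R → ℂ, (∀ y, HolFunAt p H y) ∧ ∀ x, H (j x) = h x)
    {F : D → W} (hF : ∀ x, HolAt q F x) :
    ∃ F' : R → W, (∀ y, HolAt p F' y) ∧ ∀ x, F' (j x) = F x := by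
  let b := Module.finBasis ℂ W
  have h1 : ∀ i, ∃ H : R → ℂ, (∀ y, HolFunAt p H y) ∧ ∀ x, H (j x) = b.coord i (F x) := fun i =>
    hext _ fun x => (hF x).comp_clm (LinearMap.toContinuousLinearMap (b.coord i))
  choose H hH1 hH2 using h1
  refine ⟨fun y => ∑ i, H i y • b i, fun y => HolAt.sum _ fun i => ?_, fun x => ?_⟩
  · have h2 : HolAt p (fun _ : R => b i) y :=
      ⟨fun _ => b i, Eventually.of_forall (fun _ => differentiableAt_const _), EventuallyEq.refl _ _⟩
    exact (holAt_iff_holFunAt.2 (hH1 i y)).smul h2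
  · simp only [hH2]
    exact b.sum_repr (F x)

lemma HolMapAt.congr {E : Type} [NormedAddCommGroup E] [NormedSpace ℂ E] {p : R → V} {Y : CMan E}
    {F G : R → Y} {x : R} (hF : HolMapAt p Y F x) (h : F =ᶠ[𝓝 x] G) : HolMapAt p Y G x := by
  obtain ⟨g, hg1, hg2⟩ := hF
  exact ⟨g, hg1, h.symm.trans hg2⟩

lemma rd_comp {W : Type} [NormedAddCommGroup W] [NormedSpace ℂ W] {q : D → V} {p : R → V} {j : D → R}
    (hq : IsLocalHomeomorph q) (hp : IsLocalHomeomorph p)
    (hj : Continuous j) (hpj : ∀ x, p (j x) = q x) {F : R → W} {x : D} (hF : HolAt p F (j x)) :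
    rd hq (fun x => F (j x)) x = rd hp F (j x) :=
  HasRD.rd_eq hq (HasRD.comp (V' := V) hj hpj (hF.hasRD hp))

lemma locallyPathConnected {p : R → V} (hp : IsLocalHomeomorph p) : LocallyPathConnectedSpace R := by
  let _ : NormedSpace ℝ V := NormedSpace.restrictScalars ℝ ℂ V
  let c : ChartedSpace V R :=
    { atlas := range fun y => (ch hp y).symm
      chartAt := fun y => (ch hp y).symm
      mem_chart_source := fun y => ch_mem' hp y
      chart_mem_atlas := fun y => ⟨y, rfl⟩ }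
  exact ChartedSpace.locallyPathConnectedSpace V R

/-- Any map to `X_0`, holomorphic off an analytic set of codimension at least two, extends
holomorphically to the extension domain. -/
theorem positive [FiniteDimensional ℂ V] {q : D → V} {p : R → V} {j : D → R}
    (hq' : IsRiemannDomain q) (hp' : IsRiemannDomain p) (hjc : Continuous j)
    (hpj : ∀ x, p (j x) = q x)
    (hext : ∀ h : D → ℂ, (∀ x, HolFunAt q h x) →
      ∃ H : R → ℂ, (∀ y, HolFunAt p H y) ∧ ∀ x, H (j x) = h x)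
    (hpi : PiOneOnto j) {A : Set D} (hA : IsAnalyticSet q A) (hcodim : CodimGeTwo q A)
    {g : D → Y0} (hg : ∀ x ∉ A, HolMapAt q (XX 0) g x) :
    ∃ g' : R → Y0, (∀ y, HolMapAt p (XX 0) g' y) ∧ ∀ x ∉ A, g' (j x) = g x := by
  have hq := hq'.localHomeo
  have hp := hp'.localHomeo
  have _i1 := hq'.connected
  have _i2 := hp'.connected
  have _i3 := locallyPathConnected hp
  have _i4 : PathConnectedSpace R := pathConnectedSpace_iff_connectedSpace.2 inferInstance
  have hAc : IsClosed A := hA.isClosed hq.continuous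
  have hjl : IsLocalHomeomorph j := by
    have : IsLocalHomeomorph (p ∘ j) := by
      have h : p ∘ j = q := funext hpj
      rw [h]; exact hq
    exact this.of_comp hp hjc
  obtain ⟨H, hH1, hH2⟩ := exists_form hq hAc hg
  obtain ⟨H₁, hH₁, hH₁'⟩ := ext_across hq hA hcodim (fun x hx => (hH1 x hx).1)
  obtain ⟨H₂, hH₂, hH₂'⟩ := ext_across hq hA hcodim (fun x hx => (hH1 x hx).2.1)
  obtain ⟨H₃, hH₃, hH₃'⟩ := ext_across hq hA hcodim (fun x hx => (hH1 x hx).2.2)
  obtain ⟨Θ₁, hΘ₁, hΘ₁'⟩ := extend_vec hext hH₁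
  obtain ⟨Θ₂, hΘ₂, hΘ₂'⟩ := extend_vec hext hH₂
  obtain ⟨Θ₃, hΘ₃, hΘ₃'⟩ := extend_vec hext hH₃
  let Θ : R → (V →L[ℂ] ℂ) × (V →L[ℂ] ℂ) × (V →L[ℂ] ℂ) := fun y => (Θ₁ y, Θ₂ y, Θ₃ y)
  have hΘ : ∀ x ∉ A, Θ (j x) = H x := by
    intro x hx
    apply Prod.ext
    · change Θ₁ (j x) = _
      rw [hΘ₁', hH₁' x hx]
    · apply Prod.ext
      · change Θ₂ (j x) = _
        rw [hΘ₂', hH₂' x hx]
      · change Θ₃ (j x) = _
        rw [hΘ₃', hH₃' x hx]
  -- local solutions on `D`
  have hsolD : ∀ x ∉ A, ∃ w : D → CAff, (∀ᶠ x' in 𝓝 x, g x' = PP (w x')) ∧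
      ∀ᶠ x' in 𝓝 x, SolAt q (Θ ∘ j) w x' := by
    intro x hx
    obtain ⟨w, -, hw2, hw3⟩ := hH2 x hx
    refine ⟨w, hw2, ?_⟩
    filter_upwards [hw3, hAc.isOpen_compl.mem_nhds hx] with x' h1 h2
    exact h1.congr (EventuallyEq.refl _ _) (hΘ x' h2).symm
  -- closedness on `j (D \ A)`
  have hclD : ∀ x ∉ A, ClosedAt (Θ₁ (j x)) (Θ₂ (j x)) (Θ₃ (j x)) (rd hp Θ₁ (j x))
      (rd hp Θ₂ (j x)) (rd hp Θ₃ (j x)) := by
    intro x hx
    obtain ⟨w, hw1, hw2⟩ := hsolD x hx
    have h1 : HolAt q (fun x => Θ₁ (j x)) x := HolAt.comp hjc hpj (hΘ₁ (j x))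
    have h2 : HolAt q (fun x => Θ₂ (j x)) x := HolAt.comp hjc hpj (hΘ₂ (j x))
    have h3 : HolAt q (fun x => Θ₃ (j x)) x := HolAt.comp hjc hpj (hΘ₃ (j x))
    have := closedAt_of_solAt hq (Θ := Θ ∘ j) h1 h2 h3 hw2
    rw [← rd_comp hq hp hjc hpj (hΘ₁ (j x)), ← rd_comp hq hp hjc hpj (hΘ₂ (j x)),
      ← rd_comp hq hp hjc hpj (hΘ₃ (j x))]
    exact this
  obtain ⟨x₀, hx₀⟩ : ∃ x₀, x₀ ∉ A := by
    obtain ⟨a⟩ := (inferInstance : Nonempty D)
    have := mem_closure_compl hq hcodim a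
    obtain ⟨x, hx⟩ := closure_nonempty_iff.1 ⟨a, this⟩
    exact ⟨x, hx⟩
  have hnear : ∀ᶠ y in 𝓝 (j x₀), ∃ x, x ∉ A ∧ j x = y := by
    rw [← hjl.map_nhds_eq x₀, eventually_map]
    filter_upwards [hAc.isOpen_compl.mem_nhds hx₀] with x hx
    exact ⟨x, hx, rfl⟩
  have happly : ∀ {F : R → V →L[ℂ] ℂ} (v : V) {y : R}, HolAt p F y → HolAt p (fun y => F y v) y :=
    fun v _ hF => hF.comp_clm (ContinuousLinearMap.apply ℂ ℂ v)
  have happly2 : ∀ {F : R → V →L[ℂ] ℂ} (u v : V) {y : R}, HolAt p F y →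
      HolAt p (fun y => rd hp F y u v) y := fun u v _ hF =>
    ((hF.rd hp).comp_clm (ContinuousLinearMap.apply ℂ (V →L[ℂ] ℂ) u)).comp_clm
      (ContinuousLinearMap.apply ℂ ℂ v)
  have hmul : ∀ {f F : R → ℂ} {y : R}, HolAt p f y → HolAt p F y → HolAt p (fun y => f y * F y) y :=
    fun hf hF => hf.smul hF
  -- closedness on `R`
  have hclR : ∀ y, ClosedAt (Θ₁ y) (Θ₂ y) (Θ₃ y) (rd hp Θ₁ y) (rd hp Θ₂ y) (rd hp Θ₃ y) := by
    intro y u v
    refine ⟨?_, ?_, ?_⟩
    · have := identity hp (F := fun y => rd hp Θ₁ y u v) (G := fun y => rd hp Θ₁ y v u) (y₀ := j x₀)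
        (fun y => happly2 u v (hΘ₁ y)) (fun y => happly2 v u (hΘ₁ y)) (by
          filter_upwards [hnear]
          rintro _ ⟨x, hx, rfl⟩
          exact (hclD x hx u v).1)
      exact congrFun this y
    · have := identity hp (F := fun y => rd hp Θ₂ y u v - Θ₁ y u * Θ₂ y v)
        (G := fun y => rd hp Θ₂ y v u - Θ₁ y v * Θ₂ y u) (y₀ := j x₀)
        (fun y => (happly2 u v (hΘ₂ y)).sub (hmul (happly u (hΘ₁ y)) (happly v (hΘ₂ y))))
        (fun y => (happly2 v u (hΘ₂ y)).sub (hmul (happly v (hΘ₁ y)) (happly u (hΘ₂ y)))) (by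
          filter_upwards [hnear]
          rintro _ ⟨x, hx, rfl⟩
          exact (hclD x hx u v).2.1)
      exact congrFun this y
    · have := identity hp (F := fun y => rd hp Θ₃ y u v + Θ₁ y u * Θ₃ y v)
        (G := fun y => rd hp Θ₃ y v u + Θ₁ y v * Θ₃ y u) (y₀ := j x₀)
        (fun y => (happly2 u v (hΘ₃ y)).add (hmul (happly u (hΘ₁ y)) (happly v (hΘ₃ y))))
        (fun y => (happly2 v u (hΘ₃ y)).add (hmul (happly v (hΘ₁ y)) (happly u (hΘ₃ y)))) (by
          filter_upwards [hnear]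
          rintro _ ⟨x, hx, rfl⟩
          exact (hclD x hx u v).2.2)
      exact congrFun this y
  -- local solutions on `R`
  have hsolR : ∀ y, ∃ w : R → CAff, ∃ N : Set R, IsOpen N ∧ y ∈ N ∧ ∀ y' ∈ N, SolAt p Θ w y' := by
    intro y
    obtain ⟨w, hw⟩ := exists_solution hp (Θ := Θ) (hΘ₁ y) (hΘ₂ y) (hΘ₃ y)
      (Eventually.of_forall hclR)
    obtain ⟨N, hN1, hN2, hN3⟩ := eventually_nhds_iff.1 hw
    exact ⟨w, N, hN2, hN3, hN1⟩
  choose w N hNo hyN hw using hsolR
  have hwhol : ∀ i, ∀ y ∈ N i, ∀ b : CAff, CHolAt p (fun y => b * w i y) y := by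
    intro i y hy b
    apply CHolAt.of_solAt hp (Θ := Θ)
    filter_upwards [(hNo i).mem_nhds hy] with y' hy'
    exact (hw i y' hy').mul_left b
  have hcst : ∀ i k, ∀ y ∈ N i ∩ N k, ∀ᶠ y' in 𝓝 y,
      w i y' * (w k y')⁻¹ = w i y * (w k y)⁻¹ := by
    rintro i k y ⟨hy1, hy2⟩
    apply SolAt.eventually_const hp (Θ := Θ)
    filter_upwards [(hNo i).mem_nhds hy1, (hNo k).mem_nhds hy2] with y' h1 h2
    exact ⟨hw k y' h2, hw i y' h1⟩
  -- local form of `g`
  have hloc : ∀ a : D, ∃ M : Set D, IsOpen M ∧ a ∈ M ∧ M ⊆ j ⁻¹' N (j a) ∧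
      ∃ η : Y0, ∀ x ∈ M \ A, g x = act η (w (j a) (j x)) := by
    intro a
    obtain ⟨M, hMS, hMo, haM, hMp⟩ := exists_nhd_preconnected hq hA a
      ((hNo (j a)).preimage hjc |>.mem_nhds (hyN (j a)))
    refine ⟨M, hMo, haM, hMS, ?_⟩
    let φ : D → Disc Y0 := fun x => ⟨act (g x) (w (j a) (j x))⁻¹⟩
    have hφ : ContinuousOn φ (M \ A) := by
      rintro x ⟨hxM, hxA⟩
      apply ContinuousAt.continuousWithinAt
      obtain ⟨v, hv1, hv2⟩ := hsolD x hxA
      have h1 : ∀ᶠ x' in 𝓝 x, SolAt q (Θ ∘ j) (w (j a) ∘ j) x' ∧ SolAt q (Θ ∘ j) v x' := by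
        filter_upwards [hMo.mem_nhds hxM, hv2] with x' k1 k2
        exact ⟨(hw (j a) (j x') (hMS k1)).comp hjc hpj, k2⟩
      have h2 := SolAt.eventually_const hq h1
      have h3 : ∀ᶠ x' in 𝓝 x, φ x' = φ x := by
        filter_upwards [h2, hv1] with x' k1 k2
        simp only [φ, k2, hv1.self_of_nhds, act_PP]
        simp only [Function.comp_apply] at k1
        rw [k1]
      exact continuousAt_const.congr (h3.mono fun _ h => h.symm)
    rcases (M \ A).eq_empty_or_nonempty with he | ⟨x₁, hx₁⟩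
    · exact ⟨PP 1, fun x hx => by rw [he] at hx; exact absurd hx (notMem_empty x)⟩
    · refine ⟨(φ x₁).val, fun x hx => ?_⟩
      have h1 : φ x₁ = φ x := hMp.constant hφ hx₁ hx
      rw [h1]
      simp only [φ]
      rw [act_act, inv_mul_cancel, act_one]
  choose M hMo haM hMN η hη using hloc
  -- extension of `g` across `A`
  have hcont : ∀ (a : D) (x : D), x ∈ M a → ContinuousAt (fun x => act (η a) (w (j a) (j x))) x := by
    intro a x hx
    have h1 : ContinuousAt (fun y => toOm (lft (η a) * w (j a) y)) (j x) :=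
      (hwhol (j a) (j x) (hMN a hx) (lft (η a))).continuousAt hp.continuous
    have h2 : ContinuousAt (fun x => toOm (lft (η a) * w (j a) (j x))) x :=
      ContinuousAt.comp (f := j) h1 hjc.continuousAt
    exact (Quot.P_continuous (G := Gam) (M := Om 0)).continuousAt.comp h2
  let g₁ : D → Y0 := extendFrom Aᶜ g
  have hg₁ : ∀ (a : D) (x : D), x ∈ M a → g₁ x = act (η a) (w (j a) (j x)) := by
    intro a x hx
    apply extendFrom_eq (mem_closure_compl hq hcodim x)
    have h1 : Tendsto (fun x => act (η a) (w (j a) (j x))) (𝓝[Aᶜ] x)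
        (𝓝 (act (η a) (w (j a) (j x)))) := (hcont a x hx).tendsto.mono_left nhdsWithin_le_nhds
    refine h1.congr' ?_
    filter_upwards [nhdsWithin_le_nhds ((hMo a).mem_nhds hx), self_mem_nhdsWithin] with x' k1 k2
    exact (hη a x' ⟨k1, k2⟩).symm
  obtain ⟨g', hg'1, hg'2⟩ := glue act act_act act_one N hNo hyN w hcst hpi (g := g₁) (by
    intro x
    filter_upwards [(hMo x).mem_nhds (haM x)] with x' hx'
    rw [hg₁ x x' hx', hg₁ x x (haM x), act_act, act_act, mul_inv_cancel, mul_inv_cancel])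
  refine ⟨g', ?_, ?_⟩
  · intro y
    set ζ : Y0 := act (g' y) (w y y)⁻¹ with hζ
    have h1 : HolMapAt p (XX 0) (fun y' => PP (lft ζ * w y y')) y :=
      holMapAt_PP (hwhol y y (hyN y) (lft ζ))
    apply h1.congr
    filter_upwards [hg'2 y] with y' hy'
    change act ζ (w y y') = g' y'
    rw [hζ, ← hy', act_act, inv_mul_cancel, act_one]
  · intro x hx
    rw [hg'1, hg₁ x x (haM x), hη x x ⟨haM x, hx⟩]

/-- The extension theorem for `X_0`, in the language of meromorphic maps. -/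
theorem positive_mero [FiniteDimensional ℂ V] {q : D → V} {p : R → V} {j : D → R}
    (hq' : IsRiemannDomain q) (hR : IsExtension q p j) (hpi : PiOneOnto j)
    (G : Set (D × XX 0)) (hG : IsMeromorphic q (XX 0) G) :
    ∃ G' : Set (R × XX 0), IsMeromorphic p (XX 0) G' ∧
      ∀ (x : D) (y : XX 0), (j x, y) ∈ G' ↔ (x, y) ∈ G := by
  obtain ⟨A, g, hA, hcodim, hg, hGe⟩ := hG.generic
  have hq := hq'.localHomeo
  have hp := hR.domain.localHomeo
  obtain ⟨g', hg'1, hg'2⟩ := positive hq' hR.domain hR.cont hR.comp hR.extend hpi hA hcodim hg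
  let g'' : R → XX 0 := g'
  refine ⟨{w | w.2 = g'' w.1}, isMeromorphic_graph hp.continuous hg'1, ?_⟩
  have hc : Continuous g'' := continuous_iff_continuousAt.2 fun y =>
    (hg'1 y).continuousAt hp.continuous.continuousAt
  have hcj : Continuous (g'' ∘ j) := hc.comp hR.cont
  intro x y
  constructor
  · intro hy
    have hy' : y = g'' (j x) := hy
    rw [hGe, hy']
    have h1 : ContinuousAt (fun x => ((x, g'' (j x)) : D × XX 0)) x :=
      (continuous_id.prodMk hcj).continuousAt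
    have h2 := h1.continuousWithinAt (s := Aᶜ) |>.mem_closure_image (mem_closure_compl hq hcodim x)
    refine closure_mono ?_ h2
    rintro _ ⟨x', hx', rfl⟩
    exact ⟨hx', hg'2 x' hx'⟩
  · intro hy
    rw [hGe] at hy
    have hcl : IsClosed {w : D × XX 0 | w.2 = g'' (j w.1)} :=
      isClosed_eq continuous_snd (hcj.comp continuous_fst)
    have hsub : {w : D × XX 0 | w.1 ∉ A ∧ w.2 = g w.1} ⊆ {w : D × XX 0 | w.2 = g'' (j w.1)} := by
      rintro ⟨a, b⟩ ⟨h1, h2⟩
      change b = g'' (j a)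
      rw [show b = g a from h2]
      exact (hg'2 a h1).symm
    exact closure_minimal hsub hcl hy

/-- `X_0` has the extension property. -/
theorem envelopeMEP_zero : EnvelopeMEP (XX 0) := by
  intro V _ _ _ D _ q R _ p j hq hR hpi G hG
  exact positive_mero hq hR.ext hpi G hG

end Pool.Agent.Lib.MP_55bc5f_an
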