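import Mathlib
import Pool.Agent.Lib.MP_55bc5f_an.Positive

/-!
# Hartogs figures: extension of holomorphic functions to the polydisc
-/

set_option autoImplicit false

open scoped Manifold ContDiff Topology ComplexConjugate
open Set Filter Metric

namespace Pool.Agent.Lib.MP_55bc5f_an

lemma mem_Polydisc {n : ℕ} {x : (Fin n → ℂ) × ℂ} : x ∈ Polydisc n ↔ ‖x.1‖ < 1 ∧ ‖x.2‖ < 1 := by
  unfold Polydisc
  rw [mem_ball_zero_iff, Prod.norm_def, max_lt_iff]

lemma Polydisc_isOpen (n : ℕ) : IsOpen (Polydisc n) := isOpen_ball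

lemma Hartogs_isOpen (n : ℕ) (r : ℝ) : IsOpen (Hartogs n r) := by
  have h1 : IsOpen {x : (Fin n → ℂ) × ℂ | ‖x.1‖ < r} := isOpen_lt (by fun_prop) (by fun_prop)
  have h2 : IsOpen {x : (Fin n → ℂ) × ℂ | 1 - r < ‖x.2‖} := isOpen_lt (by fun_prop) (by fun_prop)
  exact (Polydisc_isOpen n).inter (h1.union h2)

instance (n : ℕ) : SimplyConnectedSpace (Polydisc n) := by
  have h1 : Convex ℝ (Polydisc n) := convex_ball 0 1
  have : ContractibleSpace (Polydisc n) :=
    h1.contractibleSpace ⟨0, mem_ball_self one_pos⟩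
  infer_instance

lemma Polydisc_riemann (n : ℕ) : IsRiemannDomain (Subtype.val : Polydisc n → (Fin n → ℂ) × ℂ) :=
  ⟨inferInstance, inferInstance, (Polydisc_isOpen n).isOpenEmbedding_subtypeVal.isLocalHomeomorph⟩

lemma annulus_connected {a : ℝ} (ha : 0 < a) (ha1 : a < 1) :
    IsConnected {z : ℂ | a < ‖z‖ ∧ ‖z‖ < 1} := by
  have h : IsConnected (Complex.exp '' {z : ℂ | Real.log a < z.re ∧ z.re < 0}) := by
    apply IsConnected.image
    · have hc : Convex ℝ {z : ℂ | Real.log a < z.re ∧ z.re < 0} :=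
        (convex_halfSpace_re_gt _).inter (convex_halfSpace_re_lt _)
      refine hc.isConnected ⟨(((Real.log a) / 2 : ℝ) : ℂ), ?_, ?_⟩
      · have := Real.log_neg ha ha1
        change Real.log a < (((Real.log a) / 2 : ℝ) : ℂ).re
        rw [Complex.ofReal_re]; linarith
      · have := Real.log_neg ha ha1
        change (((Real.log a) / 2 : ℝ) : ℂ).re < 0
        rw [Complex.ofReal_re]; linarith
    · exact Complex.continuous_exp.continuousOn
  convert h using 1
  ext z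
  constructor
  · rintro ⟨h1, h2⟩
    have hz : z ≠ 0 := by rintro rfl; simp at h1; linarith
    refine ⟨Complex.log z, ⟨?_, ?_⟩, Complex.exp_log hz⟩
    · rw [Complex.log_re]
      exact Real.log_lt_log ha h1
    · rw [Complex.log_re]
      exact Real.log_neg (norm_pos_iff.2 hz) h2
  · rintro ⟨w, ⟨h1, h2⟩, rfl⟩
    refine ⟨?_, ?_⟩
    · rw [Complex.norm_exp, ← Real.log_lt_iff_lt_exp ha]
      exact h1
    · rw [Complex.norm_exp, Real.exp_lt_one_iff]
      exact h2

lemma Hartogs_connected {n : ℕ} {r : ℝ} (hr : 0 < r) (hr1 : r < 1) :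
    ConnectedSpace (Hartogs n r) := by
  rw [← isConnected_iff_connectedSpace]
  have e : Hartogs n r = (ball (0 : Fin n → ℂ) r ×ˢ ball (0:ℂ) 1) ∪
      (ball (0 : Fin n → ℂ) 1 ×ˢ {z : ℂ | 1 - r < ‖z‖ ∧ ‖z‖ < 1}) := by
    ext ⟨z, w⟩
    simp only [Hartogs, mem_Polydisc, mem_ofPred_eq, mem_union, mem_prod, mem_ball_zero_iff]
    constructor
    · rintro ⟨⟨h1, h2⟩, h3 | h3⟩
      · exact Or.inl ⟨h3, h2⟩
      · exact Or.inr ⟨h1, h3, h2⟩
    · rintro (⟨h1, h2⟩ | ⟨h1, h2, h3⟩)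
      · exact ⟨⟨h1.trans hr1, h2⟩, Or.inl h1⟩
      · exact ⟨⟨h1, h3⟩, Or.inr h2⟩
  rw [e]
  have c1 : IsConnected (ball (0 : Fin n → ℂ) r ×ˢ ball (0:ℂ) 1) :=
    ((convex_ball _ _).isConnected ⟨0, mem_ball_self hr⟩).prod
      ((convex_ball _ _).isConnected ⟨0, mem_ball_self one_pos⟩)
  have c2 : IsConnected (ball (0 : Fin n → ℂ) 1 ×ˢ {z : ℂ | 1 - r < ‖z‖ ∧ ‖z‖ < 1}) :=
    ((convex_ball _ _).isConnected ⟨0, mem_ball_self one_pos⟩).prod
      (annulus_connected (by linarith) (by linarith))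
  refine IsConnected.union ?_ c1 c2
  refine ⟨(0, ((1 - r / 2 : ℝ) : ℂ)), ⟨mem_ball_self hr, ?_⟩, ⟨mem_ball_self one_pos, ?_, ?_⟩⟩
  · rw [mem_ball_zero_iff, Complex.norm_real, Real.norm_eq_abs, abs_of_pos (by linarith)]
    linarith
  · rw [Complex.norm_real, Real.norm_eq_abs, abs_of_pos (by linarith)]
    linarith
  · rw [Complex.norm_real, Real.norm_eq_abs, abs_of_pos (by linarith)]
    linarith

lemma Hartogs_riemann {n : ℕ} {r : ℝ} (hr : 0 < r) (hr1 : r < 1) :
    IsRiemannDomain (Subtype.val : Hartogs n r → (Fin n → ℂ) × ℂ) :=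
  ⟨Hartogs_connected hr hr1, inferInstance,
    (Hartogs_isOpen n r).isOpenEmbedding_subtypeVal.isLocalHomeomorph⟩

/-- Hartogs' theorem. -/
theorem hartogs_extend {n : ℕ} {r : ℝ} (hr : 0 < r) (hr1 : r < 1) {h : (Fin n → ℂ) × ℂ → ℂ}
    (hh : DifferentiableOn ℂ h (Hartogs n r)) :
    ∃ H : (Fin n → ℂ) × ℂ → ℂ, DifferentiableOn ℂ H (Polydisc n) ∧ ∀ z ∈ Hartogs n r, H z = h z := by
  classical
  set ρ : ℝ := 1 - r / 2 with hρ
  have hρ0 : 0 < ρ := by linarith
  have hρ1 : ρ < 1 := by linarith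
  have hρr : 1 - r < ρ := by linarith
  -- the integrand on a bigger space
  let U : Set ((Fin n → ℂ) × ℂ × ℂ) := {x | (x.1, x.2.1) ∈ Hartogs n r ∧ x.2.1 - x.2.2 ≠ 0}
  let f : (Fin n → ℂ) × ℂ × ℂ → ℂ := fun x => (x.2.1 - x.2.2)⁻¹ • h (x.1, x.2.1)
  have hU : IsOpen U := by
    apply IsOpen.inter
    · exact (Hartogs_isOpen n r).preimage (by fun_prop)
    · exact isOpen_ne_fun (by fun_prop) (by fun_prop)
  have hf : DifferentiableOn ℂ f U := by
    rintro x ⟨hx1, hx2⟩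
    apply DifferentiableAt.differentiableWithinAt
    have d1 : DifferentiableAt ℂ h (x.1, x.2.1) :=
      (hh _ hx1).differentiableAt ((Hartogs_isOpen n r).mem_nhds hx1)
    have d2 : DifferentiableAt ℂ (fun x : (Fin n → ℂ) × ℂ × ℂ => ((x.1, x.2.1) : (Fin n → ℂ) × ℂ)) x := by
      fun_prop
    have d3 : DifferentiableAt ℂ (fun x : (Fin n → ℂ) × ℂ × ℂ => (x.2.1 - x.2.2)⁻¹) x := by
      apply DifferentiableAt.inv
      · fun_prop
      · exact hx2
    exact d3.smul (DifferentiableAt.comp x d1 d2)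
  let F : (Fin n → ℂ) × ℂ → ℂ := fun z =>
    (2 * Real.pi * Complex.I : ℂ)⁻¹ • ∮ s in C(0, ρ), (1 : ℂ) • f ((z.1, 0, z.2) + (0, s, 0))
  have hF : ∀ z : (Fin n → ℂ) × ℂ, ‖z.1‖ < 1 → ‖z.2‖ < ρ → DifferentiableAt ℂ F z := by
    intro z hz1 hz2
    refine DifferentiableAt.const_smul (f := fun z : (Fin n → ℂ) × ℂ =>
      ∮ s in C(0, ρ), (1 : ℂ) • f ((z.1, 0, z.2) + (0, s, 0))) ?_ (2 * Real.pi * Complex.I : ℂ)⁻¹
    have d1 : DifferentiableAt ℂ (fun u : (Fin n → ℂ) × ℂ × ℂ =>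
        ∮ s in C(0, ρ), (1 : ℂ) • f (u + (0, s, 0))) (z.1, 0, z.2) := by
      apply Osgood.differentiableAt_circleIntegral hU hf hρ0.le (k := fun _ => 1)
        (c := fun s => ((0, s, 0) : (Fin n → ℂ) × ℂ × ℂ)) continuousOn_const (by fun_prop)
      intro s hs
      rw [mem_sphere_zero_iff_norm] at hs
      refine ⟨?_, ?_⟩
      · refine ⟨?_, Or.inr ?_⟩
        · rw [mem_Polydisc]
          simp only [Prod.mk_add_mk, add_zero, zero_add]
          exact ⟨hz1, by rw [hs]; exact hρ1⟩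
        · simp only [Prod.mk_add_mk, add_zero, zero_add]
          rw [hs]; exact hρr
      · simp only [Prod.mk_add_mk, add_zero, zero_add]
        intro h0
        rw [sub_eq_zero] at h0
        rw [h0] at hs
        linarith
    have d2 : DifferentiableAt ℂ (fun z : (Fin n → ℂ) × ℂ =>
        ((z.1, 0, z.2) : (Fin n → ℂ) × ℂ × ℂ)) z := by fun_prop
    exact DifferentiableAt.comp z d1 d2
  have hFint : ∀ z : (Fin n → ℂ) × ℂ, F z =
      (2 * Real.pi * Complex.I : ℂ)⁻¹ • ∮ s in C(0, ρ), (s - z.2)⁻¹ • h (z.1, s) := by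
    intro z
    simp only [F, f, Prod.mk_add_mk, add_zero, zero_add, one_smul]
  -- equality for small `z.1`
  have hF1 : ∀ z : (Fin n → ℂ) × ℂ, ‖z.1‖ < r → ‖z.2‖ < ρ → F z = h z := by
    intro z hz1 hz2
    rw [hFint]
    have hmem : ∀ s : ℂ, ‖s‖ ≤ ρ → (z.1, s) ∈ Hartogs n r := fun s hs =>
      ⟨by rw [mem_Polydisc]; exact ⟨hz1.trans hr1, hs.trans_lt hρ1⟩, Or.inl hz1⟩
    have hdc : DiffContOnCl ℂ (fun s : ℂ => h (z.1, s)) (ball 0 ρ) := by
      apply DifferentiableOn.diffContOnCl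
      rw [closure_ball _ hρ0.ne']
      intro s hs
      rw [mem_closedBall_zero_iff] at hs
      have d1 : DifferentiableAt ℂ h (z.1, s) :=
        (hh _ (hmem s hs)).differentiableAt ((Hartogs_isOpen n r).mem_nhds (hmem s hs))
      have d2 : DifferentiableAt ℂ (fun s : ℂ => ((z.1, s) : (Fin n → ℂ) × ℂ)) s := by fun_prop
      exact (DifferentiableAt.comp s d1 d2).differentiableWithinAt
    have h3 := hdc.circleIntegral_sub_inv_smul (w := z.2) (by rwa [mem_ball_zero_iff])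
    rw [h3, smul_smul, inv_mul_cancel₀, one_smul]
    simp [Real.pi_ne_zero]
  -- equality on the annulus
  have hF2 : ∀ z : (Fin n → ℂ) × ℂ, ‖z.1‖ < 1 → 1 - r < ‖z.2‖ → ‖z.2‖ < ρ → F z = h z := by
    intro z hz1 hz2 hz3
    have hd : ∀ {k : (Fin n → ℂ) × ℂ → ℂ},
        (∀ u ∈ ball (0 : Fin n → ℂ) 1, DifferentiableAt ℂ k (u, z.2)) →
        DifferentiableOn ℂ (fun u => k (u, z.2)) (ball (0 : Fin n → ℂ) 1) := by
      intro k hk u hu
      have d2 : DifferentiableAt ℂ (fun u : Fin n → ℂ => ((u, z.2) : (Fin n → ℂ) × ℂ)) u := by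
        fun_prop
      exact (DifferentiableAt.comp u (hk u hu) d2).differentiableWithinAt
    have a1 := Osgood.analyticOnNhd (isOpen_ball (x := (0 : Fin n → ℂ)) (ε := 1))
      (hd (k := F) fun u hu => hF _ (by simpa using hu) hz3)
    have a2 := Osgood.analyticOnNhd (isOpen_ball (x := (0 : Fin n → ℂ)) (ε := 1))
      (hd (k := h) fun u hu => by
        have : (u, z.2) ∈ Hartogs n r :=
          ⟨by rw [mem_Polydisc]; exact ⟨by simpa using hu, hz3.trans hρ1⟩, Or.inr hz2⟩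
        exact (hh _ this).differentiableAt ((Hartogs_isOpen n r).mem_nhds this))
    have heq := a1.eqOn_of_preconnected_of_eventuallyEq a2
      (convex_ball (0 : Fin n → ℂ) 1).isPreconnected (mem_ball_self one_pos) (by
        filter_upwards [ball_mem_nhds (0 : Fin n → ℂ) hr] with u hu
        exact hF1 (u, z.2) (by simpa using hu) hz3)
    exact heq (show z.1 ∈ ball (0 : Fin n → ℂ) 1 by simpa using hz1)
  refine ⟨fun z => if ‖z.2‖ < ρ then F z else h z, ?_, ?_⟩
  · intro z hz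
    rw [mem_Polydisc] at hz
    apply DifferentiableAt.differentiableWithinAt
    by_cases hz2 : ‖z.2‖ < ρ
    · refine (hF z hz.1 hz2).congr_of_eventuallyEq ?_
      have : ∀ᶠ w : (Fin n → ℂ) × ℂ in 𝓝 z, ‖w.2‖ < ρ :=
        (isOpen_lt (by fun_prop) continuous_const).mem_nhds hz2
      filter_upwards [this] with w hw
      exact if_pos hw
    · have hz3 : 1 - r < ‖z.2‖ := by push Not at hz2; linarith
      have hzH : z ∈ Hartogs n r := ⟨by rw [mem_Polydisc]; exact hz, Or.inr hz3⟩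
      have d1 : DifferentiableAt ℂ h z :=
        (hh _ hzH).differentiableAt ((Hartogs_isOpen n r).mem_nhds hzH)
      refine d1.congr_of_eventuallyEq ?_
      have h1 : ∀ᶠ w : (Fin n → ℂ) × ℂ in 𝓝 z, 1 - r < ‖w.2‖ :=
        (isOpen_lt continuous_const (by fun_prop)).mem_nhds hz3
      have h2 : ∀ᶠ w : (Fin n → ℂ) × ℂ in 𝓝 z, ‖w.1‖ < 1 :=
        (isOpen_lt (by fun_prop) continuous_const).mem_nhds hz.1
      filter_upwards [h1, h2] with w hw1 hw2
      by_cases hw3 : ‖w.2‖ < ρ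
      · rw [if_pos hw3, hF2 w hw2 hw1 hw3]
      · rw [if_neg hw3]
  · rintro z ⟨hz, hz2⟩
    rw [mem_Polydisc] at hz
    by_cases hz3 : ‖z.2‖ < ρ
    · simp only [if_pos hz3]
      rcases hz2 with h1 | h1
      · exact hF1 z h1 hz3
      · exact hF2 z hz.1 h1 hz3
    · simp only [if_neg hz3]

/-- The inclusion of the Hartogs figure in the polydisc. -/
def incH (n : ℕ) (r : ℝ) (x : Hartogs n r) : Polydisc n := ⟨x.1, x.2.1⟩

lemma hartogs_extension {n : ℕ} {r : ℝ} (hr : 0 < r) (hr1 : r < 1) :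
    IsExtension (Subtype.val : Hartogs n r → (Fin n → ℂ) × ℂ)
      (Subtype.val : Polydisc n → (Fin n → ℂ) × ℂ) (incH n r) := by
  refine ⟨Polydisc_riemann n, ?_, fun _ => rfl, ?_⟩
  · exact continuous_subtype_val.subtype_mk _
  · intro h hh
    obtain ⟨h', hd, he⟩ := exists_differentiableOn_of_hol ⟨Hartogs n r, Hartogs_isOpen n r⟩ hh
    obtain ⟨H, hH, hHe⟩ := hartogs_extend hr hr1 hd
    refine ⟨fun y => H y.1, fun y => ⟨H, ?_, EventuallyEq.refl _ _⟩, fun x => ?_⟩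
    · filter_upwards [(Polydisc_isOpen n).mem_nhds y.2] with z hz
      exact (hH z hz).differentiableAt ((Polydisc_isOpen n).mem_nhds hz)
    · change H x.1 = h x
      rw [hHe x.1 x.2]
      exact (he x).symm

/-- `X_0` has the extension property for Hartogs figures. -/
theorem hartogsMEP_zero : HartogsMEP (XX 0) := by
  intro n r hr hr1 G hG
  exact positive_mero (Hartogs_riemann hr hr1) (hartogs_extension hr hr1)
    (piOneOnto_of_simplyConnected (hartogs_extension hr hr1).cont) G hG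

end Pool.Agent.Lib.MP_55bc5f_an
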