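import Mathlib
import Pool.Agent.Lib.MP_55bc5f_an.HartogsFig

/-!
# The fibres `X_t`, `t ≠ 0`, do not have the extension property for Hartogs figures
-/

set_option autoImplicit false

open scoped Manifold ContDiff Topology ComplexConjugate
open Set Filter Metric TopologicalSpace

namespace Pool.Agent.Lib.MP_55bc5f_an

/-- A curve in `X_t` whose lift leaves every compact subset of `Ω_t` in the direction `r → 0` has no
limit. -/
lemma no_limit {t : ℂ} {ε : ℝ} (hε : 0 < ε) {y : ℝ → Quot.Q (Om t) Gam} (hy0 : ContinuousAt y 0)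
    (hy : ∀ s ∈ Ioo 0 ε, ContinuousAt y s) {f : ℝ → Om t}
    (hf : ∀ s ∈ Ioo 0 ε, ContinuousAt f s)
    (hP : ∀ s ∈ Ioo 0 ε, Quot.P (Om t) Gam (f s) = y s)
    (hlim : Tendsto (fun s => (coordOm t).r (f s)) (𝓝[>] 0) (𝓝 0)) : False := by
  let σ := Quot.sec (M := Om t) (G := Gam) (y 0)
  have hy₀ : y 0 ∈ σ.source := Quot.mem_sec_source (y 0)
  obtain ⟨δ, hδ, hball⟩ := Metric.eventually_nhds_iff_ball.1
    (hy0.eventually (σ.open_source.mem_nhds hy₀))
  set e := min ε δ with he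
  have he0 : 0 < e := lt_min hε hδ
  have hmem : ∀ s ∈ Ioo 0 e, s ∈ Ioo 0 ε ∧ y s ∈ σ.source := by
    intro s hs
    refine ⟨⟨hs.1, hs.2.trans_le (min_le_left _ _)⟩, hball s ?_⟩
    rw [mem_ball_zero_iff, Real.norm_eq_abs, abs_of_pos hs.1]
    exact hs.2.trans_le (min_le_right _ _)
  have hP2 : ∀ s ∈ Ioo 0 e, Quot.P (Om t) Gam (σ (y s)) = Quot.P (Om t) Gam (f s) := by
    intro s hs
    rw [hP s (hmem s hs).1]
    exact Quot.P_sec (hmem s hs).2
  have ha : e / 2 ∈ Ioo 0 e := ⟨by linarith, by linarith⟩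
  obtain ⟨γ, hγ⟩ := Quot.P_eq_iff.1 (hP2 _ ha)
  have key : EqOn (fun s => γ • f s) (fun s => σ (y s)) (Ioo 0 e) := by
    refine (Quot.covering (G := Gam) (M := Om t)).isCoveringMap.eqOn_of_comp_eqOn isPreconnected_Ioo
      ?_ ?_ ?_ ha hγ
    · intro s hs
      have h1 : ContinuousAt (fun z : Om t => γ • z) (f s) := (continuous_const_smul γ).continuousAt
      exact (ContinuousAt.comp h1 (hf s (hmem s hs).1)).continuousWithinAt
    · intro s hs
      exact (ContinuousAt.comp (σ.continuousAt (hmem s hs).2) (hy s (hmem s hs).1)).continuousWithinAt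
    · intro s hs
      simp only [Function.comp_apply, Quot.P_smul]
      exact (hP2 s hs).symm
  let ψ : ℝ → ℝ := fun s => (coordOm t).r (σ (y s))
  have hψc : ContinuousAt ψ 0 :=
    (coordOm t).hr.continuousAt.comp (ContinuousAt.comp (σ.continuousAt hy₀) hy0)
  have hψ : ∀ s ∈ Ioo 0 e, ψ s = (γ : Aff).c * (coordOm t).r (f s) := by
    intro s hs
    have h1 : γ • f s = σ (y s) := key hs
    have h2 : ψ s = (coordOm t).r (γ • f s) := by rw [h1]
    rw [h2]
    exact (coordOm t).r_smul γ _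
  have hpos : 0 < ψ 0 := (coordOm t).r_pos _
  have hlim1 : Tendsto ψ (𝓝[>] 0) (𝓝 (ψ 0)) := hψc.tendsto.mono_left nhdsWithin_le_nhds
  have hlim2 : Tendsto ψ (𝓝[>] 0) (𝓝 0) := by
    have h1 : Tendsto (fun s : ℝ => (γ : Aff).c * (coordOm t).r (f s)) (𝓝[>] 0) (𝓝 0) := by
      have := hlim.const_mul (γ : Aff).c
      rwa [mul_zero] at this
    refine h1.congr' ?_
    filter_upwards [Ioo_mem_nhdsGT he0] with s hs
    exact (hψ s hs).symm
  exact hpos.ne (tendsto_nhds_unique hlim2 hlim1)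

section

variable {V : Type} [NormedAddCommGroup V] [NormedSpace ℂ V]
variable {E : Type} [NormedAddCommGroup E] [NormedSpace ℂ E]
variable {R : Type} [TopologicalSpace R]

/-- Identity theorem for maps to manifolds, local form. -/
lemma eventuallyEq_of_mem_closure [FiniteDimensional ℂ V] [CompleteSpace E] {p : R → V}
    (hp : IsLocalHomeomorph p) {Y : CMan E} {F₁ F₂ : R → Y} {x : R} (h₁ : HolMapAt p Y F₁ x)
    (h₂ : HolMapAt p Y F₂ x) (hx : ∃ᶠ y in 𝓝 x, F₁ =ᶠ[𝓝 y] F₂) : F₁ =ᶠ[𝓝 x] F₂ := by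
  have hc1 := h₁.continuousAt hp.continuous.continuousAt
  have hc2 := h₂.continuousAt hp.continuous.continuousAt
  have hxx : F₁ x = F₂ x := by
    by_contra hne
    have h3 : ∀ᶠ y in 𝓝 x, F₁ y ≠ F₂ y := by
      obtain ⟨u, v, hu, hv, hxu, hxv, huv⟩ := t2_separation hne
      filter_upwards [hc1.eventually (hu.mem_nhds hxu), hc2.eventually (hv.mem_nhds hxv)]
        with y hy1 hy2 hy
      exact huv.le_bot ⟨hy1, by rw [hy]; exact hy2⟩
    obtain ⟨y, hy1, hy2⟩ := (hx.and_eventually h3).exists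
    exact hy2 hy1.self_of_nhds
  obtain ⟨g₁, hg₁, e₁⟩ := h₁
  obtain ⟨g₂, hg₂, e₂⟩ := h₂
  let c := chartAt E (F₁ x)
  have hs1 : ∀ᶠ y in 𝓝 x, F₁ y ∈ c.source :=
    hc1.eventually (c.open_source.mem_nhds (mem_chart_source E _))
  have hs2 : ∀ᶠ y in 𝓝 x, F₂ y ∈ c.source := by
    apply hc2.eventually
    rw [← hxx]
    exact c.open_source.mem_nhds (mem_chart_source E _)
  have hd1 : ∀ᶠ z in 𝓝 (p x), DifferentiableAt ℂ ((fun y => c (F₁ y)) ∘ ch hp x) z := by
    have : HolAt p (fun y => c (F₁ y)) x := by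
      refine ⟨fun z => c (g₁ z), ?_, ?_⟩
      · have hg1x : g₁ (p x) = F₁ x := e₁.self_of_nhds.symm
        have : ∀ᶠ z in 𝓝 (p x), g₁ z ∈ c.source := by
          apply hg₁.self_of_nhds.continuousAt.eventually
          rw [hg1x]
          exact c.open_source.mem_nhds (mem_chart_source E _)
        filter_upwards [this, hg₁] with z hz1 hz2
        have d1 : MDifferentiableAt 𝓘(ℂ, E) 𝓘(ℂ, E) c (g₁ z) :=
          mdifferentiableAt_atlas (chart_mem_atlas E _) hz1
        exact (MDifferentiableAt.comp z d1 hz2).differentiableAt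
      · filter_upwards [e₁] with y hy
        simp [hy]
    exact this.ch_self hp
  have hd2 : ∀ᶠ z in 𝓝 (p x), DifferentiableAt ℂ ((fun y => c (F₂ y)) ∘ ch hp x) z := by
    have : HolAt p (fun y => c (F₂ y)) x := by
      refine ⟨fun z => c (g₂ z), ?_, ?_⟩
      · have hg1x : g₂ (p x) = F₁ x := by rw [hxx]; exact e₂.self_of_nhds.symm
        have : ∀ᶠ z in 𝓝 (p x), g₂ z ∈ c.source := by
          apply hg₂.self_of_nhds.continuousAt.eventually
          rw [hg1x]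
          exact c.open_source.mem_nhds (mem_chart_source E _)
        filter_upwards [this, hg₂] with z hz1 hz2
        have d1 : MDifferentiableAt 𝓘(ℂ, E) 𝓘(ℂ, E) c (g₂ z) :=
          mdifferentiableAt_atlas (chart_mem_atlas E _) hz1
        exact (MDifferentiableAt.comp z d1 hz2).differentiableAt
      · filter_upwards [e₂] with y hy
        simp [hy]
    exact this.ch_self hp
  obtain ⟨ρ, hρ, hb⟩ := Metric.eventually_nhds_iff_ball.1
    ((hd1.and hd2).and (((eventually_ch hp hs1).and (eventually_ch hp hs2)).and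
      ((ch hp x).open_source.mem_nhds (ch_mem hp x))))
  have a1 := Osgood.analyticOnNhd (isOpen_ball (x := p x) (ε := ρ))
    (fun z hz => (hb z hz).1.1.differentiableWithinAt)
  have a2 := Osgood.analyticOnNhd (isOpen_ball (x := p x) (ε := ρ))
    (fun z hz => (hb z hz).1.2.differentiableWithinAt)
  have hNo : IsOpen (ch hp x '' ball (p x) ρ) :=
    (ch hp x).isOpen_image_of_subset_source isOpen_ball (fun z hz => (hb z hz).2.2)
  have hxN : x ∈ ch hp x '' ball (p x) ρ := ⟨p x, mem_ball_self hρ, ch_self hp x⟩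
  obtain ⟨_, hy, ⟨z, hz, rfl⟩⟩ := (hx.and_eventually (hNo.mem_nhds hxN)).exists
  have hev : ((fun y => c (F₁ y)) ∘ ch hp x) =ᶠ[𝓝 z] ((fun y => c (F₂ y)) ∘ ch hp x) := by
    filter_upwards [(ch_continuousAt hp (hb z hz).2.2).eventually hy] with z' hz'
    simp [hz']
  let _ : NormedSpace ℝ V := NormedSpace.restrictScalars ℝ ℂ V
  have heq := a1.eqOn_of_preconnected_of_eventuallyEq a2 (convex_ball (p x) ρ).isPreconnected hz hev
  filter_upwards [hNo.mem_nhds hxN]
  rintro _ ⟨z', hz', rfl⟩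
  exact c.injOn (hb z' hz').2.1.1 (hb z' hz').2.1.2 (heq hz')

end

/-- The map embedding the Hartogs figure. -/
noncomputable def Phi (t : ℂ) (z : (Fin 1 → ℂ) × ℂ) : ℂ × ℂ :=
  (t * ((z.1 0 + 1 / 2) / 8) - t * z.2 + t / 2 * z.2 ^ 2, z.2)

lemma tau_Phi (t : ℂ) (z : (Fin 1 → ℂ) × ℂ) :
    tau t (Phi t z) = t * ((z.1 0 + 1 / 2) / 8 + (z.2 ^ 2 / 2 - (z.2 - conj z.2))) := by
  simp only [tau, Phi]; ring

lemma ring_bound {s : ℂ} (hs : 7 / 8 < ‖s‖) (hs1 : ‖s‖ < 1) :
    1 / 4 < ‖s ^ 2 / 2 - (s - conj s)‖ := by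
  have h1 : 49 / 64 < s.re ^ 2 + s.im ^ 2 := by
    have := Complex.sq_norm s
    rw [Complex.normSq_apply] at this
    nlinarith
  have hre : (s ^ 2 / 2 - (s - conj s)).re = (s.re ^ 2 - s.im ^ 2) / 2 := by
    simp [pow_two, Complex.sub_re, Complex.mul_re]
  have him : (s ^ 2 / 2 - (s - conj s)).im = s.im * (s.re - 2) := by
    simp [pow_two, Complex.sub_im, Complex.mul_im]
    ring
  have hre1 : s.re < 1 := (Complex.re_le_norm s).trans_lt hs1
  by_cases hc : |s.im| ≤ 1 / 4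
  · have h2 : s.im ^ 2 ≤ 1 / 16 := by
      rw [← sq_abs]
      nlinarith [abs_nonneg s.im]
    calc (1:ℝ) / 4 < |(s ^ 2 / 2 - (s - conj s)).re| := by
          rw [hre]
          exact lt_of_lt_of_le (by nlinarith) (le_abs_self _)
      _ ≤ _ := Complex.abs_re_le_norm _
  · push Not at hc
    calc (1:ℝ) / 4 < |(s ^ 2 / 2 - (s - conj s)).im| := by
          rw [him, abs_mul, abs_of_nonpos (by linarith : s.re - 2 ≤ 0)]
          nlinarith
      _ ≤ _ := Complex.abs_im_le_norm _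

lemma inner_ne {w s : ℂ} (hw2 : w.im ^ 2 < 2 * w.re) (hs : ‖s‖ < 1) :
    w + (s ^ 2 / 2 - (s - conj s)) ≠ 0 := by
  intro h
  have hre : (w + (s ^ 2 / 2 - (s - conj s))).re = w.re + (s.re ^ 2 - s.im ^ 2) / 2 := by
    simp [pow_two, Complex.sub_re, Complex.mul_re]
  have him : (w + (s ^ 2 / 2 - (s - conj s))).im = w.im + s.im * (s.re - 2) := by
    simp [pow_two, Complex.sub_im, Complex.mul_im]
    ring
  rw [h] at hre him
  simp only [Complex.zero_re, Complex.zero_im] at hre him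
  have h1 : s.re < 1 := (Complex.re_le_norm s).trans_lt hs
  have h2 : w.im = s.im * (2 - s.re) := by linarith
  have h3 : s.im ^ 2 = 2 * w.re + s.re ^ 2 := by linarith
  have h4 : s.im ^ 2 ≤ w.im ^ 2 := by
    rw [h2, mul_pow]
    have : 1 ≤ (2 - s.re) ^ 2 := by nlinarith
    nlinarith [sq_nonneg s.im]
  nlinarith [sq_nonneg s.re]

lemma Phi_mem {t : ℂ} (ht : t ≠ 0) {z : (Fin 1 → ℂ) × ℂ} (hz : z ∈ Hartogs 1 (1 / 8)) :
    Phi t z ∈ Dt t := by
  rw [mem_Dt, tau_Phi]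
  refine mul_ne_zero ht ?_
  obtain ⟨hz1, hz2⟩ := hz
  rw [mem_Polydisc] at hz1
  have h0 : ‖z.1 0‖ ≤ ‖z.1‖ := norm_le_pi_norm z.1 0
  rcases hz2 with h | h
  · have hre : |(z.1 0).re| < 1 / 8 := (Complex.abs_re_le_norm _).trans_lt (h0.trans_lt h)
    have him : |(z.1 0).im| < 1 / 8 := (Complex.abs_im_le_norm _).trans_lt (h0.trans_lt h)
    rw [abs_lt] at hre him
    have e1 : ((z.1 0 + 1 / 2) / 8 : ℂ).re = ((z.1 0).re + 1 / 2) / 8 := by
      have : ((z.1 0 + 1 / 2) / 8 : ℂ) = ((1 / 8 : ℝ) : ℂ) * (z.1 0 + ((1 / 2 : ℝ) : ℂ)) := by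
        push_cast; ring
      rw [this, Complex.re_ofReal_mul, Complex.add_re, Complex.ofReal_re]; ring
    have e2 : ((z.1 0 + 1 / 2) / 8 : ℂ).im = (z.1 0).im / 8 := by
      have : ((z.1 0 + 1 / 2) / 8 : ℂ) = ((1 / 8 : ℝ) : ℂ) * (z.1 0 + ((1 / 2 : ℝ) : ℂ)) := by
        push_cast; ring
      rw [this, Complex.im_ofReal_mul, Complex.add_im, Complex.ofReal_im]; ring
    apply inner_ne _ hz1.2
    rw [e1, e2]; nlinarith
  · intro hc
    have h1 := ring_bound (s := z.2) (by linarith) hz1.2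
    have h2 : z.2 ^ 2 / 2 - (z.2 - conj z.2) = -((z.1 0 + 1 / 2) / 8) := by linear_combination hc
    rw [h2, norm_neg, norm_div] at h1
    have h3 : ‖z.1 0 + 1 / 2‖ ≤ 1 + 1 / 2 := by
      calc ‖z.1 0 + 1 / 2‖ ≤ ‖z.1 0‖ + ‖(1 / 2 : ℂ)‖ := norm_add_le _ _
        _ ≤ 1 + 1 / 2 := by
          have : ‖(1 / 2 : ℂ)‖ = 1 / 2 := by norm_num
          rw [this]
          linarith
    have h4 : ‖(8 : ℂ)‖ = 8 := by norm_num
    rw [h4] at h1
    linarith

lemma Phi_differentiable (t : ℂ) : Differentiable ℂ (Phi t) := by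
  unfold Phi; fun_prop

/-- The map on the open subset `{Phi ∈ D_t}` of the polydisc (extended arbitrarily). -/
noncomputable def fneg (t : ℂ) (z : Polydisc 1) : XX t :=
  open Classical in
  if h : Phi t z.1 ∈ Dt t then gneg t ⟨Phi t z.1, h⟩ else Quot.P (Om t) Gam ⟨(1, 0, 0), by
    change (1 : ℂ) + t * conj 0 ≠ 0
    simp⟩

lemma Dt_Phi_open (t : ℂ) : IsOpen {z : Polydisc 1 | Phi t z.1 ∈ Dt t} :=
  (Dt t).isOpen.preimage ((Phi_differentiable t).continuous.comp continuous_subtype_val)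

lemma fneg_eq {t : ℂ} {z : Polydisc 1} (h : Phi t z.1 ∈ Dt t) :
    fneg t z = gneg t ⟨Phi t z.1, h⟩ := dif_pos h

lemma fneg_hol {t : ℂ} {z : Polydisc 1} (h : Phi t z.1 ∈ Dt t) :
    HolMapAt (Subtype.val : Polydisc 1 → (Fin 1 → ℂ) × ℂ) (XX t) (fneg t) z := by
  obtain ⟨g₀, hg1, hg2⟩ := gneg_hol t ⟨Phi t z.1, h⟩
  have hPc : ContinuousAt (Phi t) z.1 := (Phi_differentiable t).continuous.continuousAt
  refine ⟨fun u => g₀ (Phi t u), ?_, ?_⟩
  · filter_upwards [hPc.eventually hg1] with u hu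
    have h1 : MDifferentiableAt 𝓘(ℂ, (Fin 1 → ℂ) × ℂ) 𝓘(ℂ, ℂ × ℂ) (Phi t) u :=
      (Phi_differentiable t u).mdifferentiableAt
    exact MDifferentiableAt.comp u hu h1
  · -- transfer of the germ
    have hU : ∃ U : Set (ℂ × ℂ), IsOpen U ∧ Phi t z.1 ∈ U ∧ ∀ (u : ℂ × ℂ) (hu : u ∈ Dt t), u ∈ U →
        gneg t ⟨u, hu⟩ = g₀ u := by
      obtain ⟨U, hU1, hU2, hU3⟩ := _root_.eventually_nhds_iff.1 hg2
      obtain ⟨U', hU', rfl⟩ := isOpen_induced_iff.1 hU2
      exact ⟨U', hU', hU3, fun u hu huU => hU1 ⟨u, hu⟩ huU⟩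
    obtain ⟨U, hUo, hzU, hU⟩ := hU
    have h1 : ∀ᶠ w : Polydisc 1 in 𝓝 z, Phi t w.1 ∈ U :=
      ((Phi_differentiable t).continuous.comp continuous_subtype_val).continuousAt.eventually
        (hUo.mem_nhds hzU)
    filter_upwards [h1, (Dt_Phi_open t).mem_nhds h] with w hw1 hw2
    have hw2' : Phi t w.1 ∈ Dt t := hw2
    rw [fneg_eq hw2']
    exact hU _ hw2' hw1

/-- The curve. -/
noncomputable def crv (v s : ℝ) : (Fin 1 → ℂ) × ℂ :=
  (fun _ => ((-1 / 2 - 4 * v ^ 2 + 8 * s : ℝ) : ℂ), (v : ℂ))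

lemma crv_continuous (v : ℝ) : Continuous (crv v) := by
  unfold crv; fun_prop

lemma tau_crv (t : ℂ) (v s : ℝ) : tau t (Phi t (crv v s)) = t * s := by
  rw [tau_Phi]
  simp only [crv, Complex.conj_ofReal]
  push_cast
  ring

lemma crv_mem {v s : ℝ} (hv : |v| < 1 / 8) (hs : 0 ≤ s) (hs1 : s ≤ 1 / 16) :
    crv v s ∈ Polydisc 1 := by
  have hv2 : v ^ 2 < 1 / 64 := by rw [← sq_abs]; nlinarith [abs_nonneg v]
  rw [mem_Polydisc]
  constructor
  · rw [pi_norm_lt_iff one_pos]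
    intro i
    simp only [crv]
    rw [Complex.norm_real, Real.norm_eq_abs, abs_lt]
    constructor <;> nlinarith [sq_nonneg v]
  · simp only [crv]
    rw [Complex.norm_real, Real.norm_eq_abs]
    linarith

lemma crv_mem_hartogs {v : ℝ} (hv : |v| < 1 / 8) : crv v (1 / 16) ∈ Hartogs 1 (1 / 8) := by
  have hv2 : v ^ 2 < 1 / 64 := by rw [← sq_abs]; nlinarith [abs_nonneg v]
  refine ⟨crv_mem hv (by norm_num) le_rfl, Or.inl ?_⟩
  rw [pi_norm_lt_iff (by norm_num)]
  intro i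
  simp only [crv]
  rw [Complex.norm_real, Real.norm_eq_abs, abs_lt]
  constructor <;> nlinarith [sq_nonneg v]

lemma countable_of_codim {A : Set (Polydisc 1)}
    (hcodim : CodimGeTwo (Subtype.val : Polydisc 1 → (Fin 1 → ℂ) × ℂ) A) : A.Countable := by
  have hd : DiscreteTopology A := by
    rw [discreteTopology_subtype_iff]
    intro a ha
    rw [Filter.inf_principal_eq_bot]
    obtain ⟨u, v, huv, hev⟩ := hcodim a ha
    have hspan : ∀ x : (Fin 1 → ℂ) × ℂ, ∃ s r : ℂ, x = a.1 + s • u + r • v := by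
      intro x
      have hb : Submodule.span ℂ (range ![u, v]) = ⊤ := by
        apply huv.span_eq_top_of_card_eq_finrank
        simp
      have hx : x - a.1 ∈ Submodule.span ℂ (range ![u, v]) := by rw [hb]; trivial
      rw [Matrix.range_cons, Matrix.range_cons, Matrix.range_empty, union_empty,
        singleton_union, Submodule.mem_span_pair] at hx
      obtain ⟨s, r, hsr⟩ := hx
      exact ⟨s, r, by rw [add_assoc, hsr]; abel⟩
    have h1 : ∀ᶠ x in 𝓝[≠] a, x ∈ A → (∃ s r : ℂ, x.1 = a.1 + s • u + r • v) → x = a :=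
      hev.filter_mono nhdsWithin_le_nhds
    filter_upwards [h1, self_mem_nhdsWithin] with x hx hxa hxA
    exact hxa (hx hxA (hspan x.1))
  have : Countable A := countable_of_Lindelof_of_discrete
  exact this

theorem not_hartogsMEP {t : ℂ} (ht : t ≠ 0) : ¬ HartogsMEP (XX t) := by
  intro hMEP
  let f : Hartogs 1 (1 / 8) → XX t := fun x => fneg t (incH 1 (1 / 8) x)
  have hfh : ∀ x, HolMapAt (Subtype.val : Hartogs 1 (1 / 8) → (Fin 1 → ℂ) × ℂ) (XX t) f x := by
    intro x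
    obtain ⟨g₀, hg1, hg2⟩ := fneg_hol (t := t) (z := incH 1 (1 / 8) x) (Phi_mem ht x.2)
    refine ⟨g₀, hg1, ?_⟩
    have hc : ContinuousAt (incH 1 (1 / 8)) x :=
      (continuous_subtype_val.subtype_mk _).continuousAt
    exact hc.eventually hg2
  obtain ⟨G', hG', hext⟩ := hMEP 1 (1 / 8) (by norm_num) (by norm_num) _
    (isMeromorphic_graph continuous_subtype_val hfh)
  obtain ⟨A, g', hA, hcodim, hhol, hG⟩ := hG'.generic
  have hpl := (Polydisc_riemann 1).localHomeo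
  have hAc : IsClosed A := hA.isClosed continuous_subtype_val
  -- choice of the curve
  have hAcount := countable_of_codim hcodim
  obtain ⟨v, hvA, hv⟩ : ∃ v : ℝ, v ∉ (fun x : Polydisc 1 => x.1.2.re) '' A ∧ |v| < 1 / 8 := by
    have h1 := ((hAcount.image (fun x : Polydisc 1 => x.1.2.re)).dense_compl ℝ).inter_nhds_nonempty
      (ball_mem_nhds (0:ℝ) (show (0:ℝ) < 1 / 8 by norm_num))
    obtain ⟨v, h2, h3⟩ := h1
    rw [mem_ball_zero_iff, Real.norm_eq_abs] at h3
    exact ⟨v, h2, h3⟩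
  -- the curve in the polydisc
  let prj : ℝ → ℝ := fun s => max 0 (min s (1 / 16))
  have hprj : Continuous prj := by fun_prop
  have hprj0 : ∀ s, 0 ≤ prj s ∧ prj s ≤ 1 / 16 := by
    intro s
    refine ⟨le_max_left _ _, max_le (by norm_num) (min_le_right _ _)⟩
  have hprjs : ∀ s ∈ Icc (0:ℝ) (1 / 16), prj s = s := by
    intro s hs
    simp only [prj]
    rw [min_eq_left hs.2, max_eq_right hs.1]
  let c : ℝ → Polydisc 1 := fun s => ⟨crv v (prj s), crv_mem hv (hprj0 s).1 (hprj0 s).2⟩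
  have hc : Continuous c := ((crv_continuous v).comp hprj).subtype_mk _
  have hcA : ∀ s, c s ∉ A := by
    intro s hs
    apply hvA
    refine ⟨c s, hs, ?_⟩
    simp [c, crv]
  have hτ : ∀ s ∈ Icc (0:ℝ) (1 / 16), tau t (Phi t (c s).1) = t * s := by
    intro s hs
    change tau t (Phi t (crv v (prj s))) = _
    rw [tau_crv, hprjs s hs]
  have hD : ∀ s ∈ Ioc (0:ℝ) (1 / 16), Phi t (c s).1 ∈ Dt t := by
    intro s hs
    rw [mem_Dt, hτ s ⟨hs.1.le, hs.2⟩]
    exact mul_ne_zero ht (by exact_mod_cast hs.1.ne')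
  -- `g' = fneg` along the curve
  have hagree : Ioc (0:ℝ) (1 / 16) ⊆ {s : ℝ | g' =ᶠ[𝓝 (c s)] fneg t} := by
    have hopen : IsOpen {x : Polydisc 1 | g' =ᶠ[𝓝 x] fneg t} := isOpen_setOfPred_eventually_nhds
    apply isPreconnected_Ioc.subset_of_closure_inter_subset (hopen.preimage hc)
    · refine ⟨1 / 16, ⟨by norm_num, le_rfl⟩, ?_⟩
      -- the end point is in the Hartogs figure
      have hmem : (c (1 / 16)).1 ∈ Hartogs 1 (1 / 8) := by
        change crv v (prj (1 / 16)) ∈ _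
        rw [hprjs _ ⟨by norm_num, le_rfl⟩]
        exact crv_mem_hartogs hv
      have h1 : ∀ᶠ x : Polydisc 1 in 𝓝 (c (1 / 16)), x.1 ∈ Hartogs 1 (1 / 8) :=
        continuous_subtype_val.continuousAt.eventually ((Hartogs_isOpen 1 (1 / 8)).mem_nhds hmem)
      change ∀ᶠ x in 𝓝 (c (1 / 16)), g' x = fneg t x
      filter_upwards [h1, hAc.isOpen_compl.mem_nhds (hcA (1 / 16))] with x hx1 hx2
      have h2 : ((⟨x.1, x.2⟩ : Polydisc 1), g' x) ∈ G' := by
        rw [hG]
        exact subset_closure ⟨hx2, rfl⟩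
      exact (hext ⟨x.1, hx1⟩ (g' x)).1 h2
    · rintro s ⟨hs1, hs2⟩
      change g' =ᶠ[𝓝 (c s)] fneg t
      apply eventuallyEq_of_mem_closure hpl (hhol _ (hcA s)) (fneg_hol (hD s hs2))
      have h3 : ∃ᶠ s' in 𝓝 s, g' =ᶠ[𝓝 (c s')] fneg t := mem_closure_iff_frequently.1 hs1
      exact hc.continuousAt.frequently h3
  -- contradiction
  have hDpre : ∀ s : ℝ, s ∈ Ioo (0:ℝ) (1 / 16) → Phi t (c s).1 ∈ Dt t := fun s hs =>
    hD s ⟨hs.1, hs.2.le⟩
  classical
  let l : ℝ → Om t := fun s => if h : Phi t (c s).1 ∈ Dt t then liftneg t ⟨Phi t (c s).1, h⟩ else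
    ⟨(1, 0, 0), by change (1 : ℂ) + t * conj 0 ≠ 0; simp⟩
  have hl : ∀ (s : ℝ) (hs : s ∈ Ioo (0:ℝ) (1 / 16)), l s = liftneg t ⟨Phi t (c s).1, hDpre s hs⟩ :=
    fun s hs => dif_pos (hDpre s hs)
  have hg'c : ∀ s, ContinuousAt (fun s => (g' (c s) : Quot.Q (Om t) Gam)) s := by
    intro s
    have h1 : ContinuousAt g' (c s) := (hhol _ (hcA s)).continuousAt continuousAt_subtype_val
    exact ContinuousAt.comp (f := c) h1 hc.continuousAt
  refine no_limit (t := t) (ε := 1 / 16) (by norm_num) (y := fun s => g' (c s)) (f := l)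
    (hg'c 0) (fun s _ => hg'c s) ?_ ?_ ?_
  · intro s hs
    rw [Topology.IsInducing.subtypeVal.continuousAt_iff]
    have h1 : ContinuousAt (fun s => (((Phi t (c s).1).1, 0, (Phi t (c s).1).2) : ℂ × ℂ × ℂ)) s := by
      have h2 : Continuous (fun s => Phi t (c s).1) :=
        (Phi_differentiable t).continuous.comp (continuous_subtype_val.comp hc)
      exact (h2.fst.prodMk (continuous_const.prodMk h2.snd)).continuousAt
    refine h1.congr ?_
    filter_upwards [Ioo_mem_nhds hs.1 hs.2] with s' hs'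
    simp only [Function.comp_apply, hl s' hs']
    rfl
  · intro s hs
    have h1 : g' (c s) = fneg t (c s) :=
      (show g' =ᶠ[𝓝 (c s)] fneg t from hagree ⟨hs.1, hs.2.le⟩).self_of_nhds
    rw [hl s hs]
    change _ = (g' (c s) : Quot.Q (Om t) Gam)
    rw [h1, fneg_eq (hDpre s hs)]
    rfl
  · have h1 : Tendsto (fun s : ℝ => ‖t‖ * s) (𝓝[>] 0) (𝓝 0) := by
      have : Continuous (fun s : ℝ => ‖t‖ * s) := by fun_prop
      have h2 := this.tendsto 0
      simp only [mul_zero] at h2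
      exact h2.mono_left nhdsWithin_le_nhds
    refine h1.congr' ?_
    filter_upwards [Ioo_mem_nhdsGT (show (0:ℝ) < 1 / 16 by norm_num)] with s hs
    rw [hl s hs]
    change _ = ‖tau t (Phi t (c s).1)‖
    rw [hτ s ⟨hs.1.le, hs.2.le⟩, norm_mul, Complex.norm_real, Real.norm_eq_abs, abs_of_pos hs.1]

end Pool.Agent.Lib.MP_55bc5f_an
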