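import Mathlib
import Pool.Agent.Lib.MP_55bc5f_an.HartogsNeg

/-!
# Main theorem
-/

set_option autoImplicit false

open Set

namespace Pool.Agent.Lib.MP_55bc5f_an

theorem main :
    ∃ 𝒟 : Deformation (ℂ × ℂ × ℂ) (ℂ × ℂ × ℂ × ℂ),
      HartogsMEP (𝒟.fibre ⟨0, Metric.mem_ball_self one_pos⟩) ∧
      EnvelopeMEP (𝒟.fibre ⟨0, Metric.mem_ball_self one_pos⟩) ∧
      ∀ t : Metric.ball (0 : ℂ) 1, (t : ℂ) ≠ 0 →
        ¬ HartogsMEP (𝒟.fibre t) ∧ ¬ EnvelopeMEP (𝒟.fibre t) ∧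
        ∃ D : TopologicalSpace.Opens (ℂ × ℂ),
          IsRiemannDomain (Subtype.val : D → ℂ × ℂ) ∧
          IsEnvelope (Subtype.val : D → ℂ × ℂ) (id : ℂ × ℂ → ℂ × ℂ) Subtype.val ∧
          ∃ f : D → 𝒟.fibre t,
            (∀ x, HolMapAt (Subtype.val : D → ℂ × ℂ) (𝒟.fibre t) f x) ∧
            ¬ ∃ G : Set ((ℂ × ℂ) × 𝒟.fibre t),
              IsMeromorphic (id : ℂ × ℂ → ℂ × ℂ) (𝒟.fibre t) G ∧
              ∀ (x : D) (y : 𝒟.fibre t), (x.1, y) ∈ G ↔ y = f x := by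
  refine ⟨Defo, hartogsMEP_zero, envelopeMEP_zero, fun t ht =>
    ⟨not_hartogsMEP ht, not_envelopeMEP ht, Dt t, isRiemannDomain_opens _, envelope_Dt ht, gneg t,
      gneg_hol t, ?_⟩⟩
  rintro ⟨G, hG, hext⟩
  exact no_ext ht G hG hext

end Pool.Agent.Lib.MP_55bc5f_an
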