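import Mathlib
import Pool.Agent.Lib.MP_55bc5f_an.Main

/-!
# The meromorphic extension property is not open under deformations

There is a complex deformation `𝒟` over the unit disc (a proper holomorphic submersion with connected
compact fibres of dimension three) such that the central fibre has the meromorphic extension
property, in both forms `HartogsMEP` and `EnvelopeMEP`, while no other fibre has it: every fibre over
`t ≠ 0` fails both forms, and there are a domain `D` of `ℂ²` whose envelope of holomorphy is `ℂ²` and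
a holomorphic map from `D` to the fibre over `t` without a meromorphic extension to `ℂ²`.

The fibre over `0` is the Nakamura manifold `Γ \ (ℂ* × ℂ²)`, the fibre over `t` is the quotient of
`{w ∈ ℂ³ : w₁ + t conj w₃ ≠ 0}` by a discrete group of affine maps isomorphic to `Γ`.
-/

set_option autoImplicit false

open Pool.Agent.Lib.MP_55bc5f_an

theorem Pool.Agent.Results.MP_55bc5f_an.NotOpen.result :
    ∃ 𝒟 : Deformation (ℂ × ℂ × ℂ) (ℂ × ℂ × ℂ × ℂ),
      HartogsMEP (𝒟.fibre ⟨0, Metric.mem_ball_self one_pos⟩) ∧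
      EnvelopeMEP (𝒟.fibre ⟨0, Metric.mem_ball_self one_pos⟩) ∧
      ∀ t : Metric.ball (0 : ℂ) 1, (t : ℂ) ≠ 0 →
        ¬ HartogsMEP (𝒟.fibre t) ∧ ¬ EnvelopeMEP (𝒟.fibre t) ∧
        ∃ D : TopologicalSpace.Opens (ℂ × ℂ),
          IsRiemannDomain (Subtype.val : D → ℂ × ℂ) ∧
          IsEnvelope (Subtype.val : D → ℂ × ℂ) (id : ℂ × ℂ → ℂ × ℂ) Subtype.val ∧
          ∃ f : D → 𝒟.fibre t,
            (∀ x, HolMapAt (Subtype.val : D → ℂ × ℂ) (𝒟.fibre t) f x) ∧
            ¬ ∃ G : Set ((ℂ × ℂ) × 𝒟.fibre t),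
              IsMeromorphic (id : ℂ × ℂ → ℂ × ℂ) (𝒟.fibre t) G ∧
              ∀ (x : D) (y : 𝒟.fibre t), (x.1, y) ∈ G ↔ y = f x :=
  main
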